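import Pool.Agent.H72.T4C.S
import Pool.Agent.H48.V0T.Ldt
import Pool.Agent.H62.V0C.Cfb
import Pool.Agent.H71.CDX.Cdl
import Pool.Agent.H64.F5.Lvb
import Pool.Agent.H23.D2.Path

/-!
# The labels of the targets from closed labels of earlier windows

`cell_q`: the increment of a label near a chart over one cell of the resolution `J`. `relv_seq`: finitely
many differences of closed labels are small on the natural box. `LbG`: labels of a class.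
`lbt_g`: `LbT` from `WinB` and from closed labels of the targets of any degree, at windows `≤ w` and
almost of the accuracy of the charts. `lbt_aff`: affine labels. `lbt_box`: near a window of a box.
-/

set_option autoImplicit false

namespace Pool.T462

open Finset Real MvPolynomial
open Pool.Agent.H49.Ent Pool.Agent.H32.Dense
open Pool.STK hiding pr2
open Pool.KA Pool.KSAT Pool.K2S Pool.PB Pool.S6C
open Pool.GEN Pool.CHT Pool.CHX Pool.ISO Pool.LA91 Pool.AVG71 Pool.AVG5 Pool.D2F2 Pool.AVG57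
open Pool.RCD Pool.AVG96 Pool.OWN68 Pool.V0F Pool.V0Q Pool.V0T
open Pool.AJW (CfB)
open Pool.GRD (LbP)
open Pool.CDX (AffL AfG)
open Pool.D2R (WinB bt_near)

/-- **The increment of a label** over one cell of the resolution `J`. -/
theorem cell_q (D D' r : ℕ) : ∃ C₁ : ℕ, 1 ≤ C₁ ∧ ∀ {m J : ℕ} {F : Fam m J} {c : ℕ → Fin m}
    {a e : ℕ} {g : ℕ → ℕ} {A : F.Ω → Prop} {G : PtT F → ℕ → MvPolynomial (Option (Fin m)) ℝ}
    {H : LnT F → ℕ → MvPolynomial (Option (Fin m)) ℝ}, Set.InjOn c (Set.Iio (r + 1)) →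
    ChOK F c (r + 1) (fun _ => D) a a e g A G H → ∀ {v l : ℕ} {M : ℝ},
    (∀ i ≤ r, e + g i + v + C₁ ≤ J) → l ≤ r → 0 ≤ M →
    ∀ Q : PtT F → MvPolynomial (Option (Fin m)) ℝ, (∀ y, (Q y).totalDegree ≤ D') →
    (∀ y, DepC c l (Q y)) →
    (∀ ω, A ω → ∀ x, NBx c (G (ptr F J ω)) g a (F.t ω) l x →
      |eval x (Q (ptr F J ω)) - eval x (G (ptr F J ω) l)| ≤ M / 2 ^ g l) →
    ∀ ω ν, A ω → A ν → ptr F J ω = ptr F J ν →
      |(F.x ω (c l) - eval (bt F ω) (Q (ptr F J ω))) -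
        (F.x ν (c l) - eval (bt F ν) (Q (ptr F J ν)))| ≤ 2 ^ C₁ * (1 + M) / 2 ^ (g l + v) := by
  obtain ⟨B, hB⟩ : ∃ B, B = max D D' := ⟨_, rfl⟩
  have hBD : D ≤ B := by
    rw [hB]
    exact le_max_left _ _
  have hBD' : D' ≤ B := by
    rw [hB]
    exact le_max_right _ _
  obtain ⟨Dn, hDn⟩ : ∃ Dn, Dn = ∑ i ∈ range (r + 1), B * dga (fun _ => B) i := ⟨_, rfl⟩
  obtain ⟨c₀, h₀⟩ := near_cell (r + 1) (fun _ => B)
  obtain ⟨c₂, h₂⟩ := nbx_dbl (r + 1) (fun _ => B)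
  obtain ⟨C, hC, h₃⟩ := nbx_lip Dn
  obtain ⟨c₄, hc₄⟩ := pow_unbounded_of_one_lt (C * 2 ^ c₂) (one_lt_two (α := ℝ))
  refine ⟨c₀ + c₄ + 1, by omega, ?_⟩
  intro m J F c a e g A G H hinj hOK v l M hJ hl hM Q hQd hQ hnear ω ν hω hν hpt
  obtain ⟨hT, htn, hx⟩ := bt_near hpt
  obtain ⟨y, hy⟩ : ∃ y, y = ptr F J ω := ⟨_, rfl⟩
  have hyn : ptr F J ν = y := by rw [hy, hpt]
  rw [← hy, hyn]
  obtain ⟨x, hxd⟩ : ∃ x, x = bt F ω := ⟨_, rfl⟩
  obtain ⟨x', hxd'⟩ : ∃ x', x' = bt F ν := ⟨_, rfl⟩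
  have hxn : x none = F.t ω := by rw [hxd]; rfl
  have hxx : x' none = x none := by rw [hxd, hxd', htn]
  have hxc : ∀ j, x (some j) = F.x ω j := fun j => by rw [hxd]; rfl
  have hxc' : ∀ j, x' (some j) = F.x ν j := fun j => by rw [hxd']; rfl
  have hG : ∀ l, (G y l).totalDegree ≤ B := fun l => (hOK.degG y l).trans hBD
  have hps : ∀ l < r + 1, |x (some (c l)) - eval x (G y l)| ≤ 1 / 2 ^ g l := fun l hl => by
    have h1 := hOK.pos ω hω l hl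
    rw [← hy, ← hxd, ← hxc] at h1
    exact h1
  have hlp : ∀ i < r + 1, ∀ b, NBx c (G y) g a (x none) i b → ∀ l < i,
      |eval b (pderiv (some (c l)) (G y i))| ≤ 2 ^ (e + nlp g l i) := fun i hi b hb l hl => by
    rw [hxn, hy] at hb
    have h1 := hOK.lip ω hω i hi b hb l hl
    rw [← hy] at h1
    exact h1
  have hnc := h₀ (c := c) (G := G y) (g := g) (a := a) (e := e) (J := J) (v := v) (x := x) hinj hG
    (hOK.depG y) hps hlp (fun i hi => by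
      have := hJ i (by omega)
      omega)
  have hd : ∀ l, |x' (some (c l)) - x (some (c l))| ≤ 1 / 2 ^ J := fun l => by
    rw [hxc, hxc', abs_sub_comm]
    exact hx (c l)
  have hinc : ∀ l' < r + 1, |eval x' (G y l') - eval x (G y l')| ≤ 1 / 4 / 2 ^ (g l' + v) :=
    fun l' hl' => (hnc l' (by omega) x' hxx (fun i _ => hd i)).2 hl'
  have hJs : ∀ l' ≤ r, (1 : ℝ) / 2 ^ J ≤ 1 / 2 / 2 ^ (g l' + v) := fun l' hl' => by
    have h1 : (1 : ℝ) / 2 / 2 ^ (g l' + v) = 1 / 2 ^ (g l' + v + 1) := by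
      rw [pow_succ]
      field_simp
    rw [h1]
    refine Pool.PB.inv_mono ?_
    have := hJ l' hl'
    omega
  -- the difference of the two labels
  obtain ⟨R, hR⟩ : ∃ R, R = Q y - G y l := ⟨_, rfl⟩
  have hRe : ∀ b, eval b R = eval b (Q y) - eval b (G y l) := fun b => by rw [hR, map_sub]
  have hRd : R.totalDegree ≤ B := by
    rw [hR]
    exact (totalDegree_sub _ _).trans (max_le ((hQd y).trans hBD') (hG l))
  have hRc : DepC c l R := by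
    intro b b' h1 h2
    rw [hRe, hRe, hQ y b b' h1 h2, hOK.depG y l b b' h1 h2]
  have hM' : 0 ≤ M / 2 ^ g l := by positivity
  have h4 := h₂ (i := l) (c := c) (G := G y) (Q := R) (g := g) (a := a) (t := F.t ω)
    (M := M / 2 ^ g l) (by omega) (hinj.mono fun j hj => by
      rw [Set.mem_Iio] at hj ⊢
      omega) hG (hOK.depG y) hRc hRd hM' (fun b hb => by
        rw [hRe, hy]
        exact hnear ω hω b (by rw [← hy]; exact hb))
  have hpn : (0 : ℝ) < 1 / 2 ^ v := by positivity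
  have h5 := h₃ (c := c) (i := l) (K := fun _ => B) (G := G y) (Q := R) (g := g) (a := a) (D₀ := B)
    (t := F.t ω) (M := 2 ^ c₂ * (M / 2 ^ g l)) (lam := 1 / 2 ^ v) (b := x) (b' := x')
    (hinj.mono fun j hj => by
      rw [Set.mem_Iio] at hj ⊢
      omega) hG (hOK.depG y) hRc hRd (by
        rw [hDn]
        exact Finset.single_le_sum (f := fun i => B * dga (fun _ => B) i)
          (fun _ _ => Nat.zero_le _) (mem_range.2 (by omega))) hpn (by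
        rw [div_le_one (by positivity)]
        exact one_le_pow₀ (by norm_num)) h4 hxn (fun j hj => hps j (by omega)) (by
        rw [hxx, hxn, sub_self, abs_zero]
        positivity) (fun j hj => by
        have e1 := hinc j (by omega)
        have e2 := (hd j).trans (hJs j (by omega))
        have e3 : (1 : ℝ) / 2 ^ v / 2 ^ g j = 1 / 2 ^ (g j + v) := by
          rw [pow_add]
          field_simp
        have e4 : (1 : ℝ) / 4 / 2 ^ (g j + v) + 1 / 2 / 2 ^ (g j + v) ≤ 1 / 2 ^ (g j + v) := by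
          have e5 : (0 : ℝ) < 1 / 2 ^ (g j + v) := by positivity
          have e6 : (1 : ℝ) / 4 / 2 ^ (g j + v) = 1 / 4 * (1 / 2 ^ (g j + v)) := by ring
          have e7 : (1 : ℝ) / 2 / 2 ^ (g j + v) = 1 / 2 * (1 / 2 ^ (g j + v)) := by ring
          rw [e6, e7]
          linarith
        rw [e3]
        refine le_trans ?_ e4
        rw [abs_le] at e1 e2 ⊢
        constructor <;> linarith [e1.1, e1.2, e2.1, e2.2])
  -- the sum
  have e1 := hinc l (by omega)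
  have e2 : |F.x ω (c l) - F.x ν (c l)| ≤ 1 / 2 / 2 ^ (g l + v) := (hx (c l)).trans (hJs l hl)
  have hE : (0 : ℝ) < 1 / 2 ^ (g l + v) := by positivity
  have e5 : C * (2 ^ c₂ * (M / 2 ^ g l)) * (1 / 2 ^ v) = C * 2 ^ c₂ * M * (1 / 2 ^ (g l + v)) := by
    rw [pow_add]
    field_simp
  rw [e5, hRe, hRe] at h5
  have e6 : (1 : ℝ) / 4 / 2 ^ (g l + v) = 1 / 4 * (1 / 2 ^ (g l + v)) := by ring
  have e7 : (1 : ℝ) / 2 / 2 ^ (g l + v) = 1 / 2 * (1 / 2 ^ (g l + v)) := by ring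
  rw [e6] at e1
  rw [e7] at e2
  have e8 : C * 2 ^ c₂ * M * (1 / 2 ^ (g l + v)) ≤ 2 ^ c₄ * M * (1 / 2 ^ (g l + v)) :=
    mul_le_mul_of_nonneg_right (mul_le_mul_of_nonneg_right hc₄.le hM) hE.le
  have e9 : (2 : ℝ) ^ (c₀ + c₄ + 1) * (1 + M) / 2 ^ (g l + v) =
      2 ^ (c₀ + c₄ + 1) * (1 + M) * (1 / 2 ^ (g l + v)) := by ring
  rw [e9]
  have e10 : (1 + 2 ^ c₄ * M) * (1 / 2 ^ (g l + v)) ≤
      2 ^ (c₀ + c₄ + 1) * (1 + M) * (1 / 2 ^ (g l + v)) := by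
    refine mul_le_mul_of_nonneg_right ?_ hE.le
    have k1 : (1 : ℝ) ≤ 2 ^ (c₀ + c₄ + 1) := one_le_pow₀ (by norm_num)
    have k2 : (2 : ℝ) ^ c₄ ≤ 2 ^ (c₀ + c₄ + 1) := pow_le_pow_right₀ (by norm_num) (by omega)
    nlinarith [mul_le_mul_of_nonneg_right k2 hM]
  refine le_trans ?_ e10
  rw [← hxd, ← hxd']
  rw [abs_le] at e1 e2 h5 ⊢
  constructor <;> nlinarith [e1.1, e1.2, e2.1, e2.2, h5.1, h5.2, e8]

/-- **Finitely many differences of closed labels** are small on the natural box. -/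
theorem relv_seq {m J : ℕ} {F : Fam m J} {c : ℕ → Fin m} {r a w : ℕ} {g : ℕ → ℕ} {D h : ℕ}
    {κ : ℝ} {B₀ : F.Ω → Prop} {G : PtT F → ℕ → MvPolynomial (Option (Fin m)) ℝ}
    (hc : Set.InjOn c (Set.Iio r)) (hdep : ∀ y l, DepC c l (G y l))
    (hR : RelvF F c r a w g D h κ B₀ G) (hκ : 0 ≤ κ) (n : ℕ) (i : ℕ → ℕ)
    (Dx : ℕ → PtT F → MvPolynomial (Option (Fin m)) ℝ)
    (Dl : ℕ → LnT F → MvPolynomial (Option (Fin m)) ℝ) (M : ℕ → ℝ) (B' : F.Ω → Prop)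
    (hB : Sub B' B₀) (hP : 2 ^ n * κ * Pe F.p B₀ ≤ Pe F.p B')
    (hh : ∀ j < n, i j ≤ r ∧ (∀ y, (Dx j y).totalDegree ≤ D) ∧ (∀ s, (Dl j s).totalDegree ≤ D) ∧
      (∀ y, DepC c (i j) (Dx j y)) ∧ (∀ s, DepC c (i j) (Dl j s)) ∧ 0 < M j ∧
      (∀ ω, B' ω → |eval (bt F ω) (Dx j (ptr F J ω))| ≤ M j) ∧
      ∀ ω, B' ω → ∀ b, NBx c (G (ptr F J ω)) g a (F.t ω) (i j) b →
        |eval b (Dx j (ptr F J ω)) - eval b (Dl j (slam F w ω))| ≤ M j) :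
    ∃ B'' : F.Ω → Prop, Sub B'' B' ∧ Pe F.p B' / 2 ^ n ≤ Pe F.p B'' ∧ ∀ j < n, ∀ ω, B'' ω →
      ∀ b, NBx c (G (ptr F J ω)) g a (F.t ω) (i j) b →
        |eval b (Dx j (ptr F J ω))| ≤ 2 ^ h * M j := by
  induction n with
  | zero => exact ⟨B', fun ω hω => hω, by simp, fun j hj => absurd hj (Nat.not_lt_zero j)⟩
  | succ n ih =>
    have hP0 : 0 ≤ Pe F.p B₀ := Pe_nonneg F.isLaw B₀
    have hk0 : 0 ≤ 2 ^ n * κ * Pe F.p B₀ := by positivity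
    have e1 : (2 : ℝ) ^ (n + 1) * κ * Pe F.p B₀ = 2 * (2 ^ n * κ * Pe F.p B₀) := by
      rw [pow_succ]
      ring
    rw [e1] at hP
    obtain ⟨B₁, b1, b2, b3⟩ := ih (by linarith) fun j hj => hh j (by omega)
    obtain ⟨h1, h2, h3, h4, h5, h6, h7, h8⟩ := hh n (by omega)
    have hB₁ : κ * Pe F.p B₀ ≤ Pe F.p B₁ := by
      refine le_trans ?_ b2
      rw [le_div_iff₀ (by positivity)]
      nlinarith
    obtain ⟨B₂, c1, c2, c3⟩ := Pool.F5.relv_pre hc hdep hR h1 B₁ (fun ω hω => hB ω (b1 ω hω)) hB₁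
      (Dx n) (Dl n) (M n) h2 h3 h4 h5 h6 (fun ω hω => h7 ω (b1 ω hω))
      fun ω hω => h8 ω (b1 ω hω)
    refine ⟨B₂, fun ω hω => b1 ω (c1 ω hω), ?_, fun j hj ω hω b hb => ?_⟩
    · refine le_trans ?_ c2
      rw [pow_succ, ← div_div]
      exact div_le_div_of_nonneg_right b2 (by norm_num)
    · rcases Nat.lt_or_ge j n with hjn | hjn
      · exact b3 j hjn ω (c1 ω hω) b hb
      · obtain rfl : j = n := by omega
        exact c3 ω hω b hb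

/-- **Labels of the degree `K`** of a class, over the coordinates `I`. -/
def LbG {m : ℕ} (S : PCl m) (I : Finset (Fin m)) (k : Fin m) (K : ℕ) (w p : ℝ) : Prop :=
  ∀ e : ℝ, 0 < e → Bas S (fun J F A => ∃ (V : Type) (z : PtT F → V) (z' : LnT F → V)
    (G : V → MvPolynomial (Option (Fin m)) ℝ),
    LbP F I k K J ⌊w * J⌋₊ ⌊(p - e) * J⌋₊ A z z' G)

theorem LbG.of_aff {m : ℕ} {S : PCl m} {I : Finset (Fin m)} {k : Fin m} {w p : ℝ}
    (h : AffL S I k w p) : LbG S I k 1 w p := h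

/-- A number between two powers. -/
theorem pow_fl {x : ℝ} {J n g : ℕ} (h : x - 1 ≤ n) (hg : (g : ℝ) ≤ x + J) :
    (1 : ℝ) / 2 ^ n ≤ 2 ^ (J + 1) / 2 ^ g := by
  rw [div_le_div_iff₀ (by positivity) (by positivity), one_mul, ← pow_add]
  refine pow_le_pow_right₀ (by norm_num) ?_
  have h1 : (g : ℝ) ≤ ((J + 1 + n : ℕ) : ℝ) := by
    push_cast
    linarith
  exact_mod_cast h1

/-- **The labels of the targets** on a part of every event with ball windows, from closed labels of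
the degree `K` at windows `bl l ≤ w`. -/
theorem lbt_g {m : ℕ} {S : PCl m} {Ct : ℝ} (htm : TmC S Ct)
    (hpos : ∀ (τ : ℝ) (J : ℕ) (F : Fam m J) (A : F.Ω → Prop), S.St τ J F A → 0 < Pe F.p A)
    {c : ℕ → Fin m} {k f D D' K Dr N M fn : ℕ} {C₀ a Eb ηm w u φ e₀ : ℝ} {ow η σ : ℕ → ℝ}
    {lv bb : ℕ → ℕ → ℝ} {sn : ℕ → ℝ → ℝ} {bl pl : ℕ → ℝ}
    (hinj : Set.InjOn c (Set.Iio (k + f + 1))) (hD : D ≤ D') (hK : K ≤ D') (hDr : D' ≤ Dr)
    (hfn : fn ≤ N) (how : ow fn = w) (hlv : ∀ l ≤ k + f, lv fn l = sn l w) (hw0 : 0 ≤ w)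
    (hw1 : w < 1) (hφ : 0 < φ) (hu : 0 ≤ u) (hC : C₀ * ηm ≤ φ / 4)
    (hEb : ∀ l ≤ k + f, Eb + sn l w + 3 * u + 2 * φ ≤ 1) (he₀ : 0 < e₀) (heφ : e₀ ≤ φ / 4)
    (hbl : ∀ l, k ≤ l → l ≤ k + f → bl l ≤ w ∧ sn l w - φ / 4 ≤ pl l ∧
      LbG S ((range l).image c) (c l) K (bl l) (pl l)) :
    ∃ cL κL : ℝ, 0 < cL ∧ 0 < κL ∧ Bas S (fun J F A => ∀ {κ : ℝ} {z : ℕ → ℕ → ℕ}
      {g₀ : ℕ → ℕ → ℕ} {Gc : ℕ → PtT F → ℕ → MvPolynomial (Option (Fin m)) ℝ}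
      {H : ℕ → LnT F → ℕ → MvPolynomial (Option (Fin m)) ℝ}, κ ≤ κL →
      WinB F c (k + f) D Dr N M C₀ a Eb ηm ow η σ lv bb κ z A g₀ Gc H →
      ∃ (B : F.Ω → Prop) (GN : PtT F → ℕ → MvPolynomial (Option (Fin m)) ℝ)
        (HN : LnT F → ℕ → MvPolynomial (Option (Fin m)) ℝ), Sub B A ∧ cL * Pe F.p A ≤ Pe F.p B ∧
        LbT F c k f D' w u φ 1 sn B (g₀ fn) (Gc fn) GN HN ∧
        ∀ l, k ≤ l → l ≤ k + f → (∀ y, (GN y l).totalDegree ≤ K) ∧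
          (∀ s, (HN s l).totalDegree ≤ K) ∧
          (∃ (V : Type) (z : PtT F → V) (z' : LnT F → V) (G : V → MvPolynomial (Option (Fin m)) ℝ),
            LbP F ((range l).image c) (c l) K J ⌊bl l * J⌋₊ ⌊(pl l - e₀) * J⌋₊ A z z' G ∧
            (∀ y, GN y l = G (z y)) ∧ ∀ s, HN s l = G (z' (upw ⌊bl l * J⌋₊ ⌊w * J⌋₊ s))) ∧
          ∀ ω, B ω → ∀ x, NBx c (Gc fn (ptr F J ω)) (g₀ fn) ⌊w * J⌋₊ (F.t ω) l x →
            |eval x (GN (ptr F J ω) l) - eval x (Gc fn (ptr F J ω) l)| ≤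
              2 ^ (φ * J) / 2 ^ g₀ fn l) := by
  classical
  have hlab : Bas S (fun J F A => ∀ l < k + f + 1, k ≤ l → ∃ (V : Type) (z : PtT F → V)
      (z' : LnT F → V) (G : V → MvPolynomial (Option (Fin m)) ℝ),
      LbP F ((range l).image c) (c l) K J ⌊bl l * J⌋₊ ⌊(pl l - e₀) * J⌋₊ A z z' G) := by
    refine Bas.all _ fun l hl => ?_
    by_cases hkl : k ≤ l
    · exact Bas.mono 0 ((hbl l hkl (by omega)).2.2 e₀ he₀) fun J _ F A h _ => h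
    · exact ⟨1, one_pos, 0, fun _ _ _ _ _ h => absurd h hkl⟩
  have hcf := Pool.V0C62.cfb_stmt htm hpos K (f + 1) (E := 1) (fun _ => w)
    (fun i => (range (k + i)).image c) (fun i => c (k + i)) one_pos (fun _ _ => ⟨hw0, hw1⟩)
  obtain ⟨C₁, hC₁, hcell⟩ := cell_q D D' (k + f)
  obtain ⟨J₂, hJ₂⟩ := exists_nat_ge ((2 * (C₁ : ℝ) + 8) / (φ / 4))
  refine ⟨1 / 2 ^ (f + 2), 1 / 2 ^ (f + 2), by positivity, by positivity, ?_⟩
  refine Bas.mono J₂ (hlab.and (hcf.and ⟨1, one_pos, 0, fun J _ F A hA => hpos 1 J F A hA⟩)) ?_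
  rintro J hJ F A ⟨h1, h2, hA⟩ κ z₀ g₀ Gc H hκ W
  have hJ0 : (0 : ℝ) ≤ J := Nat.cast_nonneg J
  have hJ1 : 2 * (C₁ : ℝ) + 8 ≤ φ / 4 * J := by
    have h3 : (J₂ : ℝ) ≤ J := by exact_mod_cast hJ
    have h4 := hJ₂.trans h3
    rw [div_le_iff₀ (by positivity)] at h4
    linarith
  have hfw : ⌊w * (J : ℝ)⌋₊ ≤ J := floor_le hw1.le J
  -- the labels
  have h3 : ∀ l, ∃ (V : Type) (z : PtT F → V) (z' : LnT F → V)
      (G : V → MvPolynomial (Option (Fin m)) ℝ), k ≤ l → l ≤ k + f →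
      LbP F ((range l).image c) (c l) K J ⌊bl l * J⌋₊ ⌊(pl l - e₀) * J⌋₊ A z z' G := by
    intro l
    by_cases hl : k ≤ l ∧ l ≤ k + f
    · obtain ⟨V, z, z', G, h4⟩ := h1 l (by omega) hl.1
      exact ⟨V, z, z', G, fun _ _ => h4⟩
    · exact ⟨Unit, fun _ => (), fun _ => (), fun _ => 0, fun a b => absurd ⟨a, b⟩ hl⟩
  choose V z z' G hG using h3
  have hbw : ∀ l, k ≤ l → l ≤ k + f → ⌊bl l * (J : ℝ)⌋₊ ≤ ⌊w * J⌋₊ := fun l a b =>
    Nat.floor_le_floor (mul_le_mul_of_nonneg_right (hbl l a b).1 hJ0)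
  have hGw : ∀ l, k ≤ l → l ≤ k + f → LbP F ((range l).image c) (c l) K J ⌊w * J⌋₊
      ⌊(pl l - e₀) * J⌋₊ A (z l) (fun s => z' l (upw ⌊bl l * J⌋₊ ⌊w * J⌋₊ s)) (G l) :=
    fun l a b => (hG l a b).win (hbw l a b) hfw
  obtain ⟨B₁, b1, b2, b3⟩ := h2 (fun i => ⌊(pl (k + i) - e₀) * J⌋₊) (fun i => V (k + i))
    (fun i => z (k + i)) (fun i s => z' (k + i) (upw ⌊bl (k + i) * J⌋₊ ⌊w * J⌋₊ s))
    (fun i => G (k + i)) fun i hi => hGw (k + i) (by omega) (by omega)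
  -- numbers of the window
  have hηm : ηm ≤ φ / 4 := by
    have h4 := (W.hη fn hfn)
    exact (le_mul_of_one_le_left (h4.1.trans h4.2) W.C1).trans hC
  have hηm0 : 0 ≤ ηm := (W.hη fn hfn).1.trans (W.hη fn hfn).2
  have hev := W.ev fn hfn
  rw [how] at hev
  obtain ⟨g, hg⟩ : ∃ g, g = g₀ fn := ⟨_, rfl⟩
  rw [← hg] at hev ⊢
  have hg1 : ∀ l ≤ k + f, (sn l w - φ / 4) * J ≤ g l ∧ (g l : ℝ) ≤ sn l w * J := by
    intro l hl
    obtain ⟨h4, h5⟩ := W.sds fn hfn l hl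
    rw [hlv l hl, ← hg] at h4 h5
    refine ⟨le_trans (mul_le_mul_of_nonneg_right ?_ hJ0) h4, h5⟩
    linarith [(W.hσ fn hfn).2]
  obtain ⟨h, hh⟩ : ∃ h : ℕ, h = ⌊η fn * J⌋₊ := ⟨_, rfl⟩
  have hh1 : (h : ℝ) ≤ φ / 4 * J := by
    rw [hh]
    refine (Nat.floor_le (mul_nonneg (W.hη fn hfn).1 hJ0)).trans ?_
    exact mul_le_mul_of_nonneg_right ((W.hη fn hfn).2.trans hηm) hJ0
  obtain ⟨Y, hY⟩ : ∃ Y : ℕ, Y = ⌈φ / 2 * J⌉₊ := ⟨_, rfl⟩
  have hY1 : φ / 2 * J ≤ Y := by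
    rw [hY]
    exact Nat.le_ceil _
  have hY2 : (Y : ℝ) ≤ φ / 2 * J + 1 := by
    rw [hY]
    exact (Nat.ceil_lt_add_one (by positivity)).le
  have hpl : ∀ l, k ≤ l → l ≤ k + f →
      (1 : ℝ) / 2 ^ ⌊(pl l - e₀) * J⌋₊ ≤ 2 ^ (Y + 1) / 2 ^ g l := by
    intro l a b
    refine pow_fl (x := (pl l - e₀) * J) ?_ ?_
    · have := Nat.lt_floor_add_one ((pl l - e₀) * (J : ℝ))
      linarith
    · refine (hg1 l b).2.trans ?_
      have h4 : sn l w * J ≤ (pl l + φ / 4) * J :=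
        mul_le_mul_of_nonneg_right (by linarith [(hbl l a b).2.1]) hJ0
      have h5 : e₀ * J ≤ φ / 4 * J := mul_le_mul_of_nonneg_right heφ hJ0
      nlinarith
  have hpl2 : ∀ l, k ≤ l → l ≤ k + f →
      (1 : ℝ) / 2 ^ ⌊(pl l - e₀) * J⌋₊ + 1 / 2 ^ g l ≤ 2 ^ (Y + 2) / 2 ^ g l := by
    intro l a b
    have h4 := hpl l a b
    have h5 : (2 : ℝ) ^ (Y + 1) / 2 ^ g l + 1 / 2 ^ g l ≤ 2 ^ (Y + 2) / 2 ^ g l := by
      rw [← add_div]
      refine div_le_div_of_nonneg_right ?_ (by positivity)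
      have h6 : (1 : ℝ) ≤ 2 ^ (Y + 1) := one_le_pow₀ (by norm_num)
      rw [pow_succ 2 (Y + 1)]
      linarith
    linarith
  -- no relation between the labels and the charts
  have hdepG : ∀ l, k ≤ l → l ≤ k + f → ∀ v, DepC c l (G l v) := fun l a b v x x' e1 e2 =>
    (hG l a b).dep v x x' e1 fun i hi => by
      obtain ⟨j, hj, rfl⟩ := mem_image.1 hi
      exact e2 j (mem_range.1 hj)
  have hrel := relv_seq (hinj.mono fun j hj => by
      rw [Set.mem_Iio] at hj ⊢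
      omega) hev.ball.depG ((hev.relb).mono (le_refl Dr) hκ) (by positivity) (f + 1)
    (fun j => k + j) (fun j y => G (k + j) (z (k + j) y) - Gc fn y (k + j))
    (fun j s => G (k + j) (z' (k + j) (upw ⌊bl (k + j) * J⌋₊ ⌊w * J⌋₊ s)) - H fn s (k + j))
    (fun j => 2 ^ (Y + 2) / 2 ^ g (k + j)) B₁ b1 (by
      refine le_trans (le_of_eq ?_) b2
      have e1 : (2 : ℝ) ^ (f + 2) = 2 ^ (f + 1) * 2 := by rw [pow_succ]
      rw [e1]
      field_simp) (fun j hj => by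
      have a1 : k ≤ k + j := by omega
      have a2 : k + j ≤ k + f := by omega
      refine ⟨a2, fun y => ?_, fun s => ?_, fun y => ?_, fun s => ?_, by positivity,
        fun ω hω => ?_, fun ω hω b hb => ?_⟩
      · exact (totalDegree_sub _ _).trans (max_le (((hG _ a1 a2).deg _).trans (hK.trans hDr))
          ((hev.ball.degG _ _).trans (hD.trans hDr)))
      · exact (totalDegree_sub _ _).trans (max_le (((hG _ a1 a2).deg _).trans (hK.trans hDr))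
          ((hev.ball.degH _ _).trans (hD.trans hDr)))
      · intro x x' e1 e2
        rw [map_sub, map_sub, hdepG _ a1 a2 _ x x' e1 e2, hev.ball.depG y _ x x' e1 e2]
      · intro x x' e1 e2
        rw [map_sub, map_sub, hdepG _ a1 a2 _ x x' e1 e2, hev.ball.depH s _ x x' e1 e2]
      · have e1 := (hGw _ a1 a2).pos ω (b1 ω hω)
        have e2 := hev.ball.pos ω (b1 ω hω) (k + j) (by omega)
        rw [← (hGw _ a1 a2).cls ω (b1 ω hω)] at e1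
        rw [map_sub]
        refine le_trans ?_ (hpl2 _ a1 a2)
        rw [abs_le] at e1 e2 ⊢
        constructor <;> linarith [e1.1, e1.2, e2.1, e2.2]
      · have e1 := (hGw _ a1 a2).cls ω (b1 ω hω)
        have e2 := hev.cls ω (b1 ω hω) (k + j) (by omega)
        rw [← e1, ← e2, sub_self, abs_zero]
        positivity)
  obtain ⟨B₂, d1, d2, d3⟩ := hrel
  have hBA : Sub B₂ A := fun ω hω => b1 ω (d1 ω hω)
  have hnear : ∀ l, k ≤ l → l ≤ k + f → ∀ ω, B₂ ω → ∀ x,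
      NBx c (Gc fn (ptr F J ω)) g ⌊w * J⌋₊ (F.t ω) l x →
      |eval x (G l (z l (ptr F J ω))) - eval x (Gc fn (ptr F J ω) l)| ≤
        2 ^ (h + Y + 2) / 2 ^ g l := by
    intro l a b ω hω x hx
    obtain ⟨j, rfl⟩ : ∃ j, l = k + j := ⟨l - k, by omega⟩
    have e1 := d3 j (by omega) ω hω x hx
    rw [map_sub, ← hh] at e1
    refine e1.trans (le_of_eq ?_)
    rw [← mul_div_assoc, ← pow_add]
    congr 2
  have hXφ : ((h + Y + 2 : ℕ) : ℝ) ≤ φ * J := by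
    push_cast
    linarith
  have hXp : (2 : ℝ) ^ (h + Y + 2) ≤ 2 ^ (φ * J) := by
    rw [← Real.rpow_natCast]
    exact Real.rpow_le_rpow_of_exponent_le (by norm_num) hXφ
  have hnear' : ∀ l, k ≤ l → l ≤ k + f → ∀ ω, B₂ ω → ∀ x,
      NBx c (Gc fn (ptr F J ω)) g ⌊w * J⌋₊ (F.t ω) l x →
      |eval x (G l (z l (ptr F J ω))) - eval x (Gc fn (ptr F J ω) l)| ≤
        2 ^ (φ * J) / 2 ^ g l := fun l a b ω hω x hx =>
    (hnear l a b ω hω x hx).trans (div_le_div_of_nonneg_right hXp (by positivity))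
  refine ⟨B₂, fun y l => G l (z l y), fun s l => G l (z' l (upw ⌊bl l * J⌋₊ ⌊w * J⌋₊ s)), hBA, ?_,
    ⟨fun l a b => ⟨fun y => ?_, fun s => ?_⟩, fun l a b => ⟨fun y => hdepG l a b _,
      fun s => hdepG l a b _⟩, fun l a b ω hω => ?_, fun l a b => ?_, fun l a b ω hω => ?_,
      ⟨fun _ _ => 0, fun l a b ω hω x hx => ?_⟩, fun l a b ω ν hω hν hpt => ?_⟩,
    fun l a b => ⟨fun y => (hG l a b).deg _, fun s => (hG l a b).deg _,
      ⟨V l, z l, z' l, G l, hG l a b, fun y => rfl, fun s => rfl⟩, hnear' l a b⟩⟩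
  · have e1 : Pe F.p A / 2 / 2 ^ (f + 1) ≤ Pe F.p B₂ :=
      (div_le_div_of_nonneg_right b2 (by positivity)).trans d2
    refine le_trans (le_of_eq ?_) e1
    rw [pow_succ 2 (f + 1), div_div, one_div, mul_comm, mul_comm (2 : ℝ)]
    rfl
  · exact ((hG l a b).deg _).trans hK
  · exact ((hG l a b).deg _).trans hK
  · have e1 := (hGw l a b).cls ω (hBA ω hω)
    rw [e1]
  · obtain ⟨j, rfl⟩ : ∃ j, l = k + j := ⟨l - k, by omega⟩
    intro ω hω i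
    exact b3 j (by omega) ω (d1 ω hω) i
  · have e1 := (hGw l a b).pos ω (hBA ω hω)
    rw [← (hGw l a b).cls ω (hBA ω hω)] at e1
    refine e1.trans (Pool.PB.inv_mono (Nat.floor_le_floor (mul_le_mul_of_nonneg_right ?_ hJ0)))
    linarith [(hbl l a b).2.1]
  · rw [add_zero]
    exact hnear' l a b ω hω x hx
  · obtain ⟨X, hX⟩ : ∃ X, X = h + Y + 2 := ⟨_, rfl⟩
    rw [← hX] at hnear hXφ
    obtain ⟨v, hv⟩ : ∃ v, v = ⌈(3 * u + φ / 4) * J⌉₊ + X + C₁ + 1 := ⟨_, rfl⟩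
    have hv1 : (3 * u + φ / 4) * J ≤ ⌈(3 * u + φ / 4) * (J : ℝ)⌉₊ := Nat.le_ceil _
    have hv2 : (⌈(3 * u + φ / 4) * (J : ℝ)⌉₊ : ℝ) ≤ (3 * u + φ / 4) * J + 1 :=
      (Nat.ceil_lt_add_one (by positivity)).le
    have hvr : (v : ℝ) = ⌈(3 * u + φ / 4) * (J : ℝ)⌉₊ + X + C₁ + 1 := by
      rw [hv]
      push_cast
      ring
    have hXr : (X : ℝ) ≤ 3 / 4 * φ * J + 3 := by
      rw [hX]
      push_cast
      linarith
    have hEr : ((⌊(Eb + σ fn + η fn) * J⌋₊ : ℕ) : ℝ) ≤ (Eb + φ / 2) * J := by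
      refine (Nat.floor_le (mul_nonneg (by linarith [W.Eb0, (W.hσ fn hfn).1, (W.hη fn hfn).1])
        hJ0)).trans (mul_le_mul_of_nonneg_right ?_ hJ0)
      linarith [(W.hσ fn hfn).2, (W.hη fn hfn).2]
    have hOK := hev.ball.sub hBA
    have e1 := hcell hinj hOK (v := v) (l := l) (M := 2 ^ X) (fun i hi => by
      have h4 : (((⌊(Eb + σ fn + η fn) * J⌋₊ + g i + v + C₁ : ℕ)) : ℝ) ≤ (J : ℕ) := by
        push_cast
        rw [hvr]
        have h5 := (hg1 i hi).2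
        have h6 := mul_le_mul_of_nonneg_right (hEb i hi) hJ0
        nlinarith
      exact_mod_cast h4) b (by positivity) (fun y => G l (z l y))
      (fun y => ((hG l a b).deg _).trans hK) (fun y => hdepG l a b _)
      (fun ω' hω' x hx => hnear l a b ω' hω' x hx) ω ν hω hν hpt
    refine e1.trans ?_
    have h4 : (2 : ℝ) ^ C₁ * (1 + 2 ^ X) ≤ 2 ^ (C₁ + X + 1) := by
      have h5 : (1 : ℝ) ≤ 2 ^ X := one_le_pow₀ (by norm_num)
      rw [pow_succ, pow_add]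
      nlinarith [(by positivity : (0 : ℝ) < 2 ^ C₁)]
    refine (div_le_div_of_nonneg_right h4 (by positivity)).trans ?_
    rw [div_le_div_iff₀ (by positivity) (by positivity), one_mul, ← pow_add]
    refine pow_le_pow_right₀ (by norm_num) ?_
    have h5 : ⌊(sn l w + 3 * u) * (J : ℝ)⌋₊ ≤ g l + ⌈(3 * u + φ / 4) * (J : ℝ)⌉₊ := by
      refine Nat.floor_le_of_le ?_
      push_cast
      have h6 := (hg1 l b).1
      nlinarith
    omega

/-- **(LBT-AFF)** The labels of the targets near a window `w` of a box, from affine labels of the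
targets at windows `bl l ≤ w`. -/
theorem lbt_aff {m : ℕ} {S : PCl m} {c : ℕ → Fin m} {k f D D' Dr N M nb n ks : ℕ}
    {sn sp : ℕ → ℝ → ℝ} {Gs : Set ℝ} {s hr b o w u Λ φ' e : ℝ} {lam : ℝ → ℝ}
    (Bx : Pool.T4C72.BoxT S c k f D sn sp Gs s hr b o w u Λ φ' e lam)
    {C₀ a Eb ηm φ e₀ : ℝ} {ow η σ : ℕ → ℝ} {lv bb : ℕ → ℕ → ℝ} {fb fn : ℕ → ℕ}
    (Wn : Pool.T4C72.WnT k f sn Gs s b w u Λ φ' N C₀ Eb ηm ow lv fb fn nb n ks) {bl pl : ℕ → ℝ}
    (hφ : 0 < φ) (hφ' : 4 * φ' ≤ φ) (hφu : 2 * φ ≤ u) (hΛ : 4 ≤ Λ) (h1 : 1 ≤ D') (hD : D ≤ D')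
    (hDr : D' ≤ Dr) (he₀ : 0 < e₀) (heφ : e₀ ≤ φ / 4)
    (hbl : ∀ l, k ≤ l → l ≤ k + f → bl l ≤ w ∧ sn l w - φ / 4 ≤ pl l ∧
      AffL S ((range l).image c) (c l) (bl l) (pl l)) :
    ∃ cL κL : ℝ, 0 < cL ∧ 0 < κL ∧ Bas S (fun J F A => ∀ {κ : ℝ} {z : ℕ → ℕ → ℕ}
      {g₀ : ℕ → ℕ → ℕ} {Gc : ℕ → PtT F → ℕ → MvPolynomial (Option (Fin m)) ℝ}
      {H : ℕ → LnT F → ℕ → MvPolynomial (Option (Fin m)) ℝ}, κ ≤ κL →
      WinB F c (k + f) D Dr N M C₀ a Eb ηm ow η σ lv bb κ z A g₀ Gc H →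
      ∃ (B : F.Ω → Prop) (GN : PtT F → ℕ → MvPolynomial (Option (Fin m)) ℝ)
        (HN : LnT F → ℕ → MvPolynomial (Option (Fin m)) ℝ), Sub B A ∧ cL * Pe F.p A ≤ Pe F.p B ∧
        LbT F c k f D' w u φ 1 sn B (g₀ (fn 0)) (Gc (fn 0)) GN HN ∧
        ∀ l, k ≤ l → l ≤ k + f → (∀ y, (GN y l).totalDegree ≤ 1) ∧
          (∀ s, (HN s l).totalDegree ≤ 1) ∧
          (∃ (V : Type) (z : PtT F → V) (z' : LnT F → V) (G : V → MvPolynomial (Option (Fin m)) ℝ),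
            LbP F ((range l).image c) (c l) 1 J ⌊bl l * J⌋₊ ⌊(pl l - e₀) * J⌋₊ A z z' G ∧
            (∀ y, GN y l = G (z y)) ∧ ∀ s, HN s l = G (z' (upw ⌊bl l * J⌋₊ ⌊w * J⌋₊ s))) ∧
          ∀ ω, B ω → ∀ x, NBx c (Gc (fn 0) (ptr F J ω)) (g₀ (fn 0)) ⌊w * J⌋₊ (F.t ω) l x →
            |eval x (GN (ptr F J ω) l) - eval x (Gc (fn 0) (ptr F J ω) l)| ≤
              2 ^ (φ * J) / 2 ^ g₀ (fn 0) l) := by
  obtain ⟨Ct, htm⟩ := Bx.lad.tm
  have hu := Bx.u0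
  have hLu : 4 * u ≤ Λ * u := mul_le_mul_of_nonneg_right hΛ hu.le
  have h2 := Bx.bw
  have h3 := Bx.wo
  have h4 := Bx.o1
  have h5 := Bx.b0
  have h6 := Wn.fnN 0 (Nat.zero_le _)
  exact lbt_g htm Bx.lad.pos (K := 1) Bx.lad.inj hD h1 hDr h6 Wn.ow0 (fun l hl => by
    rw [Wn.lv _ h6 l hl, Wn.ow0]) (by linarith) (by linarith) hφ hu.le (by linarith [Wn.C0])
    (fun l hl => by linarith [Wn.Eb l hl]) he₀ heφ hbl

end Pool.T462
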