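import Pool.Agent.H83.OWN.AddR
import Pool.Agent.H68.OWN.Jr

/-!
# The numbers of a family of quantities at finitely many windows

`quant_addD`: quantitative differentiation with a divisible start. `GFam`: quantities `Q j`, `j ≤ N`, at
the windows `x 0 ≤ … ≤ x N`: `Q j` has at most `C (x j - x i) + δ` bits given the record of `x i`,
`Q j` is a function of `Q k`, `j ≤ k`. `gnum_ext`: the numbers in a subclass. `gnum_sup`: they are
superadditive. `num_g`: on a sub-box they are additive up to a small multiple of its step.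
-/

set_option autoImplicit false

namespace Pool.T462

open Finset Real
open Pool.Agent.H49.Ent Pool.Agent.H32.Dense Pool.STK Pool.KA Pool.KSAT Pool.K2S Pool.PB Pool.S6C
open Pool.GEN Pool.RCD Pool.LA91 Pool.OWN83
open Pool.OWN68 (cl2_vg)

/-! ### Quantitative differentiation -/

/-- The sum over a chain of consecutive intervals is at most the value of the whole interval. -/
theorem sup_sum {F : ℕ → ℕ → ℝ} {N : ℕ} {δ : ℝ} (h0 : ∀ i j, i ≤ j → j ≤ N → 0 ≤ F i j)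
    (sup : ∀ i j k, i ≤ j → j ≤ k → k ≤ N → F i j + F j k ≤ F i k + δ) (a u i : ℕ) :
    ∀ j : ℕ, i ≤ j → a + j * u ≤ N →
      ∑ l ∈ Ico i j, F (a + l * u) (a + (l + 1) * u) ≤
        F (a + i * u) (a + j * u) + ((j : ℝ) - i) * δ := by
  intro j hj
  induction j, hj using Nat.le_induction with
  | base =>
    intro h
    rw [Ico_self, sum_empty, sub_self, zero_mul, add_zero]
    exact h0 _ _ le_rfl h
  | succ j hj ih =>
    intro h
    rw [sum_Ico_succ_top hj]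
    have e1 : a + j * u ≤ a + (j + 1) * u := by nlinarith
    have e2 : a + i * u ≤ a + j * u := by
      have := Nat.mul_le_mul_right u hj
      omega
    have h1 := ih (e1.trans h)
    have h2 := sup (a + i * u) (a + j * u) (a + (j + 1) * u) e2 e1 h
    push_cast
    linarith

/-- A bad interval has a child of smaller density. -/
theorem bad_child {F : ℕ → ℕ → ℝ} {N : ℕ} {δ : ℝ} (h0 : ∀ i j, i ≤ j → j ≤ N → 0 ≤ F i j)
    (sup : ∀ i j k, i ≤ j → j ≤ k → k ≤ N → F i j + F j k ≤ F i k + δ) {L a u : ℕ} (hL : 1 ≤ L)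
    (hN : a + L * u ≤ N) {D : ℝ} {i j k : ℕ} (hij : i ≤ j) (hjk : j ≤ k) (hk : k ≤ L)
    (hbad : F (a + i * u) (a + j * u) + F (a + j * u) (a + k * u) + (D + (L + 2) * δ) <
      F (a + i * u) (a + k * u)) :
    ∃ l < L, (L : ℝ) * F (a + l * u) (a + (l + 1) * u) < F a (a + L * u) - D := by
  have hm : ∀ {x y : ℕ}, x ≤ y → x * u ≤ y * u := fun h => Nat.mul_le_mul_right u h
  have b1 : a + k * u ≤ N := by have := hm hk; omega
  have b2 : a + j * u ≤ N := by have := hm hjk; omega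
  have b3 : a + i * u ≤ N := by have := hm hij; omega
  have s1 := sup_sum h0 sup a u 0 i (Nat.zero_le _) b3
  have s2 := sup_sum h0 sup a u i j hij b2
  have s3 := sup_sum h0 sup a u j k hjk b1
  have s4 := sup_sum h0 sup a u k L hk hN
  have t1 := sup (a + 0 * u) (a + i * u) (a + k * u) (by omega)
    (by have := hm (hij.trans hjk); omega) b1
  have t2 := sup (a + 0 * u) (a + k * u) (a + L * u) (by omega) (by have := hm hk; omega) hN
  have e1 := sum_Ico_consecutive (fun l => F (a + l * u) (a + (l + 1) * u)) (Nat.zero_le i)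
    (hij.trans (hjk.trans hk))
  have e2 := sum_Ico_consecutive (fun l => F (a + l * u) (a + (l + 1) * u)) hij (hjk.trans hk)
  have e3 := sum_Ico_consecutive (fun l => F (a + l * u) (a + (l + 1) * u)) hjk hk
  have hs : ∑ l ∈ Ico 0 L, F (a + l * u) (a + (l + 1) * u) < F a (a + L * u) - D := by
    have e0 : a + 0 * u = a := by omega
    rw [e0] at s1 t1 t2
    push_cast at s1 s2 s3 s4
    linarith
  by_contra hcon
  push Not at hcon
  have h1 : ∑ _l ∈ Ico 0 L, (F a (a + L * u) - D) / L ≤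
      ∑ l ∈ Ico 0 L, F (a + l * u) (a + (l + 1) * u) := by
    refine sum_le_sum fun l hl => ?_
    rw [mem_Ico] at hl
    have h2 := hcon l hl.2
    have hL0 : (0 : ℝ) < L := by exact_mod_cast hL
    rw [div_le_iff₀ hL0]
    linarith
  rw [sum_const, Nat.card_Ico, Nat.sub_zero, nsmul_eq_mul] at h1
  have hL0 : (0 : ℝ) < L := by exact_mod_cast hL
  have h3 : (L : ℝ) * ((F a (a + L * u) - D) / L) = F a (a + L * u) - D := by field_simp
  linarith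

/-- **Quantitative differentiation**, superadditive up to `δ`; the start of the interval is a multiple
of its length. -/
theorem quant_addD {L n : ℕ} (hL : 1 ≤ L) (hn : 1 ≤ n) {F : ℕ → ℕ → ℝ} {C δ : ℝ}
    (h0 : ∀ i j, i ≤ j → j ≤ L ^ n → 0 ≤ F i j) (hC : F 0 (L ^ n) ≤ C * (L : ℝ) ^ n)
    (sup : ∀ i j k, i ≤ j → j ≤ k → k ≤ L ^ n → F i j + F j k ≤ F i k + δ) :
    ∃ m < n, ∃ a : ℕ, L ^ (m + 1) ∣ a ∧ a + L * L ^ m ≤ L ^ n ∧ ∀ i j k : ℕ, i ≤ j → j ≤ k →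
      k ≤ L → F (a + i * L ^ m) (a + k * L ^ m) ≤
        F (a + i * L ^ m) (a + j * L ^ m) + F (a + j * L ^ m) (a + k * L ^ m) +
        (C / n * (L : ℝ) ^ (m + 1) + (L + 2) * δ) := by
  have hL0 : (0 : ℝ) < L := by exact_mod_cast hL
  have hn0 : (0 : ℝ) < n := by exact_mod_cast hn
  by_contra hcon
  push Not at hcon
  have key : ∀ t : ℕ, t ≤ n → ∃ a : ℕ, L ^ (n - t) ∣ a ∧ a + L ^ (n - t) ≤ L ^ n ∧
      F a (a + L ^ (n - t)) ≤ (C - C / n * t) * (L : ℝ) ^ (n - t) ∧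
      (1 ≤ t → F a (a + L ^ (n - t)) < (C - C / n * t) * (L : ℝ) ^ (n - t)) := by
    intro t
    induction t with
    | zero =>
      intro _
      refine ⟨0, dvd_zero _, by simp, ?_, fun h => absurd h (by omega)⟩
      simpa using hC
    | succ t ih =>
      intro ht
      obtain ⟨a, hd, ha, hF, -⟩ := ih (by omega)
      have e1 : n - t = n - (t + 1) + 1 := by omega
      have e2 : L * L ^ (n - (t + 1)) = L ^ (n - t) := by rw [e1, pow_succ]; ring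
      obtain ⟨i, j, k, hij, hjk, hk, hbad⟩ := hcon (n - (t + 1)) (by omega) a
        (by rw [← e1]; exact hd) (by rw [e2]; exact ha)
      obtain ⟨l, hl, hlF⟩ := bad_child h0 sup hL (a := a) (u := L ^ (n - (t + 1)))
        (by rw [e2]; exact ha) hij hjk hk hbad
      rw [e2] at hlF
      have e3 : a + (l + 1) * L ^ (n - (t + 1)) = a + l * L ^ (n - (t + 1)) + L ^ (n - (t + 1)) := by
        ring
      rw [e3] at hlF
      have hst : F (a + l * L ^ (n - (t + 1)))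
          (a + l * L ^ (n - (t + 1)) + L ^ (n - (t + 1))) <
          (C - C / n * ((t + 1 : ℕ) : ℝ)) * (L : ℝ) ^ (n - (t + 1)) := by
        have e4 : (L : ℝ) ^ (n - t) = L * (L : ℝ) ^ (n - (t + 1)) := by rw [e1, pow_succ]; ring
        have e5 : (L : ℝ) ^ (n - (t + 1) + 1) = L * (L : ℝ) ^ (n - (t + 1)) := by
          rw [pow_succ]; ring
        rw [e4] at hF
        rw [e5] at hlF
        push_cast
        have h5 : (L : ℝ) * F (a + l * L ^ (n - (t + 1)))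
            (a + l * L ^ (n - (t + 1)) + L ^ (n - (t + 1))) <
            L * ((C - C / n * (t + 1)) * (L : ℝ) ^ (n - (t + 1))) := by
          have : L * ((C - C / n * (t + 1)) * (L : ℝ) ^ (n - (t + 1))) =
            (C - C / n * t) * (L * (L : ℝ) ^ (n - (t + 1))) -
              C / n * (L * (L : ℝ) ^ (n - (t + 1))) := by ring
          linarith
        exact lt_of_mul_lt_mul_left h5 hL0.le
      refine ⟨a + l * L ^ (n - (t + 1)), ?_, ?_, hst.le, fun _ => hst⟩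
      · refine dvd_add ((pow_dvd_pow L (by omega)).trans hd) (dvd_mul_left _ _)
      · have h6 : (l + 1) * L ^ (n - (t + 1)) ≤ L * L ^ (n - (t + 1)) :=
          Nat.mul_le_mul_right _ hl
        rw [e2] at h6
        have h7 : (l + 1) * L ^ (n - (t + 1)) = l * L ^ (n - (t + 1)) + L ^ (n - (t + 1)) := by ring
        omega
  obtain ⟨a, -, ha, -, h1⟩ := key n le_rfl
  have h2 := h1 hn
  have h3 : C - C / n * (n : ℝ) = 0 := by field_simp; ring
  rw [h3, zero_mul] at h2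
  exact absurd (h0 _ _ (Nat.le_add_right _ _) ha) (not_le.2 h2)

/-! ### The numbers -/

section

variable {m : ℕ} {U : Type} {α β γ : ∀ J : ℕ, Fam m J → Type}
  {f : ∀ (J : ℕ) (F : Fam m J), F.Ω → α J F} {g : ∀ (J : ℕ) (F : Fam m J), F.Ω → β J F}
  {y : ∀ (J : ℕ) (F : Fam m J), F.Ω → γ J F} {S : PCl m}

/-- **At most `δ` bits** given the record and `y`. -/
def FewN (S : PCl m) (f : ∀ (J : ℕ) (F : Fam m J), F.Ω → α J F)
    (g : ∀ (J : ℕ) (F : Fam m J), F.Ω → β J F) (y : ∀ (J : ℕ) (F : Fam m J), F.Ω → γ J F)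
    (Q : Qt m U) (δ : ℝ) : Prop :=
  ∀ h : ℝ, 0 < h → ∃ e₀ : ℝ, 0 < e₀ ∧ ∀ K : ℕ, Bas S (fun J F A => ∀ u, Q.P K e₀ J F A u →
    ∃ (V : Type) (z : F.Ω → V), Cl2 (f J F) (g J F) A z ∧
      CH (Pool.Agent.H49.Ent.cond F.p A True) u (fun ω => (z ω, y J F ω)) ≤ (δ + h) * J)

theorem FewN.sub {S' : PCl m} (hs : ∀ (τ : ℝ) (J : ℕ) (F : Fam m J) (A : F.Ω → Prop),
    S'.St τ J F A → S.St τ J F A) {Q : Qt m U} {δ : ℝ} (h : FewN S f g y Q δ) :
    FewN S' f g y Q δ := by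
  intro c hc
  obtain ⟨e, he, h1⟩ := h c hc
  exact ⟨e, he, fun K => (h1 K).sub hs⟩

/-- Given the record. -/
theorem FewN.mx
    (hpos : ∀ (τ : ℝ) (J : ℕ) (F : Fam m J) (A : F.Ω → Prop), S.St τ J F A → 0 < Pe F.p A)
    {Q : Qt m U} {δ : ℝ} (hF : FewN S f g y Q δ) (h : ℝ) (hh : 0 < h) :
    ∃ e₀ : ℝ, 0 < e₀ ∧ ∀ K : ℕ, Bas S (fun J F A => ∀ (V : Type) (z : F.Ω → V),
      Mx f g (h / 2) F A z → ∀ u, Q.P K e₀ J F A u →
      CH (Pool.Agent.H49.Ent.cond F.p A True) u (fun ω => (z ω, y J F ω)) ≤ (δ + h) * J) := by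
  obtain ⟨e₀, he₀, h1⟩ := hF (h / 2) (half_pos hh)
  refine ⟨e₀, he₀, fun K => Bas.mono 0 ((h1 K).and (pos_bas hpos)) ?_⟩
  rintro J - F A ⟨h2, hA⟩ V z ⟨hz, hmax⟩ u hu
  have hcl := isLaw_cond F.isLaw hA
  obtain ⟨V₁, z₁, hz₁, h3⟩ := h2 u hu
  have h4 := hmax _ _ hz₁
  have h5 := CH_le_add hcl.nonneg u z₁ (fun ω => (z ω, y J F ω))
  have h6 : CH (Pool.Agent.H49.Ent.cond F.p A True) z₁ (fun ω => (z ω, y J F ω)) ≤
      CH (Pool.Agent.H49.Ent.cond F.p A True) z₁ z :=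
    CH_mono_cond hcl.nonneg fun _ _ _ _ hh => (Prod.ext_iff.mp hh).1
  have h7 : CH (Pool.Agent.H49.Ent.cond F.p A True) u (fun ω => (z₁ ω, (z ω, y J F ω))) ≤
      CH (Pool.Agent.H49.Ent.cond F.p A True) u (fun ω => (z₁ ω, y J F ω)) := by
    refine CH_mono_cond hcl.nonneg fun ω ω' _ _ hh => ?_
    simp only [Prod.mk.injEq] at hh ⊢
    exact ⟨hh.1, hh.2.2⟩
  have e1 : (δ + h) * (J : ℝ) = (δ + h / 2) * J + h / 2 * J := by ring
  linarith

/-- **The family of quantities** at the windows `x 0 ≤ … ≤ x N`. -/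
structure GFam (S : PCl m) (f : ∀ (J : ℕ) (F : Fam m J), F.Ω → α J F)
    (y : ∀ (J : ℕ) (F : Fam m J), F.Ω → γ J F) (N : ℕ) (x : ℕ → ℝ) (Q : ℕ → Qt m U)
    (C δ : ℝ) : Prop where
  mono : ∀ i j, i ≤ j → j ≤ N → x i ≤ x j
  one : x N ≤ 1
  exs : ∀ j ≤ N, Exs S (Q j)
  few : ∀ i j, i ≤ j → j ≤ N → Few S f (vg (x i)) y (Q j) (Q j)
  crs : ∀ i j k, i ≤ j → j ≤ k → k ≤ N → Few S f (vg (x i)) y (Q k) (Q j)
  cap : ∀ i j, i ≤ j → j ≤ N → FewN S f (vg (x i)) y (Q j) (C * (x j - x i) + δ)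

/-- **The numbers of the family.** -/
structure GNum (S : PCl m) (f : ∀ (J : ℕ) (F : Fam m J), F.Ω → α J F)
    (y : ∀ (J : ℕ) (F : Fam m J), F.Ω → γ J F) (N : ℕ) (x : ℕ → ℝ) (Q : ℕ → Qt m U)
    (θ : ℕ → ℕ → ℝ) : Prop where
  nn : ∀ i j, i ≤ j → j ≤ N → NN S f (vg (x i)) y (Q j) (θ i j)
  rn : ∀ i ≤ N, ∃ η, RNum S f (vg (x i)) η

variable {N : ℕ} {x : ℕ → ℝ} {Q : ℕ → Qt m U} {C δ : ℝ} {θ : ℕ → ℕ → ℝ}

theorem GFam.sub {S' : PCl m} (hs : ∀ (τ : ℝ) (J : ℕ) (F : Fam m J) (A : F.Ω → Prop),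
    S'.St τ J F A → S.St τ J F A) (h : GFam S f y N x Q C δ) : GFam S' f y N x Q C δ where
  mono := h.mono
  one := h.one
  exs := fun j hj => (h.exs j hj).sub hs
  few := fun i j a b => (h.few i j a b).sub hs
  crs := fun i j k a b c => (h.crs i j k a b c).sub hs
  cap := fun i j a b => (h.cap i j a b).sub hs

theorem GNum.sub {S' : PCl m} (hs : ∀ (τ : ℝ) (J : ℕ) (F : Fam m J) (A : F.Ω → Prop),
    S'.St τ J F A → S.St τ J F A) (h : GNum S f y N x Q θ) : GNum S' f y N x Q θ where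
  nn := fun i j a b => (h.nn i j a b).sub hs
  rn := fun i hi => by
    obtain ⟨η, hη⟩ := h.rn i hi
    exact ⟨η, hη.sub hs⟩

/-- **The numbers exist** in a subclass. -/
theorem gnum_ext (hS : S.Ne)
    (hpos : ∀ (τ : ℝ) (J : ℕ) (F : Fam m J) (A : F.Ω → Prop), S.St τ J F A → 0 < Pe F.p A)
    {M : ℝ} (hM : Bas S (fun J F A => (cnt F.p (f J F) A : ℝ) ≤ Real.exp (M * J)))
    (h : GFam S f y N x Q C δ) :
    ∃ S' : PCl m, S'.Ne ∧
      (∀ (τ : ℝ) (J : ℕ) (F : Fam m J) (A : F.Ω → Prop), S'.St τ J F A → S.St τ J F A) ∧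
      ∃ θ : ℕ → ℕ → ℝ, GNum S' f y N x Q θ := by
  classical
  obtain ⟨S₁, h1, h2, h3⟩ := nn_ext hS hpos (fun _ => U) (fun _ => α) (fun _ J F => LnT F)
    (fun _ => γ) (fun _ => f) (fun n => vg (x (min n.unpair.1 (min n.unpair.2 N)))) (fun _ => y)
    (fun n => Q (min n.unpair.2 N)) (fun n => h.exs _ (min_le_right _ _))
    (fun n => h.few _ _ (min_le_right _ _) (min_le_right _ _))
  have hpos₁ : ∀ (τ : ℝ) (J : ℕ) (F : Fam m J) (A : F.Ω → Prop), S₁.St τ J F A → 0 < Pe F.p A :=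
    fun τ J F A h => hpos τ J F A (h2 τ J F A h)
  obtain ⟨S₂, g1, g2, g3⟩ := ext_rec h1 hpos₁ (fun _ => α) (fun _ _ F => LnT F) (fun _ => f)
    (fun i => vg (x i)) (fun _ => M) (fun _ => hM.sub h2)
  choose θ hθ using h3
  refine ⟨S₂, g1, fun τ J F A h => h2 τ J F A (g2 τ J F A h), fun i j => θ (Nat.pair i j),
    ⟨fun i j a b => ?_, fun i _ => g3 i⟩⟩
  have h4 := (hθ (Nat.pair i j)).sub g2
  rw [Nat.unpair_pair] at h4
  dsimp only at h4
  rw [min_eq_left b, min_eq_left a] at h4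
  exact h4

/-- The two orders. -/
theorem ch_swap {Ω A B W : Type} [Fintype Ω] {p : Ω → ℝ} (hp : ∀ ω, 0 ≤ p ω) (X : Ω → A)
    (Y : Ω → B) (Z : Ω → W) : CH p Y Z + CH p X (fun ω => (Y ω, Z ω)) =
      CH p X Z + CH p Y (fun ω => (X ω, Z ω)) := by
  rw [← CH_chain hp, ← CH_chain hp]
  refine CH_congr hp ?_ ?_ (fun _ _ _ _ h => h) (fun _ _ _ _ h => h) <;>
  · intro ω ω' _ _ h
    simp only [Prod.mk.injEq] at h ⊢
    tauto

/-- **The bounds of the numbers.** -/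
theorem gnum_le (hS : S.Ne)
    (hpos : ∀ (τ : ℝ) (J : ℕ) (F : Fam m J) (A : F.Ω → Prop), S.St τ J F A → 0 < Pe F.p A)
    (h : GFam S f y N x Q C δ) (n : GNum S f y N x Q θ) {i j : ℕ} (hij : i ≤ j) (hj : j ≤ N) :
    0 ≤ θ i j ∧ θ i j ≤ C * (x j - x i) + δ := by
  obtain ⟨η, hη⟩ := n.rn i (hij.trans hj)
  have key : ∀ ε : ℝ, 0 < ε → Bas S (fun J _ _ => 0 * J ≤ θ i j * J + ε * J ∧
      θ i j * J ≤ (C * (x j - x i) + δ) * J + ε * J) := by
    intro ε hε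
    obtain ⟨k, hk, e₀, he₀, H⟩ := n.nn i j hij hj (ε / 2) (half_pos hε)
    obtain ⟨e₁, he₁, H₁⟩ := (h.cap i j hij hj).mx hpos (ε / 2) (half_pos hε)
    obtain ⟨K, M, hx⟩ := h.exs j hj (min e₀ e₁) (lt_min he₀ he₁)
    refine Bas.mono 0 (((H K).and (H₁ K)).and ((hx.and (mx_ex hpos hη (min k (ε / 2 / 2))
      (lt_min hk (by positivity)))).and (pos_bas hpos))) ?_
    rintro J - F A ⟨⟨h1, h2⟩, ⟨⟨u, hu, -⟩, V, z, hz⟩, hA⟩
    have hJ0 : (0 : ℝ) ≤ J := Nat.cast_nonneg J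
    have hz' : ∀ a, min k (ε / 2 / 2) ≤ a → Mx f (vg (x i)) a F A z := fun a ha =>
      ⟨hz.1, fun V' z' hz' => (hz.2 V' z' hz').trans (mul_le_mul_of_nonneg_right ha hJ0)⟩
    have a1 := abs_le.1 (h1 V z (hz' _ (min_le_left _ _)) u
      ((Q j).mono le_rfl (min_le_left _ _) hu))
    have a2 := h2 V z (hz' _ (min_le_right _ _)) u ((Q j).mono le_rfl (min_le_right _ _) hu)
    have a3 := CH_nonneg (isLaw_cond F.isLaw hA).nonneg u (fun ω => (z ω, y J F ω))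
    have a4 : 0 ≤ ε * (J : ℝ) := by positivity
    refine ⟨by linarith [a1.2], by linarith [a1.1]⟩
  exact ⟨le_of_bas hS fun ε hε => Bas.mono 0 (key ε hε) fun _ _ _ _ h => h.1,
    le_of_bas hS fun ε hε => Bas.mono 0 (key ε hε) fun _ _ _ _ h => h.2⟩

/-- **The numbers are superadditive** up to `δ`. -/
theorem gnum_sup (hS : S.Ne)
    (hpos : ∀ (τ : ℝ) (J : ℕ) (F : Fam m J) (A : F.Ω → Prop), S.St τ J F A → 0 < Pe F.p A)
    (h : GFam S f y N x Q C δ) (n : GNum S f y N x Q θ) {i j k : ℕ} (hij : i ≤ j) (hjk : j ≤ k)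
    (hk : k ≤ N) : θ i j + θ j k ≤ θ i k + δ := by
  obtain ⟨η, hη⟩ := n.rn i (hij.trans (hjk.trans hk))
  obtain ⟨η', hη'⟩ := n.rn j (hjk.trans hk)
  refine le_of_bas hS fun ε hε => ?_
  obtain ⟨κ, hκ⟩ : ∃ κ : ℝ, κ = ε / 8 := ⟨_, rfl⟩
  have hκ0 : 0 < κ := by rw [hκ]; positivity
  obtain ⟨k1, hk1, e1, he1, H1⟩ := n.nn i k (hij.trans hjk) hk κ hκ0
  obtain ⟨k2, hk2, e2, he2, H2⟩ := n.nn i j hij (hjk.trans hk) κ hκ0
  obtain ⟨e3, he3, H3⟩ := (h.crs i j k hij hjk hk).mx hpos κ hκ0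
  obtain ⟨e4, he4, H4⟩ := (h.cap j j le_rfl (hjk.trans hk)).mx hpos κ hκ0
  obtain ⟨e5, he5, H5⟩ := ev_low hpos hη' (n.nn j k hjk hk) κ hκ0
  obtain ⟨e₀, he₀, l1, l2, l3, l4, l5⟩ : ∃ e₀ : ℝ, 0 < e₀ ∧ e₀ ≤ e1 ∧ e₀ ≤ e2 ∧ e₀ ≤ e3 ∧
      e₀ ≤ e4 ∧ e₀ ≤ e5 :=
    ⟨min e1 (min e2 (min e3 (min e4 e5))), by positivity, min_le_left _ _,
      (min_le_right _ _).trans (min_le_left _ _),
      (min_le_right _ _).trans ((min_le_right _ _).trans (min_le_left _ _)),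
      (min_le_right _ _).trans ((min_le_right _ _).trans ((min_le_right _ _).trans
        (min_le_left _ _))),
      (min_le_right _ _).trans ((min_le_right _ _).trans ((min_le_right _ _).trans
        (min_le_right _ _)))⟩
  obtain ⟨k₀, hk₀, m1, m2, m3⟩ : ∃ k₀ : ℝ, 0 < k₀ ∧ k₀ ≤ k1 ∧ k₀ ≤ k2 ∧ k₀ ≤ κ / 2 :=
    ⟨min k1 (min k2 (κ / 2)), by positivity, min_le_left _ _,
      (min_le_right _ _).trans (min_le_left _ _),
      (min_le_right _ _).trans (min_le_right _ _)⟩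
  obtain ⟨K, M, hx⟩ := h.exs k hk e₀ he₀
  obtain ⟨K', M', hx'⟩ := h.exs j (hjk.trans hk) e₀ he₀
  obtain ⟨L, hL⟩ : ∃ L, L = max K K' := ⟨_, rfl⟩
  refine Bas.mono 0 ((((H1 L).and (H2 L)).and (((H3 L).and (H4 L)).and (H5 L))).and
    (((hx.and hx').and ((mx_ex hpos hη k₀ hk₀).and (mx_ex hpos hη' k₀ hk₀))).and
    (pos_bas hpos))) ?_
  rintro J - F A ⟨⟨⟨h1, h2⟩, ⟨h3, h4⟩, h5⟩, ⟨⟨⟨u, hu, -⟩, u', hu', -⟩, ⟨V, z, hz⟩, V', z', hz'⟩, hA⟩
  have hJ0 : (0 : ℝ) ≤ J := Nat.cast_nonneg J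
  have hcl := isLaw_cond F.isLaw hA
  have hzm : ∀ a, k₀ ≤ a → Mx f (vg (x i)) a F A z := fun a ha =>
    ⟨hz.1, fun _ w hw => (hz.2 _ w hw).trans (mul_le_mul_of_nonneg_right ha hJ0)⟩
  have hzm' : ∀ a, k₀ ≤ a → Mx f (vg (x j)) a F A z' := fun a ha =>
    ⟨hz'.1, fun _ w hw => (hz'.2 _ w hw).trans (mul_le_mul_of_nonneg_right ha hJ0)⟩
  have hKL : K ≤ L := by rw [hL]; exact le_max_left _ _
  have hKL' : K' ≤ L := by rw [hL]; exact le_max_right _ _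
  have a1 := (abs_le.1 (h1 V z (hzm _ m1) u ((Q k).mono hKL l1 hu))).2
  have a2 := (abs_le.1 (h2 V z (hzm _ m2) u' ((Q j).mono hKL' l2 hu'))).1
  have a3 := h3 V z (hzm _ m3) u u' ((Q k).mono hKL l3 hu) ((Q j).mono hKL' l3 hu')
  have a4 := h4 V' z' (hzm' _ m3) u' ((Q j).mono hKL' l4 hu')
  rw [sub_self, mul_zero, zero_add] at a4
  have a5 := h5 _ (fun ω => (z' ω, z ω)) (hz'.1.join (cl2_vg (h.mono i j hij (hjk.trans hk))
    ((h.mono j N (hjk.trans hk) le_rfl).trans h.one) hz.1)) u ((Q k).mono hKL l5 hu)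
  have b1 := ch_swap hcl.nonneg u u' (fun ω => (z ω, y J F ω))
  have b2 := CH_le_add hcl.nonneg u u' (fun ω => ((z' ω, z ω), y J F ω))
  have b3 : CH (Pool.Agent.H49.Ent.cond F.p A True) u' (fun ω => ((z' ω, z ω), y J F ω)) ≤
      CH (Pool.Agent.H49.Ent.cond F.p A True) u' (fun ω => (z' ω, y J F ω)) := by
    refine CH_mono_cond hcl.nonneg fun ω ω' _ _ hh => ?_
    simp only [Prod.mk.injEq] at hh ⊢
    exact ⟨hh.1.1, hh.2⟩
  have b4 : CH (Pool.Agent.H49.Ent.cond F.p A True) u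
      (fun ω => (u' ω, ((z' ω, z ω), y J F ω))) ≤
      CH (Pool.Agent.H49.Ent.cond F.p A True) u (fun ω => (u' ω, (z ω, y J F ω))) := by
    refine CH_mono_cond hcl.nonneg fun ω ω' _ _ hh => ?_
    simp only [Prod.mk.injEq] at hh ⊢
    exact ⟨hh.1, hh.2.1.2, hh.2.2⟩
  have e1 : ε * (J : ℝ) = 8 * (κ * J) := by rw [hκ]; ring
  have e2 : 0 ≤ κ * (J : ℝ) := by positivity
  rw [e1]
  linarith

/-- **Numbers on a sub-box.** For `n` large and `δ` small the numbers of the family at the windows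
`t + (i / L ^ n) q` are additive up to `κ₀ ρ` on a sub-box with `L` steps of the length
`ρ = q / L ^ k`, starting at a multiple of `ρ`. -/
theorem num_g (hS : S.Ne)
    (hpos : ∀ (τ : ℝ) (J : ℕ) (F : Fam m J) (A : F.Ω → Prop), S.St τ J F A → 0 < Pe F.p A)
    {M : ℝ} (hM : Bas S (fun J F A => (cnt F.p (f J F) A : ℝ) ≤ Real.exp (M * J)))
    {L n : ℕ} {t q κ₀ : ℝ} (hL : 1 ≤ L) (hn : 1 ≤ n) (hq : 0 < q) (hC : 0 ≤ C) (hδ : 0 ≤ δ)
    (hκ : 0 < κ₀) (hx : ∀ i ≤ L ^ n, x i = t + (i / (L : ℝ) ^ n) * q)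
    (h : GFam S f y (L ^ n) x Q C δ) (hn' : 2 * (C + 1) * L ≤ κ₀ * n)
    (hδ' : 2 * (L + 2) * (δ * (L : ℝ) ^ n) ≤ κ₀ * q) (hδq : δ ≤ q) :
    ∃ S' : PCl m, S'.Ne ∧
      (∀ (τ : ℝ) (J : ℕ) (F : Fam m J) (A : F.Ω → Prop), S'.St τ J F A → S.St τ J F A) ∧
      ∃ (θ : ℕ → ℕ → ℝ) (k p : ℕ), GNum S' f y (L ^ n) x Q θ ∧ 1 ≤ k ∧ k ≤ n ∧
        p + L ≤ L ^ k ∧ L ∣ p ∧
        (∀ i ≤ L, (p + i) * L ^ (n - k) ≤ L ^ n ∧
          x ((p + i) * L ^ (n - k)) = t + ((p + i : ℕ) / (L : ℝ) ^ k) * q) ∧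
        (∀ i j : ℕ, i ≤ j → j ≤ L → 0 ≤ θ ((p + i) * L ^ (n - k)) ((p + j) * L ^ (n - k)) ∧
          θ ((p + i) * L ^ (n - k)) ((p + j) * L ^ (n - k)) ≤
            C * (((j : ℝ) - i) * (q / (L : ℝ) ^ k)) + κ₀ * (q / (L : ℝ) ^ k)) ∧
        ∀ i j l : ℕ, i ≤ j → j ≤ l → l ≤ L →
          θ ((p + i) * L ^ (n - k)) ((p + j) * L ^ (n - k)) +
            θ ((p + j) * L ^ (n - k)) ((p + l) * L ^ (n - k)) ≤
          θ ((p + i) * L ^ (n - k)) ((p + l) * L ^ (n - k)) + κ₀ * (q / (L : ℝ) ^ k) ∧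
          θ ((p + i) * L ^ (n - k)) ((p + l) * L ^ (n - k)) ≤
            θ ((p + i) * L ^ (n - k)) ((p + j) * L ^ (n - k)) +
            θ ((p + j) * L ^ (n - k)) ((p + l) * L ^ (n - k)) + κ₀ * (q / (L : ℝ) ^ k) := by
  obtain ⟨S', h1, h2, θ, hθ⟩ := gnum_ext hS hpos hM h
  have hpos' : ∀ (τ : ℝ) (J : ℕ) (F : Fam m J) (A : F.Ω → Prop), S'.St τ J F A → 0 < Pe F.p A :=
    fun τ J F A h => hpos τ J F A (h2 τ J F A h)
  have h' := h.sub h2
  have hL0 : (0 : ℝ) < L := by exact_mod_cast hL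
  have hn0 : (0 : ℝ) < n := by exact_mod_cast hn
  have hLn : (0 : ℝ) < (L : ℝ) ^ n := by positivity
  have hle : ∀ i j : ℕ, i ≤ j → j ≤ L ^ n → 0 ≤ θ i j ∧
      θ i j ≤ C * (((j : ℝ) - i) / (L : ℝ) ^ n * q) + δ := by
    intro i j hij hj
    have h3 := gnum_le h1 hpos' h' hθ hij hj
    rw [hx j hj, hx i (hij.trans hj)] at h3
    refine ⟨h3.1, h3.2.trans (le_of_eq ?_)⟩
    ring
  have hsup : ∀ i j k : ℕ, i ≤ j → j ≤ k → k ≤ L ^ n → θ i j + θ j k ≤ θ i k + δ :=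
    fun i j k a b c => gnum_sup h1 hpos' h' hθ a b c
  obtain ⟨m', hm', a, hd, ha, hadd⟩ := quant_addD (F := θ) (C := (C * q + δ) / (L : ℝ) ^ n) hL hn
    (fun i j a b => (hle i j a b).1) (by
      rw [div_mul_cancel₀ _ hLn.ne']
      have h3 := (hle 0 (L ^ n) (Nat.zero_le _) le_rfl).2
      push_cast at h3
      rw [sub_zero, div_self hLn.ne', one_mul] at h3
      exact h3) hsup
  obtain ⟨k, hk⟩ : ∃ k, k = n - m' := ⟨_, rfl⟩
  have hk1 : 1 ≤ k := by omega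
  have hkn : k ≤ n := by omega
  have hmk : n - k = m' := by omega
  obtain ⟨b, hb⟩ := hd
  have hab : a = L * b * L ^ m' := by
    rw [hb, pow_succ]
    ring
  have hpw : L ^ k * L ^ m' = L ^ n := by
    rw [← pow_add]
    congr 1
    omega
  have hpwR : (L : ℝ) ^ k * (L : ℝ) ^ m' = (L : ℝ) ^ n := by exact_mod_cast hpw
  have hm0 : 0 < L ^ m' := by positivity
  have hidx : ∀ i : ℕ, (L * b + i) * L ^ (n - k) = a + i * L ^ m' := fun i => by
    rw [hmk, hab]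
    ring
  have hpL : L * b + L ≤ L ^ k := by
    have h3 : (L * b + L) * L ^ m' ≤ L ^ k * L ^ m' := by
      rw [hpw]
      refine le_trans (le_of_eq ?_) ha
      rw [hab]
      ring
    exact Nat.le_of_mul_le_mul_right h3 hm0
  have hin : ∀ i ≤ L, a + i * L ^ m' ≤ L ^ n := fun i hi => by
    have := Nat.mul_le_mul_right (L ^ m') hi
    omega
  have hρ : q / (L : ℝ) ^ k = (L : ℝ) ^ m' / (L : ℝ) ^ n * q := by
    rw [← hpwR]
    field_simp
  have hk0 : (0 : ℝ) < (L : ℝ) ^ k := by positivity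
  have hρ0 : 0 < q / (L : ℝ) ^ k := by positivity
  -- the small number
  have hsm : 2 * (L + 2) * δ ≤ κ₀ * (q / (L : ℝ) ^ k) := by
    have h3 : 2 * (L + 2) * δ ≤ κ₀ * (q / (L : ℝ) ^ n) := by
      rw [mul_div_assoc', le_div_iff₀ hLn]
      linarith
    refine h3.trans (mul_le_mul_of_nonneg_left ?_ hκ.le)
    refine div_le_div_of_nonneg_left hq.le hk0 ?_
    exact pow_le_pow_right₀ (by exact_mod_cast hL) hkn
  have hδs : δ ≤ κ₀ * (q / (L : ℝ) ^ k) := by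
    have : δ ≤ 2 * (L + 2) * δ := by nlinarith
    linarith
  have hbig : (C * q + δ) / (L : ℝ) ^ n / n * (L : ℝ) ^ (m' + 1) + (L + 2) * δ ≤
      κ₀ * (q / (L : ℝ) ^ k) := by
    have h3 : (C * q + δ) / (L : ℝ) ^ n / n * (L : ℝ) ^ (m' + 1) ≤
        (C + 1) * L / n * (q / (L : ℝ) ^ k) := by
      have h4 : (C * q + δ) / (L : ℝ) ^ n / n * (L : ℝ) ^ (m' + 1) =
          (C * q + δ) * (L / n * ((L : ℝ) ^ m' / (L : ℝ) ^ n)) := by
        rw [pow_succ]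
        field_simp
      rw [h4, hρ]
      have h5 : C * q + δ ≤ (C + 1) * q := by linarith
      have h6 : (0 : ℝ) ≤ L / n * ((L : ℝ) ^ m' / (L : ℝ) ^ n) := by positivity
      refine (mul_le_mul_of_nonneg_right h5 h6).trans (le_of_eq ?_)
      ring
    have h4 : (C + 1) * L / n ≤ κ₀ / 2 := by
      rw [div_le_div_iff₀ hn0 (by norm_num)]
      linarith
    have h5 := mul_le_mul_of_nonneg_right h4 hρ0.le
    linarith
  refine ⟨S', h1, h2, θ, k, L * b, hθ, hk1, hkn, hpL, dvd_mul_right _ _, fun i hi => ?_,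
    fun i j hij hj => ?_, fun i j l hij hjl hl => ?_⟩
  · rw [hidx]
    refine ⟨hin i hi, ?_⟩
    rw [hx _ (hin i hi), hab, ← hpwR]
    push_cast
    field_simp
  · rw [hidx, hidx]
    have h3 := hle (a + i * L ^ m') (a + j * L ^ m')
      (Nat.add_le_add_left (Nat.mul_le_mul_right _ hij) _) (hin j hj)
    refine ⟨h3.1, h3.2.trans (add_le_add (le_of_eq ?_) hδs)⟩
    rw [hρ]
    push_cast
    ring
  · rw [hidx, hidx, hidx]
    have h3 := hsup (a + i * L ^ m') (a + j * L ^ m') (a + l * L ^ m')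
      (Nat.add_le_add_left (Nat.mul_le_mul_right _ hij) _)
      (Nat.add_le_add_left (Nat.mul_le_mul_right _ hjl) _) (hin l hl)
    have h4 := hadd i j l hij hjl hl
    exact ⟨by linarith, by linarith⟩

end

end Pool.T462
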