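import Pool.Agent.H4.T4.Lbx
import Pool.Agent.H91.NVA.Aff
import Pool.Agent.H45.EXA.ExvA
import Pool.Agent.H48.T4X.Evw

/-!
# The slopes of affine labels

`slo_cls`: the slopes of the closed affine labels of a window are bounded by the gradients of other
closed labels of any degree at the window. `Lbs`, `lbs_ex`: natural affine labels with bounded slopes at
finitely many windows.
-/

set_option autoImplicit false

namespace Pool.T462

open Finset Real MvPolynomial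
open Pool.Agent.H49.Ent Pool.Agent.H32.Dense
open Pool.STK hiding pr2
open Pool.KA Pool.KSAT Pool.K2S Pool.PB Pool.S6C
open Pool.GEN Pool.CHT Pool.CHX Pool.ISO
open Pool.D2R Pool.GF64
open Pool.D2F2 (hgp vlp)
open Pool.RCD Pool.LA91
open Pool.GRD (LbP)
open Pool.BFL (Pb)
open Pool.LIV (Pb_mono25 Pb_or25 Pb_ex25)
open Pool.GRW (tmc_bas)
open Pool.CDX (AffL)
open Pool.V0F (LbE)
open Pool.T4J Pool.T4X Pool.T4N

variable {m : ℕ}

/-- **The slopes of the labels** of the places `1, …, n` at the point `ω`. -/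
def SloP {J : ℕ} (F : Fam m J) (n : ℕ) (GB : PtT F → ℕ → MvPolynomial (Option (Fin m)) ℝ)
    (s : ℕ → ℝ) (Y : ℝ) (ω : F.Ω) : Prop :=
  ∀ l, 1 ≤ l → l ≤ n → ∀ o, |coeff (Finsupp.single o 1) (GB (ptr F J ω) l)| ≤ 2 ^ ((Y - s l) * J)

theorem SloP.le {J : ℕ} {F : Fam m J} {n : ℕ}
    {GB : PtT F → ℕ → MvPolynomial (Option (Fin m)) ℝ} {s : ℕ → ℝ} {Y Y' : ℝ} {ω : F.Ω}
    (h : SloP F n GB s Y ω) (hY : Y ≤ Y') : SloP F n GB s Y' ω := fun l h1 h2 o =>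
  (h l h1 h2 o).trans (E_mono J (by linarith))

/-- Numbers with triangular bounds. -/
theorem slo_num {n : ℕ} {σ D : ℕ → ℝ} {B Y : ℝ} (hB : 0 ≤ B) (hσ : ∀ l ≤ n, σ l ≤ Y)
    (h : ∀ l ≤ n, σ l * D l ≤ Y + B * ∑ j ∈ range l, (σ j + σ j * D j)) :
    ∀ l ≤ n, Y + σ l * D l ≤ 2 * (1 + B) ^ l * Y := by
  intro l
  induction l using Nat.strong_induction_on with
  | _ l ih =>
    intro hl
    have h1 := h l hl
    have h2 : ∑ j ∈ range l, (σ j + σ j * D j) ≤ ∑ j ∈ range l, 2 * (1 + B) ^ j * Y :=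
      Finset.sum_le_sum fun j hj => by
        have h3 := Finset.mem_range.1 hj
        have h4 := ih j h3 (by omega)
        have h5 := hσ j (by omega)
        linarith
    have h3 : (∑ j ∈ range l, (1 + B) ^ j) * B = (1 + B) ^ l - 1 := by
      have h4 := geom_sum_mul (1 + B) l
      rw [add_sub_cancel_left] at h4
      exact h4
    have h4 : ∑ j ∈ range l, 2 * (1 + B) ^ j * Y = (∑ j ∈ range l, (1 + B) ^ j) * (2 * Y) := by
      rw [Finset.sum_mul]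
      exact Finset.sum_congr rfl fun j _ => by ring
    have h5 : B * ∑ j ∈ range l, 2 * (1 + B) ^ j * Y = 2 * Y * ((1 + B) ^ l - 1) := by
      rw [h4, ← h3]
      ring
    have h6 := mul_le_mul_of_nonneg_left h2 hB
    rw [h5] at h6
    linarith

/-- A polynomial of degree one over the first places has no slope in the other directions. -/
theorem slo_dep {c : ℕ → Fin m} {l : ℕ} {Q : MvPolynomial (Option (Fin m)) ℝ}
    (hd : Q.totalDegree ≤ 1) (hQ : DepC c l Q) {k : Fin m} (hk : ∀ j < l, c j ≠ k) :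
    coeff (Finsupp.single (some k) 1) Q = 0 := by
  classical
  have h1 := hQ (fun _ => 0) (fun o => if o = some k then 1 else 0) (by simp) (fun j hj => by
    rw [if_neg]
    intro h
    exact hk j hj (Option.some.inj h))
  rw [Pool.FVL91.eval_one hd, Pool.FVL91.eval_one hd] at h1
  simp only [mul_zero, Finset.sum_const_zero, mul_ite, mul_one, Finset.sum_ite_eq',
    Finset.mem_univ, if_true] at h1
  linarith

/-- **The slopes of affine labels** at one point, from a bound of the differences with other labels. -/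
theorem slo_pt {J : ℕ} {F : Fam m J} {c : ℕ → Fin m} {n : ℕ}
    {L g : ℕ → MvPolynomial (Option (Fin m)) ℝ}
    (hL : ∀ l, 1 ≤ l → l ≤ n → (L l).totalDegree ≤ 1 ∧ DepC c l (L l))
    {ω : F.Ω} {v ε₀ e : ℝ} {s : ℕ → ℝ} {B Y : ℝ} (hB : 0 ≤ B)
    (hs : ∀ l ≤ n, s l ≤ Y) (he : 0 ≤ e) (hε₀ : 0 ≤ ε₀) (hvY : v ≤ Y)
    (hvel : ∀ l, 1 ≤ l → l ≤ n → |vlp F (c l) (L l) ω| ≤ 2 ^ ((ε₀ + v - s l) * J))
    (hgr : ∀ l, 1 ≤ l → l ≤ n → ∀ o, 2 ^ (s l * J) * |eval (bt F ω) (pderiv o (g l))| ≤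
      2 ^ ((Y + e) * J))
    (hdd : ∀ l, 1 ≤ l → l ≤ n → ∀ W : Option (Fin m) → ℝ, W none = 0 →
      2 ^ (s l * J) * |dd (g l - L l) (bt F ω) W| ≤
        B * ∑ j ∈ range l, 2 ^ (s j * J) * |cmp c L (bt F ω) W j|) :
    ∀ l, 1 ≤ l → l ≤ n → ∀ o, |coeff (Finsupp.single o 1) (L l)| ≤
      (m + 2) * (2 * (1 + B) ^ n) * 2 ^ ((Y + e + ε₀ - s l) * J) := by
  classical
  have hJ0 : (0 : ℝ) ≤ J := Nat.cast_nonneg J
  obtain ⟨Y', hY'⟩ : ∃ Y' : ℝ, Y' = 2 ^ ((Y + e) * J) := ⟨_, rfl⟩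
  have hY0 : 0 < Y' := by
    rw [hY']
    exact E_pos J _
  have hσY : ∀ l ≤ n, (2 : ℝ) ^ (s l * J) ≤ Y' := fun l hl => by
    rw [hY']
    exact E_mono J (by linarith [hs l hl])
  obtain ⟨M, hM⟩ : ∃ M : ℝ, M = 2 * (1 + B) ^ n := ⟨_, rfl⟩
  have hM1 : 1 ≤ M := by
    rw [hM]
    have := one_le_pow₀ (n := n) (show (1 : ℝ) ≤ 1 + B by linarith)
    linarith
  -- the space directions
  have hsp : ∀ l, 1 ≤ l → l ≤ n → ∀ k : Fin m, |coeff (Finsupp.single (some k) 1) (L l)| ≤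
      M * (Y' / 2 ^ (s l * J)) := by
    intro l h1 h2 k
    obtain ⟨W, hW⟩ : ∃ W : Option (Fin m) → ℝ, W = fun o => if o = some k then 1 else 0 := ⟨_, rfl⟩
    have hW0 : W none = 0 := by
      rw [hW]
      simp
    have hW1 : ∀ o, |W o| ≤ 1 := fun o => by
      rw [hW]
      show |(if o = some k then (1 : ℝ) else 0)| ≤ 1
      split_ifs
      · rw [abs_one]
      · rw [abs_zero]
        exact zero_le_one
    have hdW : ∀ (Q : MvPolynomial (Option (Fin m)) ℝ), dd Q (bt F ω) W =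
        eval (bt F ω) (pderiv (some k) Q) := fun Q => by
      unfold dd
      rw [hW, Finset.sum_eq_single (some k)]
      · show eval (bt F ω) (pderiv (some k) Q) * (if (some k) = some k then (1 : ℝ) else 0) = _
        rw [if_pos rfl, mul_one]
      · intro o _ ho
        show eval (bt F ω) (pderiv o Q) * (if o = some k then (1 : ℝ) else 0) = 0
        rw [if_neg ho, mul_zero]
      · intro h
        exact absurd (Finset.mem_univ _) h
    obtain ⟨D, hD⟩ : ∃ D : ℕ → ℝ, D = fun j => if j = 0 then 0 else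
      |eval (bt F ω) (pderiv (some k) (L j))| := ⟨_, rfl⟩
    have hD0 : ∀ j, 0 ≤ D j := fun j => by
      rw [hD]
      show 0 ≤ (if j = 0 then (0 : ℝ) else |eval (bt F ω) (pderiv (some k) (L j))|)
      split_ifs
      · exact le_rfl
      · exact abs_nonneg _
    have hDl : ∀ j, 1 ≤ j → D j = |eval (bt F ω) (pderiv (some k) (L j))| := fun j hj => by
      rw [hD]
      exact if_neg (by omega)
    have hcm : ∀ j, |cmp c L (bt F ω) W j| ≤ 1 + D j := by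
      intro j
      unfold Pool.T4J.cmp
      split_ifs with h3
      · have := hW1 (some (c 0))
        linarith [hD0 j]
      · rw [hDl j (by omega), hdW]
        have h4 := abs_sub (W (some (c j))) (eval (bt F ω) (pderiv (some k) (L j)))
        have := hW1 (some (c j))
        linarith
    have key := slo_num (n := n) (σ := fun j => (2 : ℝ) ^ (s j * J)) (D := D) (B := B) (Y := Y') hB
      hσY (by
        intro j hj
        have hsum : 0 ≤ ∑ i ∈ range j, ((2 : ℝ) ^ (s i * J) + 2 ^ (s i * J) * D i) :=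
          Finset.sum_nonneg fun i _ => add_nonneg (E_pos J _).le
            (mul_nonneg (E_pos J _).le (hD0 i))
        rcases Nat.eq_zero_or_pos j with h3 | h3
        · subst h3
          rw [show D 0 = 0 by rw [hD]; exact if_pos rfl, mul_zero]
          exact add_nonneg hY0.le (mul_nonneg hB hsum)
        · show (2 : ℝ) ^ (s j * J) * D j ≤ _
          have e1 := hdd j h3 hj W hW0
          have e2 := hgr j h3 hj (some k)
          have e3 : D j ≤ |eval (bt F ω) (pderiv (some k) (g j))| +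
              |dd (g j - L j) (bt F ω) W| := by
            rw [hDl j h3, dd_sub, hdW, hdW]
            have := abs_sub_abs_le_abs_sub (eval (bt F ω) (pderiv (some k) (L j)))
              (eval (bt F ω) (pderiv (some k) (g j)))
            rw [abs_sub_comm] at this
            linarith
          have e4 := mul_le_mul_of_nonneg_left e3 (E_pos J (s j)).le
          have e5 : ∑ i ∈ range j, (2 : ℝ) ^ (s i * J) * |cmp c L (bt F ω) W i| ≤
              ∑ i ∈ range j, ((2 : ℝ) ^ (s i * J) + 2 ^ (s i * J) * D i) :=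
            Finset.sum_le_sum fun i _ => by
              have := mul_le_mul_of_nonneg_left (hcm i) (E_pos J (s i)).le
              linarith
          have e6 := mul_le_mul_of_nonneg_left e5 hB
          rw [← hY'] at e2
          linarith) l h2
    have h3 : coeff (Finsupp.single (some k) 1) (L l) = eval (bt F ω) (pderiv (some k) (L l)) :=
      (Pool.NVA91.aff_pd (hL l h1 h2).1 _ _).symm
    rw [h3, ← hDl l h1, mul_div_assoc', le_div_iff₀ (E_pos J _)]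
    have h4 : (1 + B) ^ l ≤ (1 + B) ^ n := pow_le_pow_right₀ (by linarith) h2
    have h5 : 2 * (1 + B) ^ l * Y' ≤ M * Y' := by
      rw [hM]
      exact mul_le_mul_of_nonneg_right (by linarith) hY0.le
    have h6 : Y' + (2 : ℝ) ^ (s l * J) * D l ≤ 2 * (1 + B) ^ l * Y' := key
    linarith
  intro l h1 h2 o
  have hq : Y' / 2 ^ (s l * J) ≤ 2 ^ ((Y + e + ε₀ - s l) * J) := by
    rw [div_le_iff₀ (E_pos J _), E_add, hY']
    exact E_mono J (by linarith)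
  have hq1 : (1 : ℝ) ≤ 2 ^ ((Y + e + ε₀ - s l) * J) := E_one (by linarith [hs l h2])
  have hm0 : (0 : ℝ) ≤ m := Nat.cast_nonneg m
  obtain ⟨E, hE⟩ : ∃ E : ℝ, E = 2 ^ ((Y + e + ε₀ - s l) * J) := ⟨_, rfl⟩
  rw [← hE] at hq hq1 ⊢
  rw [← hM]
  have hME : 1 ≤ M * E := by nlinarith
  cases o with
  | some k =>
    have h3 := hsp l h1 h2 k
    have h4 := mul_le_mul_of_nonneg_left hq (show 0 ≤ M by linarith)
    have h5 : M * E ≤ (m + 2) * M * E := by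
      have : 0 ≤ (m + 1) * (M * E) := by positivity
      have e1 : (m + 2) * M * E = M * E + (m + 1) * (M * E) := by ring
      linarith
    linarith
  | none =>
    have hva := hvel l h1 h2
    unfold vlp at hva
    have e1 : dd (L l) (bt F ω) (bd F ω) = coeff (Finsupp.single none 1) (L l) +
        ∑ k : Fin m, coeff (Finsupp.single (some k) 1) (L l) * F.d ω k := by
      unfold dd
      rw [Fintype.sum_option]
      have e2 : bd F ω none = 1 := rfl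
      rw [Pool.NVA91.aff_pd (hL l h1 h2).1, e2, mul_one]
      congr 1
      exact Finset.sum_congr rfl fun k _ => by
        rw [Pool.NVA91.aff_pd (hL l h1 h2).1]
        rfl
    have e3 : |∑ k : Fin m, coeff (Finsupp.single (some k) 1) (L l) * F.d ω k| ≤ m * (M * E) := by
      refine (Finset.abs_sum_le_sum_abs _ _).trans ?_
      have e4 : ∀ k ∈ (univ : Finset (Fin m)),
          |coeff (Finsupp.single (some k) 1) (L l) * F.d ω k| ≤ M * E := fun k _ => by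
        rw [abs_mul]
        have g1 := hsp l h1 h2 k
        have g2 := mul_le_mul_of_nonneg_left hq (show 0 ≤ M by linarith)
        have g3 := F.dir ω k
        have g4 : |coeff (Finsupp.single (some k) 1) (L l)| * |F.d ω k| ≤
            |coeff (Finsupp.single (some k) 1) (L l)| * 1 :=
          mul_le_mul_of_nonneg_left g3 (abs_nonneg _)
        linarith
      refine (Finset.sum_le_sum e4).trans (le_of_eq ?_)
      rw [Finset.sum_const, Finset.card_univ, Fintype.card_fin, nsmul_eq_mul]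
    have e5 : |F.d ω (c l)| ≤ 1 := F.dir ω (c l)
    have e6 : (2 : ℝ) ^ ((ε₀ + v - s l) * J) ≤ E := by
      rw [hE]
      exact E_mono J (by linarith)
    have e7 : |coeff (Finsupp.single none 1) (L l)| ≤ 1 + E + m * (M * E) := by
      have g1 : coeff (Finsupp.single none 1) (L l) = F.d ω (c l) -
          (F.d ω (c l) - dd (L l) (bt F ω) (bd F ω)) -
            ∑ k : Fin m, coeff (Finsupp.single (some k) 1) (L l) * F.d ω k := by
        rw [e1]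
        ring
      rw [g1]
      have g2 := abs_sub (F.d ω (c l) - (F.d ω (c l) - dd (L l) (bt F ω) (bd F ω)))
        (∑ k : Fin m, coeff (Finsupp.single (some k) 1) (L l) * F.d ω k)
      have g3 := abs_sub (F.d ω (c l)) (F.d ω (c l) - dd (L l) (bt F ω) (bd F ω))
      linarith
    have e8 : E ≤ M * E := by nlinarith
    have e9 : (m + 2) * M * E = M * E + M * E + m * (M * E) := by ring
    linarith

/-- The labels as affine polynomials. -/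
noncomputable def afQ (c : ℕ → Fin m) (n : ℕ) (G : ℕ → MvPolynomial (Option (Fin m)) ℝ)
    (h : ∀ l, 1 ≤ l → l ≤ n → (G l).totalDegree ≤ 1 ∧ DepC c l (G l)) (l : ℕ) :
    {Q : MvPolynomial (Option (Fin m)) ℝ // Q.totalDegree ≤ 1 ∧ DepC c l Q} :=
  if hl : 1 ≤ l ∧ l ≤ n then ⟨G l, h l hl.1 hl.2⟩ else
    ⟨0, by rw [totalDegree_zero]; exact Nat.zero_le 1, fun b b' _ _ => by rw [map_zero, map_zero]⟩

theorem afQ_in {c : ℕ → Fin m} {n : ℕ} {G : ℕ → MvPolynomial (Option (Fin m)) ℝ}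
    (h : ∀ l, 1 ≤ l → l ≤ n → (G l).totalDegree ≤ 1 ∧ DepC c l (G l)) {l : ℕ} (h1 : 1 ≤ l)
    (h2 : l ≤ n) : (afQ c n G h l).1 = G l := by
  unfold afQ
  rw [dif_pos ⟨h1, h2⟩]

/-- A label of `LbN` as a closed label. -/
theorem lbn_lbp {J : ℕ} {F : Fam m J} {c : ℕ → Fin m} {n : ℕ} {A : F.Ω → Prop} {v ε₀ : ℝ}
    {lt s : ℕ → ℝ} {GA GB : PtT F → ℕ → MvPolynomial (Option (Fin m)) ℝ}
    {HB : LnT F → ℕ → MvPolynomial (Option (Fin m)) ℝ} (h : LbN F c n A v lt s ε₀ GA GB HB)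
    {l : ℕ} (h1 : 1 ≤ l) (h2 : l ≤ n) (hs : ε₀ ≤ s l) :
    LbP F ((range l).image c) (c l) 1 J ⌊v * J⌋₊ ⌊(s l - ε₀) * J⌋₊ A
      (fun y => afQ c n (GB y) (h.dg y) l) (fun x => afQ c n (HB x) (h.dh x) l) (fun Q => Q.1) := by
  refine ⟨fun Q => Q.2.1, fun Q b b' g1 g2 => Q.2.2 b b' g1 fun j hj =>
    g2 (c j) (mem_image_of_mem c (mem_range.2 hj)), fun ω hω => Subtype.ext ?_, fun ω hω => ?_⟩
  · rw [afQ_in (h.dg (ptr F J ω)) h1 h2, afQ_in (h.dh (slam F ⌊v * J⌋₊ ω)) h1 h2]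
    exact h.cls ω hω l h1 h2
  · have e1 : (afQ c n (HB (slam F ⌊v * J⌋₊ ω)) (h.dh (slam F ⌊v * J⌋₊ ω)) l).1 =
        GB (ptr F J ω) l := by
      rw [afQ_in (h.dh (slam F ⌊v * J⌋₊ ω)) h1 h2]
      exact (h.cls ω hω l h1 h2).symm
    have e2 := h.hgt ω hω l h1 h2
    unfold hgp at e2
    show |F.x ω (c l) - eval (bt F ω)
      (afQ c n (HB (slam F ⌊v * J⌋₊ ω)) (h.dh (slam F ⌊v * J⌋₊ ω)) l).1| ≤ _
    rw [e1]
    refine e2.trans ?_
    have e3 := E_inv_floor_ge (J := J) (x := s l - ε₀) (y := s l - ε₀) (by linarith) le_rfl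
    rw [neg_sub] at e3
    exact e3

/-- **The slopes of affine labels**: bounded by the gradients of other closed labels. `Y`: the bound of
the sums of the levels and the exponents of the gradients. -/
theorem slo_cls {S : PCl m} {C₀ : ℝ} (htm : TmC S C₀) {c : ℕ → Fin m} {n D : ℕ} {v u₁ : ℝ}
    {s rd : ℕ → ℝ} (hch : Chn S c 0 n v v u₁ s rd) {E rd' : ℕ → ℝ} {Y : ℝ}
    (hE : ∀ l ≤ n, 0 ≤ E l ∧ s l + E l ≤ Y) (hvY : v ≤ Y)
    (hlab : ∀ e : ℝ, 0 < e → Bas S (fun J F A => ∃ (V : Type) (z : PtT F → V) (z' : LnT F → V)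
      (g : V → ℕ → MvPolynomial (Option (Fin m)) ℝ), LbE F c (n + 1) D E e v rd' s A z z' g))
    {ε₀ : ℝ} (hε₀ : 0 ≤ ε₀) (hs : ∀ l, 1 ≤ l → l ≤ n → ε₀ ≤ s l) {ε : ℝ} (hε : 0 < ε)
    {η : ℝ} (hη : 0 < η) :
    Bas S (fun J F A => ∀ (lt : ℕ → ℝ) (GA GB : PtT F → ℕ → MvPolynomial (Option (Fin m)) ℝ)
      (HB : LnT F → ℕ → MvPolynomial (Option (Fin m)) ℝ), LbN F c n A v lt s ε₀ GA GB HB →
      Pb (Pool.Agent.H49.Ent.cond F.p A True)
        (fun ω => ¬ SloP F n GB s (Y + (n * (n + 1) + 1) * ε₀ + ε) ω) ≤ η) := by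
  classical
  have hn0 : (0 : ℝ) ≤ n := Nat.cast_nonneg n
  obtain ⟨ε₁, hε₁⟩ : ∃ ε₁ : ℝ, ε₁ = ε / (2 * (2 * n + 1)) := ⟨_, rfl⟩
  have hε10 : 0 < ε₁ := by rw [hε₁]; positivity
  have hε11 : (2 * (n : ℝ) + 1) * ε₁ = ε / 2 := by
    rw [hε₁]
    field_simp
  obtain ⟨D', hD'⟩ : ∃ D' : ℕ, D' = max 1 D := ⟨_, rfl⟩
  have hD1 : 1 ≤ D' := by rw [hD']; exact le_max_left _ _
  have hDD : D ≤ D' := by rw [hD']; exact le_max_right _ _
  obtain ⟨η', hη'⟩ : ∃ η' : ℝ, η' = η / (n + 1) := ⟨_, rfl⟩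
  have hη0 : 0 < η' := by rw [hη']; positivity
  have hη1 : ((n : ℝ) + 1) * η' = η := by
    rw [hη']
    field_simp
  obtain ⟨J₁, hJ₁⟩ := E_big (a := ε / 2) (C := (m + 2) * (2 * 5 ^ n)) (by linarith)
  have b1 : Bas S (fun J F A => ∀ l < n + 1, 1 ≤ l →
      ∀ (k : Fin m) (P₁ P₂ : ℕ) (Q : ℕ → ℕ) (V : ℕ → Type) (V₁ V₂ : Type)
        (y : ∀ l, PtT F → V l) (y' : ∀ l, LnT F → V l)
        (T : ∀ l, V l → MvPolynomial (Option (Fin m)) ℝ)
        (z₁ : PtT F → V₁) (z₁' : LnT F → V₁) (G₁ : V₁ → MvPolynomial (Option (Fin m)) ℝ)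
        (z₂ : PtT F → V₂) (z₂' : LnT F → V₂) (G₂ : V₂ → MvPolynomial (Option (Fin m)) ℝ),
        (∀ j, 1 ≤ j → j < l →
          LbP F ((range j).image c) (c j) D' J ⌊v * J⌋₊ (Q j) A (y j) (y' j) (T j)) →
        (∀ j, 1 ≤ j → j < l → (1 : ℝ) / 2 ^ Q j ≤ 2 * 2 ^ (-(s j - ε₀) * J)) →
        LbP F ((range l).image c) k D' J ⌊v * J⌋₊ P₁ A z₁ z₁' G₁ →
        LbP F ((range l).image c) k D' J ⌊v * J⌋₊ P₂ A z₂ z₂' G₂ →
        Pb (Pool.Agent.H49.Ent.cond F.p A True) (fun ω =>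
          ¬ ∀ W : Option (Fin m) → ℝ, W none = 0 →
            |dd (G₁ (z₁' (slam F ⌊v * J⌋₊ ω)) - G₂ (z₂' (slam F ⌊v * J⌋₊ ω))) (bt F ω) W| ≤
              2 ^ ((ε₁ + l * ε₀) * J) * (1 / 2 ^ P₁ + 1 / 2 ^ P₂) *
                ∑ j ∈ range l, 2 ^ (s j * J) *
                  |Pool.T4J.cmp c (fun j => T j (y' j (slam F ⌊v * J⌋₊ ω))) (bt F ω) W j|) ≤ η') := by
    refine Bas.all (n + 1) fun l hl => ?_
    by_cases hl1 : 1 ≤ l
    · refine Bas.mono 0 (dd_cls htm (hch.take (Nat.zero_le l) (by omega)) hl1 hε₀ hε10 D' hη0) ?_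
      exact fun J _ F A h _ => h
    · exact ⟨1, one_pos, 0, fun _ _ _ _ _ h => absurd h hl1⟩
  refine Bas.mono (J₁ + 1) ((b1.and (hlab ε₁ hε10)).and (tmc_bas htm one_pos)) ?_
  rintro J hJ F A ⟨⟨hdd, V, z, z', g, hg⟩, hA, -⟩ lt GA GB HB hN
  have hJ0 : (0 : ℝ) ≤ J := Nat.cast_nonneg J
  have f1 := hJ₁ J (by omega)
  have hq := isLaw_cond F.isLaw hA
  have h0 := hq.nonneg
  -- the constant
  obtain ⟨B, hB⟩ : ∃ B : ℝ, B = 4 * 2 ^ ((2 * ε₁ + (n + 1) * ε₀) * J) := ⟨_, rfl⟩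
  have hX1 : (1 : ℝ) ≤ 2 ^ ((2 * ε₁ + (n + 1) * ε₀) * J) := E_one (by positivity)
  have hB0 : 0 ≤ B := by
    rw [hB]
    linarith
  obtain ⟨bad, hbad⟩ : ∃ bad : ℕ → F.Ω → Prop, bad = fun l ω => 1 ≤ l ∧
    ¬ ∀ W : Option (Fin m) → ℝ, W none = 0 →
      2 ^ (s l * J) * |dd (g (z' (slam F ⌊v * J⌋₊ ω)) l - GB (ptr F J ω) l) (bt F ω) W| ≤
        B * ∑ j ∈ range l, 2 ^ (s j * J) * |Pool.T4J.cmp c (GB (ptr F J ω)) (bt F ω) W j| :=
    ⟨_, rfl⟩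
  have hP : ∀ l < n + 1, Pb (Pool.Agent.H49.Ent.cond F.p A True) (bad l) ≤ η' := by
    intro l hl
    by_cases hl1 : 1 ≤ l
    · have hlb := LbP.of (hg l hl)
      have k1 := hdd l hl hl1 (c l) ⌊(s l - ε₁) * J⌋₊ ⌊(s l - ε₀) * J⌋₊
        (fun j => ⌊(s j - ε₀) * J⌋₊) _ _ _
        (fun j x => afQ c n (GB x) (hN.dg x) j) (fun j x => afQ c n (HB x) (hN.dh x) j)
        (fun j Q => Q.1) _ _ _ _ _ _
        (fun j g1 g2 => (lbn_lbp hN g1 (by omega) (hs j g1 (by omega))).mono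
          (Finset.Subset.refl _) hD1 le_rfl)
        (fun j g1 g2 => E_inv_floor J (s j - ε₀))
        (hlb.mono (Finset.Subset.refl _) hDD le_rfl)
        ((lbn_lbp hN hl1 (by omega) (hs l hl1 (by omega))).mono (Finset.Subset.refl _) hD1 le_rfl)
      refine le_trans (Pb_mono25 h0 fun ω hω hb => ?_) k1
      have hAω : A ω := by
        have h1 := ((cond_pos_iff F.isLaw.nonneg A True ω).1 hω).2
        rw [h1]
        trivial
      rw [hbad] at hb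
      intro hall
      refine hb.2 fun W hW => ?_
      have k2 := hall W hW
      have e1 : ∀ j, 1 ≤ j → j ≤ n → (afQ c n (HB (slam F ⌊v * J⌋₊ ω))
          (hN.dh (slam F ⌊v * J⌋₊ ω)) j).1 = GB (ptr F J ω) j := fun j g1 g2 => by
        rw [afQ_in (hN.dh (slam F ⌊v * J⌋₊ ω)) g1 g2]
        exact (hN.cls ω hAω j g1 g2).symm
      rw [e1 l hl1 (by omega)] at k2
      have e2 : ∑ j ∈ range l, (2 : ℝ) ^ (s j * J) * |Pool.T4J.cmp c (fun j =>
          (afQ c n (HB (slam F ⌊v * J⌋₊ ω)) (hN.dh (slam F ⌊v * J⌋₊ ω)) j).1) (bt F ω) W j| =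
          ∑ j ∈ range l, 2 ^ (s j * J) * |Pool.T4J.cmp c (GB (ptr F J ω)) (bt F ω) W j| := by
        refine Finset.sum_congr rfl fun j hj => ?_
        have hjl := Finset.mem_range.1 hj
        congr 2
        unfold Pool.T4J.cmp
        split_ifs with h3
        · rfl
        · exact congrArg (fun Q => W (some (c j)) - dd Q (bt F ω) W) (e1 j (by omega) (by omega))
      rw [e2] at k2
      obtain ⟨Sm, hSm⟩ : ∃ x : ℝ, x = ∑ j ∈ range l, (2 : ℝ) ^ (s j * J) *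
        |Pool.T4J.cmp c (GB (ptr F J ω)) (bt F ω) W j| := ⟨_, rfl⟩
      have hSm0 : 0 ≤ Sm := by
        rw [hSm]
        exact Finset.sum_nonneg fun j _ => mul_nonneg (E_pos J _).le (abs_nonneg _)
      rw [← hSm] at k2 ⊢
      have k3 := mul_le_mul_of_nonneg_left k2 (E_pos J (s l)).le
      refine k3.trans ?_
      rw [← mul_assoc]
      refine mul_le_mul_of_nonneg_right ?_ hSm0
      -- the numbers
      have g1 := E_inv_floor J (s l - ε₁)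
      have g2 := E_inv_floor J (s l - ε₀)
      have hln : (l : ℝ) ≤ n := by exact_mod_cast (by omega : l ≤ n)
      have g3 : (2 : ℝ) ^ (s l * J) * (2 ^ ((ε₁ + l * ε₀) * J) * (2 * 2 ^ (-(s l - ε₁) * J))) ≤
          2 * 2 ^ ((2 * ε₁ + (n + 1) * ε₀) * J) := by
        have e3 : (2 : ℝ) ^ (s l * J) * (2 ^ ((ε₁ + l * ε₀) * J) * (2 * 2 ^ (-(s l - ε₁) * J))) =
            2 * (2 ^ (s l * J) * 2 ^ ((ε₁ + l * ε₀) * J) * 2 ^ (-(s l - ε₁) * J)) := by ring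
        rw [e3, E_add, E_add]
        refine mul_le_mul_of_nonneg_left (E_mono J ?_) (by norm_num)
        have := mul_le_mul_of_nonneg_right hln hε₀
        linarith
      have g4 : (2 : ℝ) ^ (s l * J) * (2 ^ ((ε₁ + l * ε₀) * J) * (2 * 2 ^ (-(s l - ε₀) * J))) ≤
          2 * 2 ^ ((2 * ε₁ + (n + 1) * ε₀) * J) := by
        have e3 : (2 : ℝ) ^ (s l * J) * (2 ^ ((ε₁ + l * ε₀) * J) * (2 * 2 ^ (-(s l - ε₀) * J))) =
            2 * (2 ^ (s l * J) * 2 ^ ((ε₁ + l * ε₀) * J) * 2 ^ (-(s l - ε₀) * J)) := by ring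
        rw [e3, E_add, E_add]
        refine mul_le_mul_of_nonneg_left (E_mono J ?_) (by norm_num)
        have := mul_le_mul_of_nonneg_right hln hε₀
        linarith
      have g5 : (2 : ℝ) ^ (s l * J) * (2 ^ ((ε₁ + l * ε₀) * J) *
          (1 / 2 ^ ⌊(s l - ε₁) * J⌋₊ + 1 / 2 ^ ⌊(s l - ε₀) * J⌋₊)) ≤
          2 ^ (s l * J) * (2 ^ ((ε₁ + l * ε₀) * J) *
            (2 * 2 ^ (-(s l - ε₁) * J) + 2 * 2 ^ (-(s l - ε₀) * J))) :=
        mul_le_mul_of_nonneg_left (mul_le_mul_of_nonneg_left (add_le_add g1 g2) (E_pos J _).le)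
          (E_pos J _).le
      refine g5.trans ?_
      rw [hB, mul_add, mul_add]
      linarith
    · refine le_trans (Pb_mono25 h0 (B := fun _ => False) fun ω hω hb => ?_)
        (le_of_eq_of_le ?_ hη0.le)
      · rw [hbad] at hb
        exact hl1 hb.1
      · unfold Pb
        simp
  have hPB : Pb (Pool.Agent.H49.Ent.cond F.p A True) (fun ω => ∃ l < n + 1, bad l ω) ≤ η := by
    refine (Pb_ex25 h0 (fun l ω => bad l ω) (n + 1) hP).trans (le_of_eq ?_)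
    push_cast
    exact hη1
  refine le_trans (Pb_mono25 h0 fun ω hω hb => ?_) hPB
  have hAω : A ω := by
    have h1 := ((cond_pos_iff F.isLaw.nonneg A True ω).1 hω).2
    rw [h1]
    trivial
  by_contra hno
  refine hb fun l h1 h2 o => ?_
  have key := slo_pt (F := F) (c := c) (n := n) (L := GB (ptr F J ω))
    (g := g (z' (slam F ⌊v * J⌋₊ ω))) (fun l => hN.dg (ptr F J ω) l) (ω := ω) (v := v) (ε₀ := ε₀)
    (e := ε₁) (s := s) (B := B) (Y := Y) hB0 (fun l hl => by linarith [(hE l hl).1, (hE l hl).2])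
    hε10.le hε₀ hvY (fun l a b => hN.vel ω hAω l a b) (by
      intro l a b o
      have h3 := (hg l (by omega)).lip ω hAω (bt F ω) (fun o' => by
        rw [sub_self, abs_zero]
        positivity) o
      have h4 : (2 : ℝ) ^ ⌊(E l + ε₁) * J⌋₊ ≤ 2 ^ ((E l + ε₁) * J) :=
        E_floor_le (by linarith [(hE l b).1])
      have h5 := mul_le_mul_of_nonneg_left (h3.trans h4) (E_pos J (s l)).le
      refine h5.trans ?_
      rw [E_add]
      exact E_mono J (by linarith [(hE l b).2])) (by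
      intro l a b W hW
      by_contra h3
      refine hno ⟨l, by omega, ?_⟩
      rw [hbad]
      exact ⟨a, fun h4 => h3 (h4 W hW)⟩) l h1 h2 o
  refine key.trans ?_
  have h3 : 1 + B ≤ 5 * 2 ^ ((2 * ε₁ + (n + 1) * ε₀) * J) := by
    rw [hB]
    linarith
  have h4 : (1 + B) ^ n ≤ 5 ^ n * (2 : ℝ) ^ (n * (2 * ε₁ + (n + 1) * ε₀) * J) := by
    refine (pow_le_pow_left₀ (by linarith) h3 n).trans (le_of_eq ?_)
    rw [mul_pow, E_pow]
  have hm0 : (0 : ℝ) ≤ m := Nat.cast_nonneg m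
  have h5 : (m + 2) * (2 * (1 + B) ^ n) ≤ (m + 2) * (2 * 5 ^ n) *
      (2 : ℝ) ^ (n * (2 * ε₁ + (n + 1) * ε₀) * J) := by
    have h6 := mul_le_mul_of_nonneg_left h4 (show (0 : ℝ) ≤ (m + 2) * 2 by positivity)
    linarith
  have h6 : (m + 2) * (2 * 5 ^ n) * (2 : ℝ) ^ (n * (2 * ε₁ + (n + 1) * ε₀) * J) ≤
      2 ^ (ε / 2 * J) * 2 ^ (n * (2 * ε₁ + (n + 1) * ε₀) * J) :=
    mul_le_mul_of_nonneg_right f1 (E_pos J _).le
  have h7 := mul_le_mul_of_nonneg_right (h5.trans h6) (E_pos J (Y + ε₁ + ε₀ - s l)).le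
  refine h7.trans ?_
  rw [E_add, E_add]
  refine E_mono J ?_
  have e1 : ε / 2 + n * (2 * ε₁ + (n + 1) * ε₀) + (Y + ε₁ + ε₀ - s l) =
      (2 * n + 1) * ε₁ + ε / 2 + (n * (n + 1) + 1) * ε₀ + Y - s l := by ring
  rw [e1, hε11]
  linarith

/-! ### Labels with bounded slopes -/

/-- **Natural affine labels of the window `v`** over the labels `GA` of the window `t`, with slopes
bounded by `2 ^ ((Y - sn l v) J)`, and a closed label of `c 0`. -/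
structure LbwS {J : ℕ} (F : Fam m J) (c : ℕ → Fin m) (n D : ℕ) (sn : ℕ → ℝ → ℝ) (t ε Y : ℝ)
    (GA : PtT F → ℕ → MvPolynomial (Option (Fin m)) ℝ) (B : F.Ω → Prop) (v : ℝ) : Prop where
  lb : ∃ (GB : PtT F → ℕ → MvPolynomial (Option (Fin m)) ℝ)
    (HB : LnT F → ℕ → MvPolynomial (Option (Fin m)) ℝ),
    LbN F c n B v (fun l => sn l t) (fun l => sn l v) ε GA GB HB ∧
    ∀ ω, B ω → SloP F n GB (fun l => sn l v) Y ω
  l0 : Lb0 F c D ⌊v * J⌋₊ ⌊(sn 0 v - ε) * J⌋₊ B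

theorem LbwS.lbw {J : ℕ} {F : Fam m J} {c : ℕ → Fin m} {n D : ℕ} {sn : ℕ → ℝ → ℝ} {t ε Y v : ℝ}
    {GA : PtT F → ℕ → MvPolynomial (Option (Fin m)) ℝ} {B : F.Ω → Prop}
    (h : LbwS F c n D sn t ε Y GA B v) : Lbw F c n D sn t ε GA B v := by
  obtain ⟨⟨GB, HB, h1, -⟩, h2⟩ := h
  exact ⟨⟨GB, HB, h1⟩, h2⟩

theorem LbwS.sub {J : ℕ} {F : Fam m J} {c : ℕ → Fin m} {n D : ℕ} {sn : ℕ → ℝ → ℝ} {t ε Y v : ℝ}
    {GA : PtT F → ℕ → MvPolynomial (Option (Fin m)) ℝ} {B B' : F.Ω → Prop}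
    (h : LbwS F c n D sn t ε Y GA B v) (hB : Sub B' B) : LbwS F c n D sn t ε Y GA B' v := by
  obtain ⟨⟨GB, HB, h1, h3⟩, h2⟩ := h
  exact ⟨⟨GB, HB, h1.sub hB, fun ω hω => h3 ω (hB ω hω)⟩, h2.sub hB⟩

theorem LbwS.le {J : ℕ} {F : Fam m J} {c : ℕ → Fin m} {n D : ℕ} {sn : ℕ → ℝ → ℝ} {t ε ε' Y Y' v : ℝ}
    {GA : PtT F → ℕ → MvPolynomial (Option (Fin m)) ℝ} {B : F.Ω → Prop}
    (h : LbwS F c n D sn t ε Y GA B v) (hε : ε ≤ ε') (hY : Y ≤ Y') :
    LbwS F c n D sn t ε' Y' GA B v := by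
  have h4 := (h.lbw.le hε).l0
  obtain ⟨⟨GB, HB, h1, h3⟩, -⟩ := h
  exact ⟨⟨GB, HB, h1.le hε, fun ω hω => (h3 ω hω).le hY⟩, h4⟩

/-- **Natural affine labels with bounded slopes at finitely many windows.** -/
theorem lbws_ex {S : PCl m} {c : ℕ → Fin m} {n D : ℕ} {sn : ℕ → ℝ → ℝ} {G : Set ℝ}
    {t φ₀ φ₁ s' θ : ℝ} {bl pl : ℕ → ℝ} (hpos : ∀ (τ : ℝ) (J : ℕ) (F : Fam m J) (A : F.Ω → Prop),
      S.St τ J F A → 0 < Pe F.p A) {K : ℕ} {vs : ℕ → ℝ}
    (L : ∀ k < K, Lvl S c n sn G t (vs k) φ₀ φ₁ s' θ bl pl)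
    (h0 : ∀ k < K, ∀ e : ℝ, 0 < e →
      Bas S (fun J F A => Lb0 F c D ⌊vs k * J⌋₊ ⌊(sn 0 (vs k) - e) * J⌋₊ A))
    {ε : ℝ} (hε : 0 < ε) {ε₀ : ℝ}
    (hε₀ : ε₀ = ε + n * ((n + 1) * θ + (3 * s' * φ₀ + 2 * φ₁))) {Y : ℝ}
    (hvY : ∀ k < K, vs k ≤ Y) (hs : ∀ k < K, ∀ l, 1 ≤ l → l ≤ n → ε₀ ≤ sn l (vs k))
    (hlab : ∀ k < K, ∃ (D' : ℕ) (E rd : ℕ → ℝ), (∀ l ≤ n, 0 ≤ E l ∧ sn l (vs k) + E l ≤ Y) ∧
      ∀ e : ℝ, 0 < e → Bas S (fun J F A => ∃ (V : Type) (z : PtT F → V) (z' : LnT F → V)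
        (g : V → ℕ → MvPolynomial (Option (Fin m)) ℝ),
        LbE F c (n + 1) D' E e (vs k) rd (fun l => sn l (vs k)) A z z' g))
    {ε' : ℝ} (hε' : 0 < ε') {η : ℝ} (hη : 0 < η) :
    ∃ e₀ : ℝ, 0 < e₀ ∧ Bas S (fun J F A => ∀ (GA : PtT F → ℕ → MvPolynomial (Option (Fin m)) ℝ)
      (HA : LnT F → ℕ → MvPolynomial (Option (Fin m)) ℝ), LbA F c n bl pl e₀ A GA HA →
      ∃ B : F.Ω → Prop, Sub B A ∧ (1 - η) * Pe F.p A ≤ Pe F.p B ∧ ∀ k < K,
        LbwS F c n D sn t ε₀ (Y + (n * (n + 1) + 1) * ε₀ + ε') GA B (vs k)) := by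
  classical
  have hn0 : (0 : ℝ) ≤ n := Nat.cast_nonneg n
  rcases Nat.eq_zero_or_pos K with hK | hK
  · subst hK
    refine ⟨1, one_pos, 1, one_pos, 0, fun J _ F A hA GA HA _ => ⟨A, fun _ h => h, ?_,
      fun k hk => absurd hk (Nat.not_lt_zero k)⟩⟩
    have := mul_nonneg hη.le (Pe_nonneg F.isLaw A)
    linarith
  have hε₀0 : 0 < ε₀ := by
    have h1 := (L 0 hK).θ0
    have h2 := (L 0 hK).s0
    have h3 := (L 0 hK).φ₀0
    have h4 := (L 0 hK).φ₁0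
    rw [hε₀]
    positivity
  obtain ⟨C₀, htm⟩ := (L 0 hK).tm
  obtain ⟨η₁, hη₁⟩ : ∃ η₁ : ℝ, η₁ = min (η / 2) (1 / 2) := ⟨_, rfl⟩
  have hη10 : 0 < η₁ := by
    rw [hη₁]
    exact lt_min (by linarith) (by norm_num)
  have hη11 : η₁ ≤ η / 2 := by
    rw [hη₁]
    exact min_le_left _ _
  have hη12 : η₁ ≤ 1 / 2 := by
    rw [hη₁]
    exact min_le_right _ _
  obtain ⟨η', hη'⟩ : ∃ η' : ℝ, η' = η₁ / (K + 1) := ⟨_, rfl⟩
  have hη0 : 0 < η' := by
    rw [hη']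
    positivity
  have hη13 : K * η' ≤ η₁ := by
    have h1 : ((K : ℝ) + 1) * η' = η₁ := by
      rw [hη']
      field_simp
    linarith
  obtain ⟨e₀, he₀, H⟩ := lbw_ex hpos L h0 hε hη10
  rw [← hε₀] at H
  have hb : Bas S (fun J F A => ∀ k < K, ∀ (lt : ℕ → ℝ)
      (GA GB : PtT F → ℕ → MvPolynomial (Option (Fin m)) ℝ)
      (HB : LnT F → ℕ → MvPolynomial (Option (Fin m)) ℝ),
      LbN F c n A (vs k) lt (fun l => sn l (vs k)) ε₀ GA GB HB →
      Pb (Pool.Agent.H49.Ent.cond F.p A True)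
        (fun ω => ¬ SloP F n GB (fun l => sn l (vs k)) (Y + (n * (n + 1) + 1) * ε₀ + ε') ω) ≤
          η') := by
    refine Bas.all K fun k hk => ?_
    obtain ⟨d, hnd, hch⟩ := (L k hk).ch
    obtain ⟨u₁, rd, -, hC⟩ := hch.ch _ (L k hk).vG
    obtain ⟨D', E, rd', hE, hl⟩ := hlab k hk
    exact slo_cls htm (hC.take (Nat.zero_le n) hnd) hE (hvY k hk) hl hε₀0.le (hs k hk) hε' hη0
  refine ⟨e₀, he₀, Bas.mono 0 ((H.and (Pool.GRW.bas_half hb)).and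
    ⟨1, one_pos, 0, fun J _ F A hA => hpos 1 J F A hA⟩) ?_⟩
  rintro J - F A ⟨⟨h1, h2⟩, hA⟩ GA HA hl
  obtain ⟨B₁, hB₁, hm₁, hL₁⟩ := h1 GA HA hl
  have hhalf : Pe F.p A ≤ 2 * Pe F.p B₁ := by nlinarith
  have hB₁0 : 0 < Pe F.p B₁ := by linarith
  have h3 := h2 B₁ hB₁ hhalf
  have hex : ∀ k : ℕ, ∃ (GB : PtT F → ℕ → MvPolynomial (Option (Fin m)) ℝ)
      (HB : LnT F → ℕ → MvPolynomial (Option (Fin m)) ℝ), k < K →
      LbN F c n B₁ (vs k) (fun l => sn l t) (fun l => sn l (vs k)) ε₀ GA GB HB := by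
    intro k
    by_cases hk : k < K
    · obtain ⟨GB, HB, h4⟩ := (hL₁ k hk).lb
      exact ⟨GB, HB, fun _ => h4⟩
    · exact ⟨GA, HA, fun h => absurd h hk⟩
  choose GB HB hGB using hex
  have hq := isLaw_cond F.isLaw hB₁0
  obtain ⟨Bad, hBad⟩ : ∃ Bad : F.Ω → Prop, Bad = fun ω => ∃ k < K,
    ¬ SloP F n (GB k) (fun l => sn l (vs k)) (Y + (n * (n + 1) + 1) * ε₀ + ε') ω := ⟨_, rfl⟩
  have hPB : Pb (Pool.Agent.H49.Ent.cond F.p B₁ True) Bad ≤ η₁ := by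
    rw [hBad]
    exact (Pb_ex25 hq.nonneg (fun k ω =>
      ¬ SloP F n (GB k) (fun l => sn l (vs k)) (Y + (n * (n + 1) + 1) * ε₀ + ε') ω) K
      fun k hk => h3 k hk _ GA (GB k) (HB k) (hGB k hk)).trans hη13
  have hm₂ := pe_big hB₁0 hPB
  refine ⟨fun ω => B₁ ω ∧ ¬ Bad ω, fun ω h => hB₁ ω h.1, ?_, fun k hk => ⟨⟨GB k, HB k,
    (hGB k hk).sub fun ω h => h.1, fun ω hω => ?_⟩, (hL₁ k hk).l0.sub fun ω h => h.1⟩⟩
  · have h4 := mul_le_mul_of_nonneg_left hm₁ (show (0 : ℝ) ≤ 1 - η₁ by linarith)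
    have h5 : (1 - η) * Pe F.p A ≤ (1 - η₁) * ((1 - η₁) * Pe F.p A) := by
      rw [← mul_assoc]
      refine mul_le_mul_of_nonneg_right ?_ hA.le
      nlinarith [sq_nonneg η₁]
    exact h5.trans (h4.trans hm₂)
  · by_contra h4
    refine hω.2 ?_
    rw [hBad]
    exact ⟨k, hk, h4⟩

/-! ### The last step -/

/-- A room of the class. -/
def RmX (X : Cx) (R : ℝ) : Prop :=
  R ≤ 1 ∧ ∀ v ∈ X.G, X.b ≤ v → v ≤ X.o → v + R ≤ 1 ∧ ∃ E rd : ℕ → ℝ,
    (∀ l ≤ 3, 0 ≤ E l ∧ X.sn l v + E l + R ≤ 1) ∧ ∀ e : ℝ, 0 < e →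
    Bas X.S (fun J F A => ∃ (V : Type) (z : PtT F → V) (z' : LnT F → V)
      (g : V → ℕ → MvPolynomial (Option (Fin 4)) ℝ),
      LbE F X.c 4 X.D E e v rd (fun l => X.sn l v) A z z' g)

/-- **The room of the class.** -/
noncomputable def roomX (X : Cx) : ℝ := sSup {R | RmX X R}

theorem rmX_of {X : Cx} {s hr T N₀ Λ e κ₀ : ℝ} {L : ℕ} (H : X.Ok s hr T N₀ Λ e κ₀ L)
    (hΛ : 0 ≤ Λ) : RmX X (Λ * X.q) := by
  have Bx := H.box
  have h0 : 0 ≤ Λ * X.q := mul_nonneg hΛ Bx.u0.le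
  refine ⟨by linarith [Bx.o1, Bx.b0, Bx.bw, Bx.wo], fun v hv h1 h2 => ⟨by linarith [Bx.o1], ?_⟩⟩
  obtain ⟨E, rd, ρ, -, h3, h4⟩ := Bx.lab v hv h1 h2
  exact ⟨E, rd, fun l hl => ⟨(h3 l (by omega)).1, (h3 l (by omega)).2.1⟩, h4⟩

theorem room_le {X : Cx} {s hr T N₀ Λ e κ₀ : ℝ} {L : ℕ} (H : X.Ok s hr T N₀ Λ e κ₀ L)
    (hΛ : 0 ≤ Λ) : Λ * X.q ≤ roomX X :=
  le_csSup ⟨1, fun _ h => h.1⟩ (rmX_of H hΛ)

/-- **Natural affine labels of the window `v`** over the frame, with bounded slopes, and a closed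
label of `c 0`. -/
def Lbs (X : Cx) (ε : ℝ) {J : ℕ} (F : Fam 4 J) (B : F.Ω → Prop) (Fr : Frm F) (v : ℝ) : Prop :=
  LbwS F X.c 3 X.D X.sn X.t ε (1 - roomX X + ε) (frG Fr) B v

theorem Lbs.lbx {X : Cx} {ε : ℝ} {J : ℕ} {F : Fam 4 J} {B : F.Ω → Prop} {Fr : Frm F} {v : ℝ}
    (h : Lbs X ε F B Fr v) : Lbx X ε F B Fr v := LbwS.lbw h

theorem Lbs.sub {X : Cx} {ε : ℝ} {J : ℕ} {F : Fam 4 J} {B B' : F.Ω → Prop} {Fr : Frm F} {v : ℝ}
    (h : Lbs X ε F B Fr v) (hB : Sub B' B) : Lbs X ε F B' Fr v := LbwS.sub h hB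

theorem Lbs.le {X : Cx} {ε ε' : ℝ} {J : ℕ} {F : Fam 4 J} {B : F.Ω → Prop} {Fr : Frm F} {v : ℝ}
    (h : Lbs X ε F B Fr v) (hε : ε ≤ ε') : Lbs X ε' F B Fr v :=
  LbwS.le h hε (by linarith)

/-- **The labels and their slopes.** -/
theorem Lbs.slo {X : Cx} {ε : ℝ} {J : ℕ} {F : Fam 4 J} {B : F.Ω → Prop} {Fr : Frm F} {v : ℝ}
    (h : Lbs X ε F B Fr v) {s hr T N₀ Λ e κ₀ : ℝ} {L : ℕ} (H : X.Ok s hr T N₀ Λ e κ₀ L)
    (hΛ : 0 ≤ Λ) : ∃ (GB : PtT F → ℕ → MvPolynomial (Option (Fin 4)) ℝ)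
      (HB : LnT F → ℕ → MvPolynomial (Option (Fin 4)) ℝ),
      LbN F X.c 3 B v (fun l => X.sn l X.t) (fun l => X.sn l v) ε (frG Fr) GB HB ∧
      ∀ ω, B ω → ∀ l, 1 ≤ l → l ≤ 3 → ∀ o, |coeff (Finsupp.single o 1) (GB (ptr F J ω) l)| ≤
        2 ^ ((1 - Λ * X.q - X.sn l v + ε) * J) := by
  obtain ⟨⟨GB, HB, h1, h2⟩, -⟩ := h
  refine ⟨GB, HB, h1, fun ω hω l a b o => (h2 ω hω l a b o).trans (E_mono J ?_)⟩
  have := room_le H hΛ
  show 1 - roomX X + ε - X.sn l v ≤ _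
  linarith

/-- **Natural affine labels with bounded slopes at finitely many windows**, on a part of every large
event. -/
theorem lbs_ex {X : Cx} {s hr T N₀ Λ e κ₀ : ℝ} {L : ℕ} (H : X.Ok s hr T N₀ Λ e κ₀ L) (hs : 1 < s)
    (he : 0 < e) (hΛ : 0 ≤ Λ) (hΛe : (9 * s + 33) * e ≤ 2 * Λ) {K : ℕ} {vs : ℕ → ℝ}
    (hvs : ∀ k < K, vs k ∈ X.G ∧ X.t ≤ vs k ∧ vs k ≤ X.t + Λ * X.q) {ε : ℝ}
    (hε : 14 * ((9 * s + 31) * (e * X.q)) ≤ ε) {η : ℝ} (hη : 0 < η) :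
    ∃ e₀ : ℝ, 0 < e₀ ∧ Bas X.S (fun J F A => ∀ Fr : Frm F, FrmP F X.c (lw X J) (lp X e₀ J) A Fr →
      ∃ B : F.Ω → Prop, Sub B A ∧ (1 - η) * Pe F.p A ≤ Pe F.p B ∧ ∀ k < K, Lbs X ε F B Fr (vs k)) := by
  have Bx := H.box
  have LL := Bx.lad
  have hq := Bx.u0
  have heq : 0 < e * X.q := mul_pos he hq
  have hφ := H.φe
  have hφ0 := LL.φ0
  have hΛq : 0 ≤ Λ * X.q := mul_nonneg hΛ hq.le
  have hto : X.t + Λ * X.q ≤ X.o := Bx.wo
  have hbt : X.b + Λ * X.q ≤ X.t := Bx.bw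
  obtain ⟨E₁, hE₁⟩ : ∃ E₁ : ℝ, E₁ = e * X.q + (3 : ℕ) * (((3 : ℕ) + 1) * (e * X.q) +
    (3 * s * X.φ + 2 * (3 * X.φ))) := ⟨_, rfl⟩
  have hE₁1 : E₁ ≤ (9 * s + 31) * (e * X.q) := by
    have e1 : s * X.φ ≤ s * (e * X.q) := mul_le_mul_of_nonneg_left hφ (by linarith)
    rw [hE₁]
    push_cast
    linarith
  have hE₁0 : 0 < E₁ := by
    rw [hE₁]
    positivity
  have hX0 : 0 < (9 * s + 31) * (e * X.q) := by positivity
  obtain ⟨R, hR, hR1⟩ : ∃ R ∈ {R | RmX X R}, roomX X - (9 * s + 31) * (e * X.q) / 2 < R :=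
    exists_lt_of_lt_csSup ⟨_, rmX_of H hΛ⟩ (by
      show roomX X - (9 * s + 31) * (e * X.q) / 2 < roomX X
      linarith)
  obtain ⟨e₀, he₀, h1⟩ := lbws_ex (D := X.D) H.pos (K := K) (vs := vs)
    (fun k hk => lvl_cx H hs he.le hΛ (hvs k hk).1 (hvs k hk).2.1 (hvs k hk).2.2)
    (fun k hk e' he' => l0_cx H hΛ (hvs k hk).1 (hvs k hk).2.1 (hvs k hk).2.2 he') heq hE₁
    (Y := 1 - R) (fun k hk => by
      have h2 := (hR.2 (vs k) (hvs k hk).1 (by linarith [(hvs k hk).2.1])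
        (by linarith [(hvs k hk).2.2])).1
      linarith) (fun k hk l a b => by
      obtain ⟨g1, g2, g3⟩ := hvs k hk
      have h2 := Bx.lin l a (by omega) (vs k) g1 (by linarith) (by linarith)
      rw [abs_le] at h2
      have h3 := H.nat (l - 1) (by omega)
      rw [show 1 + (l - 1) = l by omega] at h3
      have h4 : 0 ≤ s * (vs k - X.t) := mul_nonneg (by linarith) (by linarith)
      have h5 := Bx.b0
      have h6 : (9 * s + 33) * (e * X.q) ≤ 2 * (Λ * X.q) := by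
        have := mul_le_mul_of_nonneg_right hΛe hq.le
        linarith
      linarith [h2.1]) (fun k hk => by
      obtain ⟨g1, g2, g3⟩ := hvs k hk
      obtain ⟨E, rd, k1, k2⟩ := (hR.2 (vs k) g1 (by linarith) (by linarith)).2
      exact ⟨X.D, E, rd, fun l hl => ⟨(k1 l hl).1, by linarith [(k1 l hl).2]⟩, k2⟩)
    (ε' := (9 * s + 31) * (e * X.q) / 2) (by linarith) hη
  refine ⟨e₀, he₀, Bas.mono 0 h1 ?_⟩
  intro J _ F A h2 Fr hFr
  obtain ⟨B, h3, h4, h5⟩ := h2 (frG Fr) (frH Fr) (lba_of hFr)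
  refine ⟨B, h3, h4, fun k hk => (h5 k hk).le (by linarith) ?_⟩
  push_cast
  linarith

/-- The labels with bounded slopes, in the letters of the last step. -/
def HdS : Hd := fun X ε v _ F B Fr => Lbs X ε F B Fr v

/-- **The labels exist.** -/
theorem stX_s : StX HdS := by
  intro s hr Γ hs _ _ _ _
  refine ⟨1, 0, one_pos, fun κ₀ T N₀ _ _ _ _ => ⟨1, 1400 * (9 * s + 31), 2 / (9 * s + 33),
    by positivity, fun Λ e hΛ he hec X hX μ hμ _ W hW => ?_⟩⟩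
  have hΛe : (9 * s + 33) * e ≤ 2 * Λ := by
    rw [le_div_iff₀ (by linarith)] at hec
    linarith
  obtain ⟨e₀, he₀, h⟩ := lbs_ex hX hs he (by linarith) hΛe (K := W.card)
    (vs := fun k => if h : k < W.card then (W.equivFin.symm ⟨k, h⟩ : ℝ) else 0) (fun k hk => by
      rw [dif_pos hk]
      exact hW _ (W.equivFin.symm ⟨k, hk⟩).2) (ε := μ / 100) (by linarith)
    (show (0 : ℝ) < 1 / 2 by norm_num)
  refine ⟨e₀, he₀, Bas.mono 0 h ?_⟩
  intro J _ F B h1 Fr hFr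
  obtain ⟨B', h2, h3, h4⟩ := h1 Fr hFr
  refine ⟨B', h2, by linarith, fun v hv => ?_⟩
  have h5 := h4 (W.equivFin ⟨v, hv⟩) (W.equivFin ⟨v, hv⟩).2
  rw [dif_pos (W.equivFin ⟨v, hv⟩).2] at h5
  have h6 : ((W.equivFin.symm ⟨(W.equivFin ⟨v, hv⟩ : Fin W.card), (W.equivFin ⟨v, hv⟩).2⟩ : W) : ℝ) =
      v := by
    rw [Fin.eta, Equiv.symm_apply_apply]
  rw [h6] at h5
  exact h5

end Pool.T462
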