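import Pool.Agent.H92.V0F.Vsd

/-!
# The chain over the raw first places

`gs_chk`: at a good window of an order the places `k, …, d - 1` are a chain over the raw places before
`k`, which are full behind the level of the place `k - 1`. `ChkQ`: this at all windows of `G`, with
`aePG_chk`, `her_chk`.
-/

set_option autoImplicit false

namespace Pool.T462

open Finset Real MvPolynomial
open Pool.Agent.H49.Ent Pool.Agent.H32.Dense Pool.STK Pool.KA Pool.KSAT Pool.K2S Pool.PB Pool.GEN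
open Pool.S6C Pool.GRW Pool.PKG
open Pool.TOP (TopS)
open Pool.CHT
open Pool.OWN72 (epo cc_epo cc_inj3 gs_exa gs_vs)
open Pool.LA91 (Chn ChG Att Ful FulC)
open Pool.V0F
open Pool.RCD Pool.LA91 Pool.OWN68

section

variable {n : ℕ} {hn : 2 ≤ n} {S : PCl n} {P : ℝ → ℝ → ℝ} {rr : ℝ → ℝ}
  {P' : ℕ → List (Fin n) × Fin n → ℝ → ℝ → ℝ} {Λ : Finset (Fin n) → Fin n → ℝ → ℝ → ℝ}

/-- **The chain over the raw places before** `k`, at a good window. -/
theorem gs_chk (H : Pk hn S P rr P' Λ) (hTop : TopS n) (hF : FZX (n - 1)) {o : Od n} {w : ℝ}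
    (hw : w ∈ Gs P rr P' Λ o) {k d : ℕ} (hk : k ≤ d) (hd : d ≤ n - 1) :
    ∃ (u₁ : ℝ) (rd : ℕ → ℝ), (∀ l < d, 0 ≤ rd l) ∧
      Chn S (cc hn o.1.1) k d w (if k = 0 then w else LvL hn P P' o (k - 1) w w) u₁
        (fun l => LvL hn P P' o l w w) rd := by
  obtain ⟨u₁, rd, h1, h2⟩ := gs_chn H hTop hF hw (i := d) hd
  obtain ⟨α, Q, c, F⟩ := H.fac hTop hF hw
  have hw0 := F.g0
  have hw1 := F.g1
  have hex := gs_exa H hF hw
  have hWv : w ∈ Wv Λ (epo hn o) := hw.1.1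
  obtain ⟨-, -, hg, hct⟩ := hWv
  have hs0 : ∀ l, w ≤ vs Λ (epo hn o) w l := le_vs H.lam _ hw1.le
  have hth := tht_pos o.2
  have e0 : (if k = 0 then w else LvL hn P P' o (k - 1) w w) = vs Λ (epo hn o) w k := by
    split_ifs with h
    · rw [h]
      rfl
    · have h3 := gs_lvl H hTop hF hw (l := k - 1) (by omega)
      rw [h3]
      congr 1
      omega
  have hlt : vs Λ (epo hn o) w k < 1 := by
    rcases Nat.eq_zero_or_pos k with h | h
    · rw [h]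
      exact hw1
    · obtain ⟨j, rfl⟩ : ∃ j, k = j + 1 := ⟨k - 1, by omega⟩
      rw [← gs_lvl H hTop hF hw (show j < n - 1 by omega), LvL_lt o (by omega)]
      have h3 := F.le j (by omega) w w hw0 le_rfl F.gα
      have h4 := F.thc
      linarith
  rw [e0]
  exact ⟨u₁, rd, h1, hk, h2.inj, h2.w0, hs0 k, hlt, h2.wu1, h2.u1,
    fun i _ b => h2.s0 i (Nat.zero_le _) b, fun i _ b => h2.r1 i (Nat.zero_le _) b,
    fun i _ b => h2.att i (Nat.zero_le _) b,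
    fun u hu _ => Pool.JMP45.ful_of H.tmc H.lam (cc_epo (hn := hn) o) hw.1.1 hex
      (hk.trans hd) hu.le, fun i _ b => h2.pre i (Nat.zero_le _) b, fun ρ hρ =>
      Bas.mono 0 (h2.ful ρ hρ) fun J _ F A h V z z' hz i _ b =>
        h V z z' hz i (Nat.zero_le _) b⟩

end

/-- **The chain over the raw places before** `k` at all windows of `G`. -/
def ChkQ {n : ℕ} (k : ℕ) (_ : ℕ) (S : PCl n) (_ : List (Fin n) × Fin n → ℝ → ℝ → ℝ) (_ : ℝ)
    (c : ℕ → Fin n) (_ : ℝ → ℝ → ℝ) (_ : ℝ → ℝ) (L _ : ℕ → ℝ → ℝ → ℝ) (_ : ℕ → Kg)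
    (G : Set ℝ) (_ : ℝ) : Prop :=
  ∀ w ∈ G, ∀ d, k ≤ d → d ≤ n - 1 → ∃ (u₁ : ℝ) (rd : ℕ → ℝ), (∀ l < d, 0 ≤ rd l) ∧
    Chn S c k d w (if k = 0 then w else L (k - 1) w w) u₁ (fun l => L l w w) rd

theorem her_chk (n : ℕ) : HerQ (ChkQ : PropG n ℕ) := by
  intro p k₀ S S' P θ c Pt r L T κ G x hs h w hw d hk hd
  obtain ⟨u₁, rd, h1, h2⟩ := h w hw d hk hd
  exact ⟨u₁, rd, h1, h2.sub hs⟩

/-- **It holds at almost every window.** -/
theorem aePG_chk (n : ℕ) : AePG n (ChkQ : PropG n ℕ) := by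
  intro hn S P r P' Λ PB PQ H hTop hF o G hG hGs
  exact ⟨S, H.toPk.ne, fun _ _ _ _ h => h, Filter.Eventually.of_forall fun g _ κ _ p =>
    ⟨0, fun w hw d hk hd => gs_chk H.toPk hTop hF (hGs hw) hk hd⟩⟩

end Pool.T462
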