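import Pool.Agent.H62.T4.Num4
import Pool.Agent.H91.T4.Fv
import Pool.Agent.H71.CDX.Cdl

/-!
# The velocities of the targets over affine labels: the family of the numbers

`few_velt`: change of affine labels of the targets, the last target is any place. `fewN_own`: the own
jets are natural. `FewN.tr`, `FewN.late`, `fewN_dig`: transport, later windows, more digits.
-/

set_option autoImplicit false

namespace Pool.T462

open Finset Real MvPolynomial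
open Pool.Agent.H49.Ent Pool.Agent.H32.Dense Pool.STK Pool.KA Pool.KSAT Pool.K2S Pool.PB Pool.S6C
open Pool.GEN Pool.RCD Pool.LA91 Pool.OWN83 Pool.FVL91
open Pool.OWN68 (cl2_vg)
open Pool.GRD (LbP)
open Pool.CDX (AffL)

section

variable {m : ℕ} {U U' : Type} {α β γ : ∀ J : ℕ, Fam m J → Type}
  {f : ∀ (J : ℕ) (F : Fam m J), F.Ω → α J F} {g : ∀ (J : ℕ) (F : Fam m J), F.Ω → β J F}
  {y : ∀ (J : ℕ) (F : Fam m J), F.Ω → γ J F} {S : PCl m}

/-- **Transport.** -/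
theorem FewN.tr
    (hpos : ∀ (τ : ℝ) (J : ℕ) (F : Fam m J) (A : F.Ω → Prop), S.St τ J F A → 0 < Pe F.p A)
    {Q : Qt m U} {Q' : Qt m U'} {δ : ℝ} (h1 : FewN S f g y Q δ) (h2 : Few S f g y Q Q')
    (hx : Exs S Q) : FewN S f g y Q' δ := by
  intro h hh
  obtain ⟨e1, he1, H1⟩ := h1 (h / 2) (half_pos hh)
  obtain ⟨e2, he2, H2⟩ := h2 (h / 2) (half_pos hh)
  refine ⟨min e1 e2, lt_min he1 he2, fun K => ?_⟩
  obtain ⟨K', M, hX⟩ := hx (min e1 e2) (lt_min he1 he2)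
  refine Bas.mono 0 (((H1 (max K K')).and (H2 (max K K'))).and (hX.and (pos_bas hpos))) ?_
  rintro J - F A ⟨⟨a1, a2⟩, ⟨u, hu, -⟩, hA⟩ u' hu'
  have hcl := isLaw_cond F.isLaw hA
  obtain ⟨V₁, z₁, hz₁, b1⟩ := a1 u (Q.mono (le_max_right _ _) (min_le_left _ _) hu)
  obtain ⟨V₂, z₂, hz₂, b2⟩ := a2 u u' (Q.mono (le_max_right _ _) (min_le_right _ _) hu)
    (Q'.mono (le_max_left _ _) (min_le_right _ _) hu')
  refine ⟨_, fun ω => (z₁ ω, z₂ ω), hz₁.join hz₂, ?_⟩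
  have c1 := CH_le_add hcl.nonneg u' u (fun ω => ((z₁ ω, z₂ ω), y J F ω))
  have c2 : CH (Pool.Agent.H49.Ent.cond F.p A True) u (fun ω => ((z₁ ω, z₂ ω), y J F ω)) ≤
      CH (Pool.Agent.H49.Ent.cond F.p A True) u (fun ω => (z₁ ω, y J F ω)) :=
    CH_mono_cond hcl.nonneg fun ω ω' _ _ hh => by
      simp only [Prod.mk.injEq] at hh ⊢
      exact ⟨hh.1.1, hh.2⟩
  have c3 : CH (Pool.Agent.H49.Ent.cond F.p A True) u'
      (fun ω => (u ω, ((z₁ ω, z₂ ω), y J F ω))) ≤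
      CH (Pool.Agent.H49.Ent.cond F.p A True) u' (fun ω => (u ω, (z₂ ω, y J F ω))) :=
    CH_mono_cond hcl.nonneg fun ω ω' _ _ hh => by
      simp only [Prod.mk.injEq] at hh ⊢
      exact ⟨hh.1, hh.2.1.2, hh.2.2⟩
  have e1 : (δ + h) * (J : ℝ) = (δ + h / 2) * J + h / 2 * J := by ring
  linarith

/-- A larger bound. -/
theorem FewN.le {Q : Qt m U} {δ δ' : ℝ} (h : FewN S f g y Q δ) (hδ : δ ≤ δ') :
    FewN S f g y Q δ' := by
  intro c hc
  obtain ⟨e, he, H⟩ := h c hc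
  refine ⟨e, he, fun K => Bas.mono 0 (H K) ?_⟩
  rintro J - F A a u hu
  obtain ⟨V, z, hz, b⟩ := a u hu
  exact ⟨V, z, hz, b.trans (mul_le_mul_of_nonneg_right (by linarith) (Nat.cast_nonneg J))⟩

/-- At a later window. -/
theorem FewN.late {Q : Qt m U} {δ w x : ℝ} (hwx : w ≤ x) (hx : x ≤ 1)
    (h : FewN S f (vg w) y Q δ) : FewN S f (vg x) y Q δ := by
  intro c hc
  obtain ⟨e, he, H⟩ := h c hc
  refine ⟨e, he, fun K => Bas.mono 0 (H K) ?_⟩
  rintro J - F A a u hu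
  obtain ⟨V, z, hz, b⟩ := a u hu
  exact ⟨V, z, cl2_vg hwx hx hz, b⟩

/-- The tuple of finitely many functions. -/
theorem ch_fin_le {Ω W : Type} [Fintype Ω] {p : Ω → ℝ} (hl : IsLaw p) (X : ℕ → Ω → ℤ)
    (Z : Ω → W) (n : ℕ) :
    CH p (fun ω (l : Fin n) => X l ω) Z ≤ ∑ l ∈ range n, CH p (X l) Z := by
  have hp := hl.nonneg
  induction n with
  | zero =>
    rw [Finset.sum_range_zero]
    have h1 := CH_le_int hl.nonneg hl.sum_one (fun _ : Ω => (0 : ℤ)) Z (fun _ => 0)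
      (fun _ _ _ _ _ => by simp)
    rw [Ex_const hl.sum_one] at h1
    have h2 : CH p (fun ω (i : Fin 0) => X i ω) Z ≤ CH p (fun _ : Ω => (0 : ℤ)) Z :=
      CH_mono_left hl.nonneg fun ω ω' _ _ _ => funext fun i => absurd i.2 (Nat.not_lt_zero _)
    have h3 : Real.log (2 * 0 + 1) = 0 := by norm_num
    rw [h3] at h1
    linarith
  | succ n ih =>
    rw [Finset.sum_range_succ]
    have h1 := CH_le_add hp (fun ω (l : Fin (n + 1)) => X l ω) (fun ω (l : Fin n) => X l ω) Z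
    have h2 : CH p (fun ω (l : Fin (n + 1)) => X l ω)
        (fun ω => ((fun (l : Fin n) => X l ω), Z ω)) ≤ CH p (X n)
        (fun ω => ((fun (l : Fin n) => X l ω), Z ω)) := by
      refine CH_mono_left hp fun ω ω' _ _ hh => ?_
      simp only [Prod.mk.injEq] at hh
      funext l
      rcases Nat.lt_or_ge l n with h3 | h3
      · exact congrFun hh.2.1 ⟨l, h3⟩
      · have h4 : (l : ℕ) = n := by omega
        rw [h4]
        exact hh.1
    have h3 : CH p (X n) (fun ω => ((fun (l : Fin n) => X l ω), Z ω)) ≤ CH p (X n) Z :=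
      CH_mono_cond hp fun ω ω' _ _ hh => (Prod.ext_iff.mp hh).2
    linarith

theorem ch_vel_le {Ω W : Type} [Fintype Ω] {p : Ω → ℝ} (hl : IsLaw p) {u : Ω → ℕ → ℤ} {n : ℕ}
    (hz : ∀ ω, 0 < p ω → ∀ l, ¬ l < n → u ω l = 0) (Z : Ω → W) :
    CH p u Z ≤ ∑ l ∈ range n, CH p (fun ω => u ω l) Z := by
  have hp := hl.nonneg
  refine le_trans (CH_mono_left hp (X' := fun ω (l : Fin n) => u ω l) fun ω ω' hω hω' hh => ?_)
    (ch_fin_le hl (fun l ω => u ω l) Z n)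
  have h2 := (Prod.ext_iff.mp hh).1
  funext l
  rcases Nat.lt_or_ge l n with h3 | h3
  · exact congrFun h2 ⟨l, h3⟩
  · rw [hz ω hω l (by omega), hz ω' hω' l (by omega)]

/-- **The own jets are natural.** -/
theorem fewN_own {C₀ : ℝ} (htm : TmC S C₀) {I : Finset (Fin m)} {k : Fin m} {j : ℕ}
    {w x p N σ₀ : ℝ} (hx0 : 0 ≤ x) (hx1 : x < 1) (hwx : w ≤ x) (hσ₀ : 0 < σ₀)
    (h : N + j * x + σ₀ ≤ p) : FewN S f g y (FVL91.qAf m I k j w p N) 0 := by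
  classical
  intro h' hh
  have hj0 : (0 : ℝ) ≤ j := Nat.cast_nonneg j
  obtain ⟨ε, hε⟩ : ∃ ε : ℝ, ε = min (σ₀ / 4) 1 := ⟨_, rfl⟩
  have hε0 : 0 < ε := by rw [hε]; exact lt_min (by positivity) one_pos
  have hε1 : ε ≤ σ₀ / 4 := by rw [hε]; exact min_le_left _ _
  obtain ⟨KM, hKM⟩ : ∃ KM : ℝ, KM = |N| + j + 4 := ⟨_, rfl⟩
  have hKM0 : 0 ≤ KM := by rw [hKM]; positivity
  obtain ⟨η, hη⟩ : ∃ η : ℝ, η = h' / (2 * (KM + 1)) := ⟨_, rfl⟩
  have hη0 : 0 < η := by rw [hη]; positivity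
  have hηK : η * KM ≤ h' / 2 := by
    have e3 : η * KM = h' / 2 * (KM / (KM + 1)) := by
      rw [hη]
      field_simp
    have e4 : KM / (KM + 1) ≤ 1 := by
      rw [div_le_one (by positivity)]
      linarith
    rw [e3]
    exact mul_le_of_le_one_right (by positivity) e4
  obtain ⟨J₅, hJ₅⟩ := exists_nat_ge ((Real.log 2 + Real.log 7) / (h' / 2))
  refine ⟨σ₀ / 4, by positivity, fun K => Bas.mono (J₅ + 1) ((own_cls htm I k j 1 hx0 hx1 hη0
    hε0).and (Pool.GRW.tmc_bas htm one_pos)) ?_⟩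
  rintro J hJ F A ⟨hown, hA, -⟩ u ⟨V, z, z', G, hl, hu⟩
  have hJ0 : (0 : ℝ) ≤ J := Nat.cast_nonneg J
  have hJ1 : 1 ≤ J := by omega
  have hq := isLaw_cond F.isLaw hA
  have hcu := cnt_cfl (p := F.p) hJ1 hu
  rw [← hKM] at hcu
  have hxJ : ⌊x * (J : ℝ)⌋₊ ≤ J := floor_le hx1.le J
  have hwJ : ⌊w * (J : ℝ)⌋₊ ≤ ⌊x * J⌋₊ := Nat.floor_le_floor (mul_le_mul_of_nonneg_right hwx hJ0)
  have hl' := hl.win hwJ hxJ
  have hb := hown _ _ _ _ _ hl'
  have f5 : Real.log 2 + Real.log 7 ≤ h' / 2 * J := by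
    have e1 : (J₅ : ℝ) ≤ J := by exact_mod_cast (show J₅ ≤ J by omega)
    have e2 := hJ₅.trans e1
    rw [div_le_iff₀ (by positivity)] at e2
    linarith
  refine ⟨Unit, fun _ => (), ⟨⟨fun _ => (), fun _ _ => rfl⟩, fun _ => (), fun _ _ => rfl⟩, ?_⟩
  have key := CH_near hq u (fun ω => ((), y J F ω)) (fun _ => 0) _
    (M := KM * J) (D := 3) hb (by positivity) (by norm_num)
    (le_trans (by exact_mod_cast cnt_cond_le F.isLaw u A) hcu) ?_
  · have e1 : η * (KM * J) ≤ h' / 2 * J := by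
      calc η * (KM * J) = η * KM * J := by ring
        _ ≤ h' / 2 * J := mul_le_mul_of_nonneg_right hηK hJ0
    have e2 : (2 : ℝ) * 3 + 1 = 7 := by norm_num
    rw [e2] at key
    rw [zero_add]
    linarith
  intro ω hω hgood
  have hωA : A ω := of_cond_pos hω
  simp only [not_not] at hgood
  have e0 : z' (slam F ⌊w * J⌋₊ ω) =
      (fun s => z' (s.1, s.2.1, s.2.2 / 2 ^ (⌊x * J⌋₊ - ⌊w * J⌋₊))) (slam F ⌊x * J⌋₊ ω) := by
    show _ = z' ((slam F ⌊x * J⌋₊ ω).1, (slam F ⌊x * J⌋₊ ω).2.1,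
      (slam F ⌊x * J⌋₊ ω).2.2 / 2 ^ (⌊x * J⌋₊ - ⌊w * J⌋₊))
    rw [← slam_coarse F hwJ hxJ ω]
  have hgood' : |ojet F k j (G (z' (slam F ⌊w * J⌋₊ ω))) ω| ≤
      2 ^ ((ε + j * x) * J) * (1 / 2 ^ ⌊(p - σ₀ / 4) * J⌋₊) := by
    rw [e0]
    exact hgood
  rw [hu ω hωA, sub_zero]
  obtain ⟨o, ho⟩ : ∃ o, o = ojet F k j (G (z' (slam F ⌊w * J⌋₊ ω))) ω := ⟨_, rfl⟩
  rw [← ho] at hgood' ⊢
  have b1 : |(2 : ℝ) ^ (N * J) * o| ≤ 2 := by
    have c1 := E_inv_floor J (p - σ₀ / 4)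
    rw [abs_mul, abs_of_pos (E_pos J N)]
    calc (2 : ℝ) ^ (N * J) * |o| ≤ 2 ^ (N * J) * (2 ^ ((ε + j * x) * J) *
          (2 * 2 ^ (-(p - σ₀ / 4) * J))) := mul_le_mul_of_nonneg_left
          (hgood'.trans (mul_le_mul_of_nonneg_left c1 (E_pos J _).le)) (E_pos J N).le
      _ = 2 * (2 ^ (N * J) * 2 ^ ((ε + j * x) * J) * 2 ^ (-(p - σ₀ / 4) * J)) := by ring
      _ = 2 * 2 ^ ((N + (ε + j * x) + -(p - σ₀ / 4)) * J) := by rw [E_add, E_add]
      _ ≤ 2 * 2 ^ ((0 : ℝ) * J) := mul_le_mul_of_nonneg_left (E_mono J (by linarith))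
          (by norm_num)
      _ = 2 := by rw [zero_mul, Real.rpow_zero, mul_one]
  unfold cfl
  split_ifs with h
  · have f1 := Int.floor_le ((2 : ℝ) ^ (N * J) * o)
    have f2 := Int.lt_floor_add_one ((2 : ℝ) ^ (N * J) * o)
    rw [abs_le] at b1 ⊢
    constructor <;> linarith [b1.1, b1.2]
  · rw [Int.cast_zero, abs_zero]
    norm_num

/-- **The quantities of all targets.** -/
theorem fewN_qvel
    (hpos : ∀ (τ : ℝ) (J : ℕ) (F : Fam m J) (A : F.Ω → Prop), S.St τ J F A → 0 < Pe F.p A)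
    {c : ℕ → Fin m} {k n j : ℕ} {w p N : ℕ → ℝ}
    (h : ∀ l < n, FewN S f g y (FVL91.qAf m ((range (k + l)).image c) (c (k + l)) j (w l) (p l) (N l)) 0) :
    FewN S f g y (qVel m c k n j w p N) 0 := by
  have key : ∀ n' ≤ n, ∀ c' : ℝ, 0 < c' → ∃ e₀ : ℝ, 0 < e₀ ∧ ∀ K : ℕ, Bas S (fun J F A =>
      ∀ X : ℕ → F.Ω → ℤ, (∀ l < n', (FVL91.qAf m ((range (k + l)).image c) (c (k + l)) j (w l) (p l)
        (N l)).P K e₀ J F A (X l)) → ∃ (V : Type) (z : F.Ω → V), Cl2 (f J F) (g J F) A z ∧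
        ∑ l ∈ range n', CH (Pool.Agent.H49.Ent.cond F.p A True) (X l)
          (fun ω => (z ω, y J F ω)) ≤ c' * J) := by
    intro n'
    induction n' with
    | zero =>
      intro _ c' hc'
      refine ⟨1, one_pos, fun K => Bas.mono 0 (pos_bas hpos) ?_⟩
      rintro J - F A hA X -
      refine ⟨Unit, fun _ => (), ⟨⟨fun _ => (), fun _ _ => rfl⟩, fun _ => (), fun _ _ => rfl⟩, ?_⟩
      rw [Finset.sum_range_zero]
      positivity
    | succ n' ih =>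
      intro hn' c' hc'
      obtain ⟨e1, he1, H1⟩ := ih (by omega) (c' / 2) (half_pos hc')
      obtain ⟨e2, he2, H2⟩ := h n' (by omega) (c' / 2) (half_pos hc')
      refine ⟨min e1 e2, lt_min he1 he2, fun K => Bas.mono 0 (((H1 K).and (H2 K)).and
        (pos_bas hpos)) ?_⟩
      rintro J - F A ⟨⟨a1, a2⟩, hA⟩ X hX
      have hcl := isLaw_cond F.isLaw hA
      obtain ⟨V₁, z₁, hz₁, b1⟩ := a1 X fun l hl => (FVL91.qAf m _ _ _ _ _ _).mono le_rfl
        (min_le_left _ _) (hX l (by omega))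
      obtain ⟨V₂, z₂, hz₂, b2⟩ := a2 (X n') ((FVL91.qAf m _ _ _ _ _ _).mono le_rfl
        (min_le_right _ _) (hX n' (by omega)))
      refine ⟨_, fun ω => (z₁ ω, z₂ ω), hz₁.join hz₂, ?_⟩
      rw [Finset.sum_range_succ]
      have c1 : ∑ l ∈ range n', CH (Pool.Agent.H49.Ent.cond F.p A True) (X l)
          (fun ω => ((z₁ ω, z₂ ω), y J F ω)) ≤
          ∑ l ∈ range n', CH (Pool.Agent.H49.Ent.cond F.p A True) (X l)
            (fun ω => (z₁ ω, y J F ω)) :=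
        sum_le_sum fun l _ => CH_mono_cond hcl.nonneg fun ω ω' _ _ hh => by
          simp only [Prod.mk.injEq] at hh ⊢
          exact ⟨hh.1.1, hh.2⟩
      have c2 : CH (Pool.Agent.H49.Ent.cond F.p A True) (X n')
          (fun ω => ((z₁ ω, z₂ ω), y J F ω)) ≤
          CH (Pool.Agent.H49.Ent.cond F.p A True) (X n') (fun ω => (z₂ ω, y J F ω)) :=
        CH_mono_cond hcl.nonneg fun ω ω' _ _ hh => by
          simp only [Prod.mk.injEq] at hh ⊢
          exact ⟨hh.1.2, hh.2⟩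
      rw [zero_add] at b2
      have e1 : c' * (J : ℝ) = c' / 2 * J + c' / 2 * J := by ring
      linarith
  intro h' hh
  obtain ⟨e, he, H⟩ := key n le_rfl h' hh
  refine ⟨e, he, fun K => Bas.mono 0 ((H K).and (pos_bas hpos)) ?_⟩
  rintro J - F A ⟨a, hA⟩ u ⟨hu, hz⟩
  have hcl := isLaw_cond F.isLaw hA
  obtain ⟨V, z, hzc, b⟩ := a (fun l ω => u ω l) hu
  refine ⟨V, z, hzc, ?_⟩
  rw [zero_add]
  exact (ch_vel_le hcl (fun ω hω => hz ω (of_cond_pos hω)) _).trans b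

end

end Pool.T462
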