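import Pool.Agent.H36.T4.Frm
import Pool.Agent.H62.T4.Num4b

/-!
# The frame exists: the cut of the velocities

`frm_cut`: with affine closed labels of the targets at windows at most `w` there is a frame on a part of
the event which has almost full measure, the velocities are bounded there. `pe_keep`: the measure off a
rare event.
-/

set_option autoImplicit false

namespace Pool.T462

open Finset Real MvPolynomial
open Pool.Agent.H49.Ent Pool.Agent.H32.Dense Pool.STK Pool.KA Pool.KSAT Pool.K2S Pool.PB Pool.GEN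
open Pool.S6C Pool.RCD Pool.LA91
open Pool.BFL (Pb)
open Pool.CDX (AffL)
open Pool.GRD (LbP)
open Pool.T4N (Frm FrmP)

variable {m : ℕ}

/-- The measure off a rare event. -/
theorem pe_keep {Ω : Type} [Fintype Ω] {p : Ω → ℝ} {A : Ω → Prop} (hA : 0 < Pe p A)
    {N : Ω → Prop} {η : ℝ} (h : Pb (Pool.Agent.H49.Ent.cond p A True) N ≤ η) :
    (1 - η) * Pe p A ≤ Pe p (fun ω => A ω ∧ ¬ N ω) := by
  rw [Pool.LA91.Pb_cond hA, div_le_iff₀ hA] at h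
  have e : Pe p A = Pe p (fun ω => A ω ∧ N ω) + Pe p (fun ω => A ω ∧ ¬ N ω) := by
    classical
    rw [Pe_eq, Pe_eq, Pe_eq, ← Finset.sum_add_distrib]
    refine Finset.sum_congr rfl fun ω _ => ?_
    by_cases h1 : A ω <;> by_cases h2 : N ω <;> simp [h1, h2]
  linarith

/-- **The frame exists** on a part of the event of almost full measure: the labels of the windows
`bl i ≤ w < 1`, the velocities are at most `4 ^ J` there. -/
theorem frm_cut {S : PCl m} {C₀ : ℝ} (htm : TmC S C₀) {c : ℕ → Fin m} {w : ℝ} {bl pl : ℕ → ℝ}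
    (hw0 : 0 ≤ w) (hw1 : w < 1) (hl : ∀ l < 3, bl l ≤ w ∧
      AffL S ((range (1 + l)).image c) (c (1 + l)) (bl l) (pl l)) {δ e : ℝ} (hδ : 0 < δ)
    (he : 0 < e) : Bas S (fun J F A => ∃ (B : F.Ω → Prop) (Fr : Frm F), Sub B A ∧
      (1 - δ) * Pe F.p A ≤ Pe F.p B ∧
      FrmP F c (fun i => ⌊bl i * J⌋₊) (fun i => ⌊(pl i - e) * J⌋₊) B Fr) := by
  classical
  have hη : 0 < δ / 3 := by positivity
  refine Bas.mono 0 (((Bas.all 3 fun l hl3 => (hl l hl3).2 e he).and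
    (Bas.all 3 fun l _ => own_cls htm ((range (1 + l)).image c) (c (1 + l)) 1 1 hw0 hw1 hη
      one_pos)).and (Pool.GRW.tmc_bas htm one_pos)) ?_
  rintro J - F A ⟨⟨hlab, hown⟩, hA, -⟩
  have hJ0 : (0 : ℝ) ≤ J := Nat.cast_nonneg J
  have hq := isLaw_cond F.isLaw hA
  choose V z z' G hlb using fun i : Fin 3 => hlab (i : ℕ) i.2
  obtain ⟨Fr, hFr⟩ : ∃ Fr : Frm F, Fr = ⟨V, z, z', G⟩ := ⟨_, rfl⟩
  obtain ⟨N, hN⟩ : ∃ N : F.Ω → Prop, N = fun ω => ∃ i ∈ (Finset.univ : Finset (Fin 3)),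
    ¬ |ojet F (c (1 + i)) 1 (G i (z' i (slam F ⌊bl i * J⌋₊ ω))) ω| ≤ 2 ^ (2 * J) := ⟨_, rfl⟩
  have hxJ : ⌊w * (J : ℝ)⌋₊ ≤ J := floor_le hw1.le J
  have hone : ∀ i : Fin 3, Pb (Pool.Agent.H49.Ent.cond F.p A True) (fun ω =>
      ¬ |ojet F (c (1 + i)) 1 (G i (z' i (slam F ⌊bl i * J⌋₊ ω))) ω| ≤ 2 ^ (2 * J)) ≤ δ / 3 := by
    intro i
    have hwJ : ⌊bl i * (J : ℝ)⌋₊ ≤ ⌊w * J⌋₊ :=
      Nat.floor_le_floor (mul_le_mul_of_nonneg_right (hl i i.2).1 hJ0)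
    have hl' := (hlb i).win hwJ hxJ
    have hb := hown (i : ℕ) i.2 _ _ _ _ _ hl'
    refine le_trans (Pool.GRD.Pb_mono_pos hq.nonneg fun ω _ hω => ?_) hb
    intro hcon
    refine hω ?_
    have e0 : z' i (slam F ⌊bl i * J⌋₊ ω) =
        (fun s => z' i (s.1, s.2.1, s.2.2 / 2 ^ (⌊w * J⌋₊ - ⌊bl i * J⌋₊))) (slam F ⌊w * J⌋₊ ω) := by
      show _ = z' i ((slam F ⌊w * J⌋₊ ω).1, (slam F ⌊w * J⌋₊ ω).2.1,
        (slam F ⌊w * J⌋₊ ω).2.2 / 2 ^ (⌊w * J⌋₊ - ⌊bl i * J⌋₊))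
      rw [← slam_coarse F hwJ hxJ ω]
    rw [e0]
    refine hcon.trans ?_
    have h1 : (2 : ℝ) ^ ((1 + (1 : ℕ) * w) * (J : ℝ)) ≤ 2 ^ (2 * J) := by
      rw [← Real.rpow_natCast]
      refine Real.rpow_le_rpow_of_exponent_le (by norm_num) ?_
      push_cast
      nlinarith
    have h2 : (1 : ℝ) / 2 ^ ⌊(pl i - e) * J⌋₊ ≤ 1 := by
      rw [div_le_one (by positivity)]
      exact one_le_pow₀ (by norm_num)
    calc (2 : ℝ) ^ ((1 + (1 : ℕ) * w) * (J : ℝ)) * (1 / 2 ^ ⌊(pl i - e) * J⌋₊) ≤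
        2 ^ (2 * J) * 1 := mul_le_mul h1 h2 (by positivity) (by positivity)
      _ = 2 ^ (2 * J) := mul_one _
  have hN3 : Pb (Pool.Agent.H49.Ent.cond F.p A True) N ≤ δ := by
    rw [hN]
    refine (Pool.UP35.Pb_union hq.nonneg Finset.univ _ fun i _ => hone i).trans (le_of_eq ?_)
    rw [Finset.card_univ, Fintype.card_fin]
    push_cast
    ring
  refine ⟨fun ω => A ω ∧ ¬ N ω, Fr, fun ω h => h.1, pe_keep hA hN3, ?_, ?_⟩
  · intro i
    rw [hFr]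
    exact (hlb i).sub fun ω h => h.1
  · intro ω hω i
    rw [hFr]
    have h := hω.2
    rw [hN] at h
    push Not at h
    exact h i (Finset.mem_univ i)

/-- `frm_cut` for labels at a window. -/
theorem frm_cut_at {S : PCl m} {C₀ : ℝ} (htm : TmC S C₀) {c : ℕ → Fin m} {sn : ℕ → ℝ → ℝ}
    {w φ : ℝ} {bl pl : ℕ → ℝ} (hw0 : 0 ≤ w) (hw1 : w < 1)
    (hl : Pool.T4N.AffAt S c sn w φ bl pl) {δ e : ℝ} (hδ : 0 < δ) (he : 0 < e) :
    Bas S (fun J F A => ∃ (B : F.Ω → Prop) (Fr : Frm F), Sub B A ∧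
      (1 - δ) * Pe F.p A ≤ Pe F.p B ∧
      FrmP F c (fun i => ⌊bl i * J⌋₊) (fun i => ⌊(pl i - e) * J⌋₊) B Fr) :=
  frm_cut htm hw0 hw1 (fun l h => ⟨(hl l h).1, (hl l h).2.2⟩) hδ he

end Pool.T462
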