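import Pool.Agent.H62.T4.Num4b

/-!
# The velocities of the targets over affine labels: more digits, other labels

`fewN_dig`: more digits over the same labels. `few_velt`: change of affine labels of the targets; the
last target is any place.
-/

set_option autoImplicit false

namespace Pool.T462

open Finset Real MvPolynomial
open Pool.Agent.H49.Ent Pool.Agent.H32.Dense Pool.STK Pool.KA Pool.KSAT Pool.K2S Pool.PB Pool.S6C
open Pool.GEN Pool.RCD Pool.LA91 Pool.OWN83 Pool.FVL91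
open Pool.OWN68 (cl2_vg)
open Pool.GRD (LbP)
open Pool.CDX (AffL)
open Pool.BFL (Pb)

/-- A function with few values near a function of the condition, deterministic. -/
theorem ch_near0 {Ω W : Type} [Fintype Ω] {p : Ω → ℝ} (hp : IsLaw p) (X : Ω → ℤ) (Z : Ω → W)
    (κ : W → ℝ) {D : ℝ} (hD : 0 ≤ D) (hg : ∀ ω, 0 < p ω → |(X ω : ℝ) - κ (Z ω)| ≤ D) :
    CH p X Z ≤ Real.log 2 + Real.log (2 * D + 1) := by
  classical
  obtain ⟨M, hM⟩ := exists_nat_ge (Real.log (cnt p X (fun _ => True) : ℝ))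
  have h0 : Pb p (fun _ => False) ≤ 0 := by
    refine le_of_eq ?_
    unfold Pb
    refine Finset.sum_eq_zero fun ω _ => ?_
    simp
  have h1 : (cnt p X (fun _ => True) : ℝ) ≤ Real.exp M := by
    rcases Nat.eq_zero_or_pos (cnt p X (fun _ => True)) with h | h
    · rw [h, Nat.cast_zero]
      exact (Real.exp_pos _).le
    · have h2 : (0 : ℝ) < cnt p X (fun _ => True) := by exact_mod_cast h
      rw [← Real.log_le_iff_le_exp h2]
      exact hM
  have key := CH_near hp X Z κ (fun _ => False) (η := 0) (M := M) (D := D) h0 (Nat.cast_nonneg M)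
    hD h1 (fun ω hω _ => hg ω hω)
  rw [zero_mul, add_zero] at key
  exact key

/-- Digits of two accuracies. -/
theorem cfl_dig {j J : ℕ} {N N' o : ℝ} (h : N ≤ N') :
    |(cfl j J N' o : ℝ) - 2 ^ ((N' - N) * J) * cfl j J N o| ≤ 2 * 2 ^ ((N' - N) * J) := by
  have h1 : (1 : ℝ) ≤ 2 ^ ((N' - N) * J) := E_one (by linarith)
  unfold cfl
  split_ifs with h2
  · have f1 := Int.floor_le ((2 : ℝ) ^ (N' * J) * o)
    have f2 := Int.lt_floor_add_one ((2 : ℝ) ^ (N' * J) * o)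
    have f3 := Int.floor_le ((2 : ℝ) ^ (N * J) * o)
    have f4 := Int.lt_floor_add_one ((2 : ℝ) ^ (N * J) * o)
    have e1 : (2 : ℝ) ^ ((N' - N) * J) * (2 ^ (N * J) * o) = 2 ^ (N' * J) * o := by
      rw [← mul_assoc, E_add]
      congr 3
      ring
    have e2 := mul_le_mul_of_nonneg_left f3 (zero_le_one.trans h1)
    have e3 := mul_le_mul_of_nonneg_left f4.le (zero_le_one.trans h1)
    rw [e1] at e2 e3
    rw [abs_le]
    constructor <;> linarith
  · rw [Int.cast_zero, mul_zero, sub_zero, abs_zero]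
    linarith

section

variable {m : ℕ} {U U' : Type} {α β γ : ∀ J : ℕ, Fam m J → Type}
  {f : ∀ (J : ℕ) (F : Fam m J), F.Ω → α J F} {g : ∀ (J : ℕ) (F : Fam m J), F.Ω → β J F}
  {y : ∀ (J : ℕ) (F : Fam m J), F.Ω → γ J F} {S : PCl m}

/-- **More digits** over the same labels. -/
theorem fewN_dig
    (hpos : ∀ (τ : ℝ) (J : ℕ) (F : Fam m J) (A : F.Ω → Prop), S.St τ J F A → 0 < Pe F.p A)
    {c : ℕ → Fin m} {k n j : ℕ} {w p N N' : ℕ → ℝ} {δ : ℝ}
    (h : FewN S f g y (qVel m c k n j w p N) δ) (hN : ∀ l < n, N l ≤ N' l) :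
    FewN S f g y (qVel m c k n j w p N') (δ + ∑ l ∈ range n, (N' l - N l) * Real.log 2) := by
  classical
  intro h' hh
  obtain ⟨e, he, H⟩ := h (h' / 2) (half_pos hh)
  obtain ⟨J₅, hJ₅⟩ := exists_nat_ge (n * (Real.log 2 + Real.log 5) / (h' / 2))
  refine ⟨e, he, fun K => Bas.mono J₅ ((H K).and (pos_bas hpos)) ?_⟩
  rintro J hJ F A ⟨a, hA⟩ u ⟨hu, hz⟩
  have hcl := isLaw_cond F.isLaw hA
  have hJ0 : (0 : ℝ) ≤ J := Nat.cast_nonneg J
  have f5 : n * (Real.log 2 + Real.log 5) ≤ h' / 2 * J := by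
    have e1 : (J₅ : ℝ) ≤ J := by exact_mod_cast hJ
    have e2 := hJ₅.trans e1
    rw [div_le_iff₀ (by positivity)] at e2
    linarith
  -- the coarse digits
  have hex : ∀ l, ∃ X : F.Ω → ℤ, l < n → (FVL91.qAf m ((range (k + l)).image c) (c (k + l)) j
      (w l) (p l) (N l)).P K e J F A X ∧ ∀ ω, A ω →
        |(u ω l : ℝ) - 2 ^ ((N' l - N l) * J) * X ω| ≤ 2 * 2 ^ ((N' l - N l) * J) := by
    intro l
    by_cases hl : l < n
    · obtain ⟨V, z, z', G, h1, h2⟩ := hu l hl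
      refine ⟨fun ω => cfl j J (N l) (ojet F (c (k + l)) j (G (z' (slam F ⌊w l * J⌋₊ ω))) ω),
        fun _ => ⟨⟨V, z, z', G, h1, fun _ _ => rfl⟩, fun ω hω => ?_⟩⟩
      have h3 : u ω l = _ := h2 ω hω
      rw [h3]
      exact cfl_dig (hN l hl)
    · exact ⟨fun _ => 0, fun h => absurd h hl⟩
  choose X hX using hex
  obtain ⟨V, z, hzc, b⟩ := a (fun ω l => if l < n then X l ω else 0)
    ⟨fun l hl => by
      have e1 : (fun ω => if l < n then X l ω else 0) = X l := by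
        funext ω
        exact if_pos hl
      rw [e1]
      exact (hX l hl).1, fun ω _ l hl => if_neg hl⟩
  refine ⟨V, z, hzc, ?_⟩
  have c1 := CH_le_add hcl.nonneg u (fun ω l => if l < n then X l ω else 0)
    (fun ω => (z ω, y J F ω))
  have c2 := ch_vel_le hcl (u := u) (n := n) (fun ω hω => hz ω (of_cond_pos hω))
    (fun ω => ((fun l => if l < n then X l ω else 0), (z ω, y J F ω)))
  have c3 : ∀ l ∈ range n, CH (Pool.Agent.H49.Ent.cond F.p A True) (fun ω => u ω l)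
      (fun ω => ((fun l => if l < n then X l ω else 0), (z ω, y J F ω))) ≤
      (N' l - N l) * Real.log 2 * J + (Real.log 2 + Real.log 5) := by
    intro l hl
    rw [mem_range] at hl
    have d1 := hN l hl
    have d2 : (1 : ℝ) ≤ 2 ^ ((N' l - N l) * J) := E_one (by linarith)
    have d3 := ch_near0 hcl (fun ω => u ω l)
      (fun ω => ((fun l => if l < n then X l ω else 0), (z ω, y J F ω)))
      (fun q => 2 ^ ((N' l - N l) * J) * ((q.1 l : ℤ) : ℝ))
      (D := 2 * 2 ^ ((N' l - N l) * J)) (by positivity) (fun ω hω => by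
        have d4 := (hX l hl).2 ω (of_cond_pos hω)
        show |(u ω l : ℝ) - 2 ^ ((N' l - N l) * J) * ((if l < n then X l ω else 0 : ℤ) : ℝ)| ≤ _
        rw [if_pos hl]
        exact d4)
    refine d3.trans ?_
    have d5 : 2 * (2 * (2 : ℝ) ^ ((N' l - N l) * J)) + 1 ≤ 5 * 2 ^ ((N' l - N l) * J) := by
      linarith
    have d6 := Real.log_le_log (by positivity) d5
    rw [Real.log_mul (by norm_num) (by positivity), ← exp_p2, Real.log_exp] at d6
    rw [← exp_p2]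
    have d7 : (N' l - N l) * J * Real.log 2 = (N' l - N l) * Real.log 2 * J := by ring
    linarith
  have c4 := sum_le_sum c3
  rw [sum_add_distrib, sum_const, card_range, nsmul_eq_mul] at c4
  have e1 : ∑ l ∈ range n, (N' l - N l) * Real.log 2 * (J : ℝ) =
      (∑ l ∈ range n, (N' l - N l) * Real.log 2) * J := (sum_mul _ _ _).symm
  have e2 : (δ + ∑ l ∈ range n, (N' l - N l) * Real.log 2 + h') * (J : ℝ) =
      (δ + h' / 2) * J + (∑ l ∈ range n, (N' l - N l) * Real.log 2) * J + h' / 2 * J := by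
    ring
  rw [e2]
  linarith

/-- **Change of affine labels of the targets**; the last target is any place. -/
theorem few_velt {C₀ : ℝ} (htm : TmC S C₀)
    (hpos : ∀ (τ : ℝ) (J : ℕ) (F : Fam m J) (A : F.Ω → Prop), S.St τ J F A → 0 < Pe F.p A)
    {c : ℕ → Fin m} {k n : ℕ} {w u₀ u₁ : ℝ} {s rd : ℕ → ℝ}
    (hch : Chn S c k (k + n) w u₀ u₁ s rd)
    {j : ℕ} {wt pt Nt wt' pt' Nt' : ℕ → ℝ} {p₀ lam σ₀ θ : ℝ}
    (hwt : ∀ l ≤ n, wt l ≤ w) (hwt' : ∀ l ≤ n, wt' l ≤ w)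
    (hu0 : u₀ < p₀) (hp0 : p₀ ≤ 1) (hlam : 0 < lam) (hσ₀ : 0 < σ₀)
    (hθ : 0 ≤ θ) (hpt : ∀ l ≤ n, l < n → s (k + l) ≤ pt l + θ)
    (hN : ∀ l ≤ n, Nt' l ≤ Nt l)
    (h3 : ∀ l ≤ n, Nt' l + j * u₀ + l * θ + σ₀ ≤ min (pt l) (pt' l) + min lam (p₀ - u₀))
    (h4 : ∀ l ≤ n, ∀ i < l, Nt' l + s (k + i) + l * θ + σ₀ ≤ min (pt l) (pt' l) + Nt i)
    (hf : ∀ (J : ℕ) (F : Fam m J), ∃ φ : α J F → PtT F, ∀ ω, ptr F J ω = φ (f J F ω))
    (hy : Kn ((range k).image c) p₀ lam y) :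
    Few S f (vg w) y (qVel m c k (n + 1) j wt pt Nt) (qVel m c k (n + 1) j wt' pt' Nt') := by
  refine few_qvel hpos fun l hl => ?_
  have key := few_af htm le_rfl (hch.take (n := k + l) (by omega) (by omega)) (k := c (k + l))
    (j := j) (wv := fun _ _ => 0) (pv := fun _ _ => 0) (Nv := fun _ _ => 0) (lv := fun _ => 0)
    (wt := wt) (pt := pt) (Nt := Nt)
    (w₁ := wt l) (w₂ := wt' l) (p₁ := pt l) (p₂ := pt' l) (N₁ := Nt l) (N₂ := Nt' l)
    (p₀ := p₀) (lam := lam) (σ₀ := σ₀) (θ := θ) (f := f) (y := y)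
    (fun i a b => absurd a (not_le.2 b)) (fun i hi => hwt i (by omega)) (hwt l (by omega))
    (hwt' l (by omega)) hu0 hp0 hlam hσ₀ hθ (fun i hi => hpt i (by omega) (by omega))
    (fun i a b => absurd a (not_le.2 b)) (fun i a b => absurd a (not_le.2 b))
    (fun i a b => absurd a (not_le.2 b)) (fun i a b => absurd a (not_le.2 b)) (hN l (by omega))
    (h3 l (by omega)) (fun i a b => absurd a (not_le.2 b)) (h4 l (by omega)) hf hy
  intro h hh
  obtain ⟨e, he, H⟩ := key h hh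
  refine ⟨e, he, fun K => Bas.mono 0 ((H K).and (pos_bas hpos)) ?_⟩
  rintro J - F A ⟨H, hA⟩ u u' hu hu'
  obtain ⟨V, z, hz, h1⟩ := H (fun ω => (((fun _ _ => 0), fun i => if i < l then u ω i else 0),
    u ω l)) u' ⟨⟨⟨fun i a b => absurd a (not_le.2 b), fun _ _ _ _ _ => rfl⟩,
      qVel_take hl.le hu⟩, hu.1 l hl⟩ hu'
  refine ⟨V, z, hz, le_trans (CH_mono_cond (isLaw_cond F.isLaw hA).nonneg ?_) h1⟩
  intro ω ω' _ _ hh
  simp only [Prod.mk.injEq] at hh ⊢
  exact ⟨⟨⟨trivial, by rw [hh.1]⟩, by rw [hh.1]⟩, hh.2⟩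

end

end Pool.T462
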