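import Pool.Agent.H62.T4.Num4c

/-!
# The numbers of the velocities in a box

`VGr`: affine labels of the targets `c k, …, c (k + n)` at all windows of a fine grid of the box
`t, …, t + q`, where the levels have one slope. `vgr_own`: the jets over the labels of `t`, to the
natural digits of a window `x`, are no information given the record of `x` and the far path of the
first places. `vgr_gfam`: the family of the numbers. `num4`: on a sub-box the numbers are additive.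
-/

set_option autoImplicit false

namespace Pool.T462

open Finset Real MvPolynomial
open Pool.Agent.H49.Ent Pool.Agent.H32.Dense Pool.STK Pool.KA Pool.KSAT Pool.K2S Pool.PB Pool.S6C
open Pool.GEN Pool.RCD Pool.LA91 Pool.OWN83 Pool.FVL91
open Pool.OWN68 (cl2_vg)
open Pool.GRD (LbP)
open Pool.CDX (AffL)

/-- **The box with affine labels** at all windows `t + (r / M) q`, `r ≤ M`. -/
structure VGr {m : ℕ} (S : PCl m) (c : ℕ → Fin m) (k n M : ℕ) (sn : ℕ → ℝ → ℝ)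
    (s t q V φ κ : ℝ) (bl pl : ℕ → ℕ → ℝ) : Prop where
  tm : ∃ C₀, TmC S C₀
  pos : ∀ (τ : ℝ) (J : ℕ) (F : Fam m J) (A : F.Ω → Prop), S.St τ J F A → 0 < Pe F.p A
  M1 : 1 ≤ M
  t0 : 0 ≤ t
  q0 : 0 < q
  tq : t + q < 1
  φ0 : 0 ≤ φ
  κ0 : 0 ≤ κ
  s0 : 0 ≤ s
  lin : ∀ l ≤ n, ∀ r ≤ M, |sn (k + l) (t + (r / M : ℝ) * q) - sn (k + l) t -
    s * ((r / M : ℝ) * q)| ≤ φ
  ch : ∀ r ≤ M, ∃ (u₀ u₁ : ℝ) (rd : ℕ → ℝ), u₀ ≤ V ∧
    Chn S c k (k + n) (t + (r / M : ℝ) * q) u₀ u₁ (fun l => sn l (t + (r / M : ℝ) * q)) rd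
  b : ∀ r ≤ M, ∀ l ≤ n, bl r l ≤ t + (r / M : ℝ) * q
  p : ∀ r ≤ M, ∀ l ≤ n, sn (k + l) (t + (r / M : ℝ) * q) - κ ≤ pl r l
  a : ∀ r ≤ M, ∀ l ≤ n, AffL S ((range (k + l)).image c) (c (k + l)) (bl r l) (pl r l)

/-- The natural digits of the jets of order `j` at the window `x`, with a staircase. -/
def vN (sn : ℕ → ℝ → ℝ) (k j : ℕ) (σ x : ℝ) (l : ℕ) : ℝ := sn (k + l) x - j * x - (l + 1) * σ

section

variable {m : ℕ} {α γ : ∀ J : ℕ, Fam m J → Type}
  {f : ∀ (J : ℕ) (F : Fam m J), F.Ω → α J F} {y : ∀ (J : ℕ) (F : Fam m J), F.Ω → γ J F}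
  {S : PCl m} {c : ℕ → Fin m} {k n M : ℕ} {sn : ℕ → ℝ → ℝ} {s t q V φ κ : ℝ}
  {bl pl : ℕ → ℕ → ℝ}

theorem VGr.sub {S' : PCl m} (hs : ∀ (τ : ℝ) (J : ℕ) (F : Fam m J) (A : F.Ω → Prop),
    S'.St τ J F A → S.St τ J F A) (h : VGr S c k n M sn s t q V φ κ bl pl) :
    VGr S' c k n M sn s t q V φ κ bl pl where
  tm := by
    obtain ⟨C₀, h1⟩ := h.tm
    exact ⟨C₀, fun τ J F A hτ h2 => h1 τ J F A hτ (hs τ J F A h2)⟩
  pos := fun τ J F A h2 => h.pos τ J F A (hs τ J F A h2)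
  M1 := h.M1
  t0 := h.t0
  q0 := h.q0
  tq := h.tq
  φ0 := h.φ0
  κ0 := h.κ0
  s0 := h.s0
  lin := h.lin
  ch := fun r hr => by
    obtain ⟨u₀, u₁, rd, h1, h2⟩ := h.ch r hr
    exact ⟨u₀, u₁, rd, h1, h2.sub hs⟩
  b := h.b
  p := h.p
  a := fun r hr l hl => (h.a r hr l hl).sub hs

/-- The windows of the grid. -/
theorem VGr.win (h : VGr S c k n M sn s t q V φ κ bl pl) {r : ℕ} (hr : r ≤ M) :
    0 ≤ (r / M : ℝ) * q ∧ (r / M : ℝ) * q ≤ q := by
  have h1 : (0 : ℝ) < M := by exact_mod_cast h.M1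
  have h2 : (r : ℝ) / M ≤ 1 := by
    rw [div_le_one h1]
    exact_mod_cast hr
  have h3 := h.q0
  exact ⟨by positivity, mul_le_of_le_one_left h3.le h2⟩

/-- The labels of the grid exist. -/
theorem VGr.exs (h : VGr S c k n M sn s t q V φ κ bl pl) {r : ℕ} (hr : r ≤ M) (j : ℕ)
    (N : ℕ → ℝ) : Exs S (qVel m c k (n + 1) j (bl r) (pl r) N) :=
  exs_vel (b := bl r) (fun l hl => ⟨le_rfl, by
    have h1 := h.b r hr l (by omega)
    have h2 := (h.win hr).2
    have h3 := h.tq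
    linarith⟩) fun l hl => h.a r hr l (by omega)

/-- **Change of labels in the box**: from the labels of `r'` to those of `r`, at the window of `w₀`
with `r, r' ≤ w₀`, for the digits natural at `x`, if the steps are small. -/
theorem VGr.few (h : VGr S c k n M sn s t q V φ κ bl pl) {j r r' w₀ i i' : ℕ} (hi : i ≤ M)
    (hi' : i' ≤ M) (hr : r ≤ w₀) (hr' : r' ≤ w₀) (hw : w₀ ≤ M) {p₀ lam σ σ₀ : ℝ} (hV : V < p₀)
    (hp0 : p₀ ≤ 1) (hlam : 0 < lam) (hσ₀ : 0 < σ₀)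
    (hpt : ∀ l ≤ n, l < n → sn (k + l) (t + (w₀ / M : ℝ) * q) ≤ pl r' l + (κ + s * (((w₀ - r' :
      ℕ) : ℝ) / M * q) + 2 * φ))
    (h1 : s * q + 2 * φ + j * (V - t) + (n + 1) * (κ + s * (((w₀ - r' : ℕ) : ℝ) / M * q) + 2 * φ)
      + σ₀ ≤ min lam (p₀ - V))
    (h2 : 4 * φ + s * (((w₀ - r : ℕ) : ℝ) / M * q) + κ + (n + 1) *
      (κ + s * (((w₀ - r' : ℕ) : ℝ) / M * q) + 2 * φ) + σ₀ ≤ σ)
    (hN : ∀ l ≤ n, vN sn k j σ (t + (i' / M : ℝ) * q) l ≤ vN sn k j σ (t + (i / M : ℝ) * q) l)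
    (hf : ∀ (J : ℕ) (F : Fam m J), ∃ χ : α J F → PtT F, ∀ ω, ptr F J ω = χ (f J F ω))
    (hy : Kn ((range k).image c) p₀ lam y) (hrr : r ≤ r') :
    Few S f (vg (t + (w₀ / M : ℝ) * q)) y
      (qVel m c k (n + 1) j (bl r') (pl r') (vN sn k j σ (t + (i / M : ℝ) * q)))
      (qVel m c k (n + 1) j (bl r) (pl r) (vN sn k j σ (t + (i' / M : ℝ) * q))) := by
  obtain ⟨C₀, htm⟩ := h.tm
  obtain ⟨u₀, u₁, rd, hu, hch⟩ := h.ch w₀ hw
  have hq := h.q0
  have hM : (0 : ℝ) < M := by exact_mod_cast h.M1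
  have hs := h.s0
  have hφ := h.φ0
  have hκ := h.κ0
  have hj0 : (0 : ℝ) ≤ j := Nat.cast_nonneg j
  have hn0 : (0 : ℝ) ≤ n := Nat.cast_nonneg n
  have hmono : ∀ {a b : ℕ}, a ≤ b → (a / M : ℝ) * q ≤ (b / M : ℝ) * q := fun hab =>
    mul_le_mul_of_nonneg_right (div_le_div_of_nonneg_right (by exact_mod_cast hab) hM.le) hq.le
  obtain ⟨θ, hθ⟩ : ∃ θ : ℝ, θ = κ + s * (((w₀ - r' : ℕ) : ℝ) / M * q) + 2 * φ := ⟨_, rfl⟩
  have hθ0 : 0 ≤ θ := by rw [hθ]; positivity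
  rw [← hθ] at h1 h2 hpt
  have e1 : ((w₀ - r : ℕ) : ℝ) / M * q = (w₀ / M : ℝ) * q - (r / M : ℝ) * q := by
    rw [Nat.cast_sub hr]
    ring
  have hd0 : 0 ≤ s * (((w₀ - r : ℕ) : ℝ) / M * q) := by positivity
  have hmin : min lam (p₀ - V) ≤ min lam (p₀ - u₀) := min_le_min le_rfl (by linarith)
  have wi := h.win hi'
  have wr := h.win (hr.trans hw)
  have hpmin : ∀ l ≤ n, sn (k + l) t + s * ((r / M : ℝ) * q) - φ - κ ≤ min (pl r' l) (pl r l) := by
    intro l hl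
    have a1 := abs_le.1 (h.lin l hl r (hr.trans hw))
    have a2 := abs_le.1 (h.lin l hl r' (hr'.trans hw))
    have a3 := mul_le_mul_of_nonneg_left (hmono hrr) hs
    refine le_min ?_ ?_
    · have a4 := h.p r' (hr'.trans hw) l hl
      linarith [a2.1]
    · have a4 := h.p r (hr.trans hw) l hl
      linarith [a1.1]
  refine few_velt htm h.pos hch (fun l hl => (h.b r' (hr'.trans hw) l hl).trans ?_)
    (fun l hl => (h.b r (hr.trans hw) l hl).trans ?_) (by linarith) hp0 hlam hσ₀ hθ0 hpt hN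
    (fun l hl => ?_) (fun l hl i₀ hi₀ => ?_) hf hy
  · linarith [hmono hr']
  · linarith [hmono hr]
  · have a1 := abs_le.1 (h.lin l hl i' hi')
    have a2 := hpmin l hl
    have a3 : s * ((i' / M : ℝ) * q) ≤ s * q := mul_le_mul_of_nonneg_left wi.2 hs
    have a4 : (j : ℝ) * u₀ ≤ j * V := mul_le_mul_of_nonneg_left hu hj0
    have a5 : (j : ℝ) * t ≤ j * (t + (i' / M : ℝ) * q) :=
      mul_le_mul_of_nonneg_left (by linarith [wi.1]) hj0
    have hl0 : (l : ℝ) ≤ n := by exact_mod_cast hl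
    have a6 : (l : ℝ) * θ ≤ n * θ := mul_le_mul_of_nonneg_right hl0 hθ0
    have a7 : 0 ≤ s * ((r / M : ℝ) * q) := mul_nonneg hs wr.1
    have hκθ : κ ≤ θ := by
      rw [hθ]
      have : 0 ≤ s * (((w₀ - r' : ℕ) : ℝ) / M * q) := by positivity
      linarith
    have hσ : 0 ≤ σ := by
      have : 0 ≤ (n + 1) * θ := by positivity
      linarith
    have a8 : 0 ≤ ((l : ℝ) + 1) * σ := by positivity
    unfold vN
    have e2 : (j : ℝ) * (V - t) = j * V - j * t := by ring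
    rw [e2] at h1
    have e3 : ((n : ℝ) + 1) * θ = n * θ + θ := by ring
    rw [e3] at h1
    linarith [a1.2]
  · have a1 := abs_le.1 (h.lin l hl i' hi')
    have a2 := hpmin l hl
    have a3 := abs_le.1 (h.lin i₀ (by omega) i' hi')
    have a4 := abs_le.1 (h.lin i₀ (by omega) w₀ hw)
    have a5 := hN i₀ (by omega)
    have hl0 : (l : ℝ) ≤ n := by exact_mod_cast hl
    have a6 : (l : ℝ) * θ ≤ n * θ := mul_le_mul_of_nonneg_right hl0 hθ0
    have hl1 : (i₀ : ℝ) + 1 ≤ l := by exact_mod_cast hi₀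
    have hσ : 0 ≤ σ := by
      have : 0 ≤ (n + 1) * θ := by positivity
      linarith
    have a7 : σ ≤ (l - i₀) * σ := le_mul_of_one_le_left hσ (by linarith)
    have e2 : s * (((w₀ - r : ℕ) : ℝ) / M * q) = s * ((w₀ / M : ℝ) * q) - s * ((r / M : ℝ) * q) := by
      rw [e1]
      ring
    rw [e2] at h2
    unfold vN at a5 ⊢
    have e3 : ((n : ℝ) + 1) * θ = n * θ + θ := by ring
    rw [e3] at h2
    have e4 : ((l : ℝ) - i₀) * σ = (l + 1) * σ - (i₀ + 1) * σ := by ring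
    rw [e4] at a7
    linarith [a1.2, a3.1, a4.2]

/-- **The natural digits of the window** `i` over the labels of `r ≤ i` are no information. -/
theorem VGr.own (h : VGr S c k n M sn s t q V φ κ bl pl) {j i : ℕ} (hi : i ≤ M)
    {p₀ lam σ σ₀ : ℝ} (hV : V < p₀)
    (hp0 : p₀ ≤ 1) (hlam : 0 < lam) (hσ₀ : 0 < σ₀)
    (h1 : s * q + 2 * φ + j * (V - t) + (n + 1) * (κ + 2 * φ) + σ₀ ≤ min lam (p₀ - V))
    (h2 : 4 * φ + s * (q / M) + κ + (n + 1) * (κ + 2 * φ) + σ₀ ≤ σ)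
    (hf : ∀ (J : ℕ) (F : Fam m J), ∃ χ : α J F → PtT F, ∀ ω, ptr F J ω = χ (f J F ω))
    (hy : Kn ((range k).image c) p₀ lam y) (d : ℕ) : ∀ r : ℕ, r + d = i →
    FewN S f (vg (t + (i / M : ℝ) * q)) y
      (qVel m c k (n + 1) j (bl r) (pl r) (vN sn k j σ (t + (i / M : ℝ) * q))) 0 := by
  obtain ⟨C₀, htm⟩ := h.tm
  have hq := h.q0
  have hM : (0 : ℝ) < M := by exact_mod_cast h.M1
  have hs := h.s0
  have hφ := h.φ0
  have hκ := h.κ0
  have ht0 := h.t0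
  have htq := h.tq
  have hn0 : (0 : ℝ) ≤ n := Nat.cast_nonneg n
  have hsM : 0 ≤ s * (q / M) := by positivity
  have hn1 : 0 ≤ (n + 1) * (κ + 2 * φ) := by positivity
  have wi := h.win hi
  induction d with
  | zero =>
    intro r hr
    rw [add_zero] at hr
    subst hr
    refine fewN_qvel h.pos fun l hl => fewN_own htm (by linarith) (by linarith)
      (h.b r hi l (by omega)) hσ₀ ?_
    have a1 := h.p r hi l (by omega)
    have hl0 : (0 : ℝ) ≤ l := Nat.cast_nonneg l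
    have hσ : 0 ≤ σ := by linarith
    have a2 : σ ≤ (l + 1) * σ := le_mul_of_one_le_left hσ (by linarith)
    unfold vN
    linarith
  | succ d ih =>
    intro r hr
    have a1 := ih (r + 1) (by omega)
    have e0 : ((r + 1 - (r + 1) : ℕ) : ℝ) / M * q = 0 := by
      rw [Nat.sub_self, Nat.cast_zero, zero_div, zero_mul]
    have e1 : ((r + 1 - r : ℕ) : ℝ) / M * q = q / M := by
      rw [Nat.add_sub_cancel_left, Nat.cast_one]
      ring
    have a2 := h.few (f := f) (y := y) (j := j) (r := r) (r' := r + 1) (w₀ := r + 1) (i := i)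
      (i' := i) hi hi (Nat.le_succ r) le_rfl (by omega) (p₀ := p₀) (lam := lam) (σ := σ)
      (σ₀ := σ₀) hV hp0 hlam hσ₀ (fun l hl _ => by
        have a3 := h.p (r + 1) (by omega) l hl
        rw [e0, mul_zero, add_zero]
        linarith) (by rw [e0, mul_zero, add_zero]; exact h1)
      (by rw [e0, e1, mul_zero, add_zero]; linarith) (fun _ _ => le_rfl) hf hy (Nat.le_succ r)
    refine a1.tr h.pos (Few.late h.pos ?_ (by linarith) a2) (h.exs (by omega) j _)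
    have hab : ((r + 1 : ℕ) : ℝ) ≤ i := by exact_mod_cast (by omega : r + 1 ≤ i)
    have := mul_le_mul_of_nonneg_right (div_le_div_of_nonneg_right hab hM.le) hq.le
    linarith

/-- **The family of the numbers.** -/
theorem VGr.gfam (h : VGr S c k n M sn s t q V φ κ bl pl) {j Ng M₁ : ℕ} (hM₁ : M = Ng * M₁)
    {p₀ lam σ σ₀ : ℝ} (hV : V < p₀)
    (hp0 : p₀ ≤ 1) (hlam : 0 < lam) (hσ₀ : 0 < σ₀)
    (h1 : s * q + 2 * φ + j * (V - t) + (n + 1) * (κ + 2 * φ) + σ₀ ≤ min lam (p₀ - V))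
    (h2 : 4 * φ + s * (q / M) + κ + (n + 1) * (κ + 2 * φ) + σ₀ ≤ σ)
    (h3 : 2 * φ ≤ (s - j) * (q / Ng))
    (hf : ∀ (J : ℕ) (F : Fam m J), ∃ χ : α J F → PtT F, ∀ ω, ptr F J ω = χ (f J F ω))
    (hy : Kn ((range k).image c) p₀ lam y) :
    GFam S f y Ng (fun i => t + (i / Ng : ℝ) * q)
      (fun i => qVel m c k (n + 1) j (bl 0) (pl 0) (vN sn k j σ (t + (i / Ng : ℝ) * q)))
      ((n + 1) * (s - j) * Real.log 2) (2 * (n + 1) * φ) := by
  have hMpos : (0 : ℝ) < M := by exact_mod_cast h.M1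
  have hM1 := h.M1
  have hNg0 : 0 < Ng := by
    rcases Nat.eq_zero_or_pos Ng with h0 | h0
    · rw [h0, zero_mul] at hM₁
      omega
    · exact h0
  have hM₁0 : 0 < M₁ := by
    rcases Nat.eq_zero_or_pos M₁ with h0 | h0
    · rw [h0, mul_zero] at hM₁
      omega
    · exact h0
  have hNg : (0 : ℝ) < Ng := by exact_mod_cast hNg0
  have hM₁' : (0 : ℝ) < M₁ := by exact_mod_cast hM₁0
  have hq := h.q0
  have hs := h.s0
  have hφ := h.φ0
  have hκ := h.κ0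
  have ht0 := h.t0
  have htq := h.tq
  have hn0 : (0 : ℝ) ≤ n := Nat.cast_nonneg n
  have hsM : 0 ≤ s * (q / M) := by positivity
  have hl2 : 0 < Real.log 2 := Real.log_pos one_lt_two
  have hl21 : Real.log 2 ≤ 1 := by
    have := Real.log_two_lt_d9
    linarith
  have hx : ∀ i : ℕ, (i / Ng : ℝ) * q = ((i * M₁ : ℕ) / M : ℝ) * q := by
    intro i
    rw [hM₁]
    push_cast
    field_simp
  have hiM : ∀ i ≤ Ng, i * M₁ ≤ M := fun i hi => by
    rw [hM₁]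
    exact Nat.mul_le_mul_right _ hi
  have hxm : ∀ a b : ℕ, a ≤ b → (a / Ng : ℝ) * q ≤ (b / Ng : ℝ) * q := fun a b hab =>
    mul_le_mul_of_nonneg_right (div_le_div_of_nonneg_right (by exact_mod_cast hab) hNg.le) hq.le
  have e00 : ((0 - 0 : ℕ) : ℝ) / M * q = 0 := by
    rw [Nat.sub_self, Nat.cast_zero, zero_div, zero_mul]
  -- the levels
  have hlev : ∀ a b : ℕ, a ≤ b → b ≤ Ng → ∀ l ≤ n,
      |vN sn k j σ (t + (b / Ng : ℝ) * q) l - vN sn k j σ (t + (a / Ng : ℝ) * q) l -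
        (s - j) * ((b / Ng : ℝ) * q - (a / Ng : ℝ) * q)| ≤ 2 * φ := by
    intro a b hab hb l hl
    have a1 := abs_le.1 (h.lin l hl _ (hiM a (hab.trans hb)))
    have a2 := abs_le.1 (h.lin l hl _ (hiM b hb))
    rw [← hx] at a1 a2
    unfold vN
    rw [abs_le]
    constructor <;> nlinarith [a1.1, a1.2, a2.1, a2.2]
  have hmon : ∀ a b : ℕ, a ≤ b → b ≤ Ng → ∀ l ≤ n,
      vN sn k j σ (t + (a / Ng : ℝ) * q) l ≤ vN sn k j σ (t + (b / Ng : ℝ) * q) l := by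
    intro a b hab hb l hl
    rcases Nat.eq_or_lt_of_le hab with e | hlt
    · rw [e]
    · have a1 := (abs_le.1 (hlev a b hab hb l hl)).1
      have hsj : 0 ≤ s - j := by
        by_contra hcon
        push Not at hcon
        have : (s - j) * (q / Ng) < 0 := mul_neg_of_neg_of_pos hcon (by positivity)
        linarith
      have a2 : q / Ng ≤ (b / Ng : ℝ) * q - (a / Ng : ℝ) * q := by
        have hab' : (a : ℝ) + 1 ≤ b := by exact_mod_cast hlt
        have e1 : (b / Ng : ℝ) * q - (a / Ng : ℝ) * q = (b - a) * (q / Ng) := by ring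
        rw [e1]
        exact le_mul_of_one_le_left (by positivity) (by linarith)
      have a3 := mul_le_mul_of_nonneg_left a2 hsj
      linarith
  have hfew : ∀ a b : ℕ, a ≤ b → b ≤ Ng → Few S f (vg t) y
      (qVel m c k (n + 1) j (bl 0) (pl 0) (vN sn k j σ (t + (b / Ng : ℝ) * q)))
      (qVel m c k (n + 1) j (bl 0) (pl 0) (vN sn k j σ (t + (a / Ng : ℝ) * q))) := by
    intro a b hab hb
    have a2 := h.few (f := f) (y := y) (j := j) (r := 0) (r' := 0) (w₀ := 0) (i := b * M₁)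
      (i' := a * M₁) (hiM b hb) (hiM a (hab.trans hb)) le_rfl le_rfl (Nat.zero_le _) (p₀ := p₀)
      (lam := lam) (σ := σ) (σ₀ := σ₀) hV hp0 hlam hσ₀ (fun l hl _ => by
        have a3 := h.p 0 (Nat.zero_le _) l hl
        have e9 : s * (((0 - 0 : ℕ) : ℝ) / M * q) = 0 := by rw [e00, mul_zero]
        rw [e9]
        linarith) (by rw [e00, mul_zero, add_zero]; exact h1)
      (by rw [e00, mul_zero, add_zero]; linarith) (fun l hl => by
        rw [← hx, ← hx]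
        exact hmon a b hab hb l hl) hf hy le_rfl
    rw [← hx, ← hx, Nat.cast_zero, zero_div, zero_mul, add_zero] at a2
    exact a2
  have hx0 : ∀ i : ℕ, 0 ≤ (i / Ng : ℝ) * q := fun i => by positivity
  have hx1 : ∀ i ≤ Ng, t + (i / Ng : ℝ) * q ≤ 1 := fun i hi => by
    have a1 := hxm i Ng hi
    rw [div_self hNg.ne', one_mul] at a1
    linarith
  refine ⟨fun a b hab _ => by linarith [hxm a b hab], ?_, fun b hb => h.exs (Nat.zero_le _) j _,
    fun a b hab hb => Few.late h.pos (by linarith [hx0 a]) (hx1 a (hab.trans hb))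
      (hfew b b le_rfl hb), fun i a b hia hab hb => Few.late h.pos (by linarith [hx0 i])
      (hx1 i ((hia.trans hab).trans hb)) (hfew a b hab hb), fun a b hab hb => ?_⟩
  · show t + (Ng / Ng : ℝ) * q ≤ 1
    exact hx1 Ng le_rfl
  · have a1 := h.own (f := f) (y := y) (j := j) (i := a * M₁) (hiM a (hab.trans hb)) hV hp0 hlam
      hσ₀ h1 h2 hf hy (a * M₁) 0 (by omega)
    rw [← hx] at a1
    have a2 := fewN_dig h.pos a1 (N' := vN sn k j σ (t + (b / Ng : ℝ) * q))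
      (fun l hl => hmon a b hab hb l (by omega))
    refine a2.le ?_
    rw [zero_add]
    have a3 : ∀ l ∈ range (n + 1), (vN sn k j σ (t + (b / Ng : ℝ) * q) l -
        vN sn k j σ (t + (a / Ng : ℝ) * q) l) * Real.log 2 ≤
        (s - j) * ((b / Ng : ℝ) * q - (a / Ng : ℝ) * q) * Real.log 2 + 2 * φ := by
      intro l hl
      rw [mem_range] at hl
      have a4 := (abs_le.1 (hlev a b hab hb l (by omega))).2
      have a5 : (vN sn k j σ (t + (b / Ng : ℝ) * q) l -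
        vN sn k j σ (t + (a / Ng : ℝ) * q) l) * Real.log 2 ≤
        ((s - j) * ((b / Ng : ℝ) * q - (a / Ng : ℝ) * q) + 2 * φ) * Real.log 2 :=
        mul_le_mul_of_nonneg_right (by linarith) hl2.le
      have a6 : 2 * φ * Real.log 2 ≤ 2 * φ * 1 := mul_le_mul_of_nonneg_left hl21 (by linarith)
      linarith
    refine (sum_le_sum a3).trans (le_of_eq ?_)
    rw [sum_const, card_range, nsmul_eq_mul]
    push_cast
    ring

/-- **Numbers on a sub-box.** The jets of order `j` of the targets over the labels of `t`, to the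
natural digits of the windows `t + (i / L ^ N) q`: on a sub-box with `L` steps of the length
`ρ = q / L ^ r`, starting at a multiple of `L ρ`, the numbers are additive up to `κ₀ ρ`. -/
theorem VGr.num4 (h : VGr S c k n M sn s t q V φ κ bl pl) (hS : S.Ne)
    {B : ℝ} (hB : Bas S (fun J F A => (cnt F.p (f J F) A : ℝ) ≤ Real.exp (B * J)))
    {j L N M₁ : ℕ} (hL : 1 ≤ L) (hN : 1 ≤ N) (hM₁ : M = L ^ N * M₁)
    {p₀ lam σ σ₀ κ₀ : ℝ} (hV : V < p₀)
    (hp0 : p₀ ≤ 1) (hlam : 0 < lam) (hσ₀ : 0 < σ₀) (hκ₀ : 0 < κ₀)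
    (h1 : s * q + 2 * φ + j * (V - t) + (n + 1) * (κ + 2 * φ) + σ₀ ≤ min lam (p₀ - V))
    (h2 : 4 * φ + s * (q / M) + κ + (n + 1) * (κ + 2 * φ) + σ₀ ≤ σ)
    (h3 : 2 * φ ≤ (s - j) * (q / (L : ℝ) ^ N))
    (h4 : 2 * ((n + 1) * (s - j) * Real.log 2 + 1) * L ≤ κ₀ * N)
    (h5 : 2 * (L + 2) * (2 * (n + 1) * φ * (L : ℝ) ^ N) ≤ κ₀ * q) (h6 : 2 * (n + 1) * φ ≤ q)
    (hf : ∀ (J : ℕ) (F : Fam m J), ∃ χ : α J F → PtT F, ∀ ω, ptr F J ω = χ (f J F ω))
    (hy : Kn ((range k).image c) p₀ lam y) :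
    ∃ S' : PCl m, S'.Ne ∧
      (∀ (τ : ℝ) (J : ℕ) (F : Fam m J) (A : F.Ω → Prop), S'.St τ J F A → S.St τ J F A) ∧
      ∃ (θ : ℕ → ℕ → ℝ) (r p : ℕ), GNum S' f y (L ^ N) (fun i => t + (i / (L : ℝ) ^ N) * q)
          (fun i => qVel m c k (n + 1) j (bl 0) (pl 0) (vN sn k j σ (t + (i / (L : ℝ) ^ N) * q)))
          θ ∧ 1 ≤ r ∧ r ≤ N ∧ p + L ≤ L ^ r ∧ L ∣ p ∧
        (∀ i ≤ L, (p + i) * L ^ (N - r) ≤ L ^ N ∧
          t + (((p + i) * L ^ (N - r) : ℕ) / (L : ℝ) ^ N) * q =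
            t + ((p + i : ℕ) / (L : ℝ) ^ r) * q) ∧
        (∀ i i' : ℕ, i ≤ i' → i' ≤ L →
          0 ≤ θ ((p + i) * L ^ (N - r)) ((p + i') * L ^ (N - r)) ∧
          θ ((p + i) * L ^ (N - r)) ((p + i') * L ^ (N - r)) ≤
            (n + 1) * (s - j) * Real.log 2 * (((i' : ℝ) - i) * (q / (L : ℝ) ^ r)) +
              κ₀ * (q / (L : ℝ) ^ r)) ∧
        ∀ i i' l : ℕ, i ≤ i' → i' ≤ l → l ≤ L →
          θ ((p + i) * L ^ (N - r)) ((p + i') * L ^ (N - r)) +
            θ ((p + i') * L ^ (N - r)) ((p + l) * L ^ (N - r)) ≤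
          θ ((p + i) * L ^ (N - r)) ((p + l) * L ^ (N - r)) + κ₀ * (q / (L : ℝ) ^ r) ∧
          θ ((p + i) * L ^ (N - r)) ((p + l) * L ^ (N - r)) ≤
            θ ((p + i) * L ^ (N - r)) ((p + i') * L ^ (N - r)) +
            θ ((p + i') * L ^ (N - r)) ((p + l) * L ^ (N - r)) + κ₀ * (q / (L : ℝ) ^ r) := by
  have hL0 : (0 : ℝ) < L := by exact_mod_cast hL
  have hq := h.q0
  have hφ := h.φ0
  have hn0 : (0 : ℝ) ≤ n := Nat.cast_nonneg n
  have hl2 : 0 < Real.log 2 := Real.log_pos one_lt_two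
  have hsj : 0 ≤ s - j := by
    by_contra hcon
    push Not at hcon
    have : (s - j) * (q / (L : ℝ) ^ N) < 0 := mul_neg_of_neg_of_pos hcon (by positivity)
    linarith
  have hg := h.gfam (f := f) (y := y) (j := j) (Ng := L ^ N) (M₁ := M₁) hM₁ hV hp0 hlam hσ₀ h1 h2
    (by push_cast; exact h3) hf hy
  simp only [Nat.cast_pow] at hg
  exact num_g hS h.pos hB hL hN hq (by positivity) (by positivity) hκ₀ (fun i _ => rfl) hg h4 h5 h6

end

end Pool.T462
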