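import Pool.Agent.H62.T4.Num4d
import Pool.Agent.H72.T4C.S

/-!
# The numbers of the velocities: canonical records, boxes

`gnum_cR`: the numbers with the canonical records, one accuracy for all windows. `nn_fewN`: few bits from
a small number. `vel_lbl`: the functions of any labels. `VGr.of_box`: from the box of a record.
-/

set_option autoImplicit false

namespace Pool.T462

open Finset Real MvPolynomial
open Pool.Agent.H49.Ent Pool.Agent.H32.Dense Pool.STK Pool.KA Pool.KSAT Pool.K2S Pool.PB Pool.S6C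
open Pool.GEN Pool.RCD Pool.LA91 Pool.OWN83 Pool.FVL91
open Pool.V0F (cR mx_cR)
open Pool.GRD (LbP)
open Pool.CDX (AffL)
open Pool.T4C72 (BoxT)

section

variable {m : ℕ} {U : Type} {α β γ : ∀ J : ℕ, Fam m J → Type}
  {f : ∀ (J : ℕ) (F : Fam m J), F.Ω → α J F} {g : ∀ (J : ℕ) (F : Fam m J), F.Ω → β J F}
  {y : ∀ (J : ℕ) (F : Fam m J), F.Ω → γ J F} {S : PCl m}

/-- **The numbers with the canonical records.** -/
theorem gnum_cR
    (hpos : ∀ (τ : ℝ) (J : ℕ) (F : Fam m J) (A : F.Ω → Prop), S.St τ J F A → 0 < Pe F.p A)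
    {N : ℕ} {x : ℕ → ℝ} {Q : ℕ → Qt m U} {θ : ℕ → ℕ → ℝ}
    (n : GNum S (fun J F => ptr F J) y N x Q θ) (h : ℝ) (hh : 0 < h) :
    ∃ e₀ : ℝ, 0 < e₀ ∧ ∀ K : ℕ, Bas S (fun J F A => ∀ i j, i ≤ j → j ≤ N → ∀ u,
      (Q j).P K e₀ J F A u →
      |CH (Pool.Agent.H49.Ent.cond F.p A True) u (fun ω => (cR F A (x i) ω, y J F ω)) -
        θ i j * J| ≤ h * J) := by
  classical
  have key : ∀ q : Fin (N + 1) × Fin (N + 1), ∃ e₀ : ℝ, 0 < e₀ ∧ ∀ K : ℕ,
      Bas S (fun J F A => (q.1 : ℕ) ≤ q.2 → ∀ u, (Q q.2).P K e₀ J F A u →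
      |CH (Pool.Agent.H49.Ent.cond F.p A True) u (fun ω => (cR F A (x q.1) ω, y J F ω)) -
        θ q.1 q.2 * J| ≤ h * J) := by
    rintro ⟨i, j⟩
    by_cases hij : (i : ℕ) ≤ j
    · obtain ⟨k, hk, e₀, he₀, H⟩ := n.nn i j hij (by omega) h hh
      refine ⟨e₀, he₀, fun K => Bas.mono 0 ((H K).and (pos_bas hpos)) ?_⟩
      rintro J - F A ⟨h1, hA⟩ - u hu
      exact h1 _ _ (mx_cR hA (x i) hk.le) u hu
    · exact ⟨1, one_pos, fun K => Bas.mono 0 (pos_bas hpos) fun _ _ _ _ _ h1 => absurd h1 hij⟩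
  choose e he H using key
  obtain ⟨q₀, hq₀⟩ := Finite.exists_min e
  refine ⟨e q₀, he q₀, fun K => Bas.mono 0 (Bas.fin' fun q => H q K) ?_⟩
  intro J _ F A h1 i j hij hj u hu
  exact h1 (⟨i, by omega⟩, ⟨j, by omega⟩) hij u ((Q j).mono le_rfl (hq₀ _) hu)

/-- **Few bits** from the number. -/
theorem nn_fewN
    (hpos : ∀ (τ : ℝ) (J : ℕ) (F : Fam m J) (A : F.Ω → Prop), S.St τ J F A → 0 < Pe F.p A)
    {Q : Qt m U} {θ η : ℝ} (h : NN S f g y Q θ) (hr : RNum S f g η) : FewN S f g y Q θ := by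
  intro h' hh
  obtain ⟨k, hk, e₀, he₀, H⟩ := h h' hh
  refine ⟨e₀, he₀, fun K => Bas.mono 0 ((H K).and (mx_ex hpos hr k hk)) ?_⟩
  rintro J - F A ⟨h1, V, z, hz⟩ u hu
  refine ⟨V, z, hz.1, ?_⟩
  have h2 := (abs_le.1 (h1 V z hz u hu)).2
  have e1 : (θ + h') * (J : ℝ) = θ * J + h' * J := by ring
  linarith

/-- **The functions of any labels.** -/
theorem vel_lbl {c : ℕ → Fin m} {k n j J : ℕ} {w p N : ℕ → ℝ} {F : Fam m J} {A : F.Ω → Prop} {K : ℕ}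
    {e : ℝ} {V : ℕ → Type} {z : ∀ l, PtT F → V l} {z' : ∀ l, LnT F → V l}
    {G : ∀ l, V l → MvPolynomial (Option (Fin m)) ℝ}
    (h : ∀ l < n, LbP F ((range (k + l)).image c) (c (k + l)) 1 J ⌊w l * J⌋₊ ⌊(p l - e) * J⌋₊ A
      (z l) (z' l) (G l)) :
    (qVel m c k n j w p N).P K e J F A (fun ω l => if l < n then
      cfl j J (N l) (ojet F (c (k + l)) j (G l (z' l (slam F ⌊w l * J⌋₊ ω))) ω) else 0) := by
  refine ⟨fun l hl => ?_, fun ω _ l hl => if_neg hl⟩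
  have h2 : (fun ω => if l < n then cfl j J (N l)
      (ojet F (c (k + l)) j (G l (z' l (slam F ⌊w l * J⌋₊ ω))) ω) else 0) = fun ω =>
      cfl j J (N l) (ojet F (c (k + l)) j (G l (z' l (slam F ⌊w l * J⌋₊ ω))) ω) := by
    funext ω
    exact if_pos hl
  rw [h2]
  exact ⟨V l, z l, z' l, G l, h l hl, fun ω _ => rfl⟩

/-- **The box of a record** with affine labels at the windows of a fine grid. -/
theorem VGr.of_box {c : ℕ → Fin m} {k f D M : ℕ} {sn sp : ℕ → ℝ → ℝ} {Gs : Set ℝ}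
    {s hr b o w u Λ φ e q V κ : ℝ} {lam : ℝ → ℝ} {bl pl : ℕ → ℕ → ℝ}
    (Bx : BoxT S c k f D sn sp Gs s hr b o w u Λ φ e lam) (hM : 1 ≤ M) (hq : 0 < q)
    (hqu : q ≤ Λ * u) (hΛ : 0 < Λ) (hs : 0 ≤ s) (hκ : 0 ≤ κ)
    (hG : ∀ r ≤ M, w + (r / M : ℝ) * q ∈ Gs)
    (hch : ∀ v ∈ Gs, b ≤ v → v ≤ o → v ≤ w + q → ∃ (u₀ u₁ : ℝ) (rd : ℕ → ℝ), u₀ ≤ V ∧
      Chn S c k (k + f) v u₀ u₁ (fun l => sn l v) rd)
    (hA : ∀ r ≤ M, ∀ l ≤ f, bl r l ≤ w + (r / M : ℝ) * q ∧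
      sn (k + l) (w + (r / M : ℝ) * q) - κ ≤ pl r l ∧
      AffL S ((range (k + l)).image c) (c (k + l)) (bl r l) (pl r l)) :
    VGr S c k f M sn s w q V φ κ bl pl := by
  have hu := Bx.u0
  have hΛu : 0 < Λ * u := mul_pos hΛ hu
  have h2 := Bx.bw
  have h3 := Bx.wo
  have h4 := Bx.o1
  have h5 := Bx.b0
  have hM0 : (0 : ℝ) < M := by exact_mod_cast hM
  have hwin : ∀ r ≤ M, 0 ≤ (r / M : ℝ) * q ∧ (r / M : ℝ) * q ≤ q := fun r hr => by
    have h2 : (r : ℝ) / M ≤ 1 := by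
      rw [div_le_one hM0]
      exact_mod_cast hr
    exact ⟨by positivity, mul_le_of_le_one_left hq.le h2⟩
  exact {
    tm := Bx.lad.tm
    pos := Bx.lad.pos
    M1 := hM
    t0 := by linarith
    q0 := hq
    tq := by linarith
    φ0 := Bx.lad.φ0.le
    κ0 := hκ
    s0 := hs
    lin := fun l hl r hr => by
      have a1 := hwin r hr
      have a2 := Bx.lin (k + l) (by omega) (by omega) _ (hG r hr) (by linarith) (by linarith)
      rwa [add_sub_cancel_left] at a2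
    ch := fun r hr => by
      have a1 := hwin r hr
      exact hch _ (hG r hr) (by linarith) (by linarith) (by linarith)
    b := fun r hr l hl => (hA r hr l hl).1
    p := fun r hr l hl => (hA r hr l hl).2.1
    a := fun r hr l hl => (hA r hr l hl).2.2 }

end

end Pool.T462
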