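import Pool.Agent.H62.T4.Num4e
import Pool.Agent.H63.T4.Vr
import Pool.Agent.H36.T4.S

/-!
# The numbers of the velocities in a box, from the ladder

`own_box`: the velocities over the labels of `t`, to the natural digits of a window `x`, are no
information given the record of `x` and the far path of the first place. `gfam_box`: the family of the
numbers. `num4_box`: `NumV` on a sub-box, in a subclass.
-/

set_option autoImplicit false

namespace Pool.T462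

open Finset Real MvPolynomial
open Pool.Agent.H49.Ent Pool.Agent.H32.Dense Pool.STK Pool.KA Pool.KSAT Pool.K2S Pool.PB Pool.S6C
open Pool.GEN Pool.RCD Pool.LA91 Pool.OWN83 Pool.FVL91
open Pool.GRD (LbP)
open Pool.CDX (AffL)
open Pool.V0T (LadT)
open Pool.T4C72 (BoxT)
open Pool.PRC54 (yQ)
open Pool.T4D63 (few_velR few_grid exs_velA)
open Pool.T4N (AffAt dgV NumV)

variable {m : ℕ} {S : PCl m} {c : ℕ → Fin m} {f : ℕ} {sn : ℕ → ℝ → ℝ} {G : Set ℝ}
  {b o s t q φ κ σ σ₀ P lam : ℝ} {bl pl : ℕ → ℝ}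

/-- The data of a box: the ladder, one slope, affine labels at all windows. -/
structure BxA (S : PCl m) (c : ℕ → Fin m) (f : ℕ) (sn : ℕ → ℝ → ℝ) (G : Set ℝ)
    (b o s t q φ κ σ σ₀ P lam : ℝ) (bl pl : ℕ → ℝ) : Prop where
  L : LadT S c 1 f sn G b o φ
  tG : t ∈ G
  bt : b ≤ t
  q0 : 0 < q
  tqo : t + q ≤ o
  s0 : 0 ≤ s
  κ0 : 0 ≤ κ
  σ₀0 : 0 < σ₀
  lin : ∀ l ≤ f, ∀ v ∈ G, t ≤ v → v ≤ t + q → |sn (1 + l) v - sn (1 + l) t - s * (v - t)| ≤ φ
  σ1 : (f + 1) * (κ + 3 * s * φ + 2 * φ) + 4 * φ + σ₀ ≤ σ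
  P1 : sn 0 t + (s + 1) * q + 2 * σ ≤ P
  l1 : sn 0 t - t + s * q + 2 * σ ≤ lam
  o1 : t + (s + 1) * q + 2 * σ ≤ 1
  la : ∀ l ≤ f, bl l ≤ t ∧ sn (1 + l) t - κ ≤ pl l ∧
    AffL S ((range (1 + l)).image c) (c (1 + l)) (bl l) (pl l)
  lv : ∀ v ∈ G, t ≤ v → v ≤ t + q → ∃ bl' pl' : ℕ → ℝ, ∀ l ≤ f, bl' l ≤ v ∧
    sn (1 + l) v - κ ≤ pl' l ∧ AffL S ((range (1 + l)).image c) (c (1 + l)) (bl' l) (pl' l)

theorem BxA.sn0 (B : BxA S c f sn G b o s t q φ κ σ σ₀ P lam bl pl) {v : ℝ} (hv : v ∈ G)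
    (h1 : t ≤ v) (h2 : v ≤ t + q) : sn 0 v - v ≤ sn 0 t - t + 2 * φ := by
  have a1 := abs_le.1 (B.L.fl 0 (by norm_num) v hv (B.bt.trans h1) (h2.trans B.tqo))
  have a2 := abs_le.1 (B.L.fl 0 (by norm_num) t B.tG B.bt (by linarith [B.tqo, B.q0]))
  linarith [a1.2, a2.1]

/-- **The natural digits of the window** `x` over the labels of `t` are no information. -/
theorem own_box (B : BxA S c f sn G b o s t q φ κ σ σ₀ P lam bl pl) {x : ℝ} (hx : x ∈ G)
    (htx : t ≤ x) (hxq : x ≤ t + q) :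
    FewN S (fun J F => ptr F J) (vg x) (yQ ((range 1).image c) P lam)
      (qVel m c 1 (f + 1) 1 bl pl (dgV sn σ x)) 0 := by
  classical
  obtain ⟨C₀, htm⟩ := B.L.tm
  have hpos := B.L.pos
  have hφ : 0 < φ := B.L.φ0
  have hs := B.s0
  have hκ := B.κ0
  have hσ₀ := B.σ₀0
  have hq := B.q0
  have hf0 : (0 : ℝ) ≤ f := Nat.cast_nonneg f
  obtain ⟨θ, hθ⟩ : ∃ θ : ℝ, θ = κ + 3 * s * φ + 2 * φ := ⟨_, rfl⟩
  have hsφ : 0 ≤ 3 * s * φ := by positivity
  have hθ0 : 0 ≤ θ := by rw [hθ]; positivity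
  have hσ1 := B.σ1
  rw [← hθ] at hσ1
  have hfθ : 0 ≤ f * θ := by positivity
  have e3 : ((f : ℝ) + 1) * θ = f * θ + θ := by ring
  have hσ : 0 ≤ σ := by linarith
  have hx1 : x < 1 := by
    obtain ⟨u₁, rd, -, hch⟩ := B.L.ch.ch x hx
    exact hch.u0
  have hx0 : 0 ≤ x := by
    have := B.L.b0
    linarith [B.bt]
  obtain ⟨ρ₀, hρ₀, hρφ, hgap, -⟩ := B.L.fm
  obtain ⟨R, z', hz0, hzR, hzG, hzs⟩ := gseq (G := G) (w := t) (h := 3 * φ) (ρ₀ := ρ₀) B.tG
    (by linarith) ⌈(x - t) / (3 * φ - 2 * ρ₀)⌉₊ x hx htx (by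
      have h1 : 0 < 3 * φ - 2 * ρ₀ := by linarith
      have h2 := Nat.le_ceil ((x - t) / (3 * φ - 2 * ρ₀))
      rwa [div_le_iff₀ h1] at h2) (fun v h1 h2 => hgap v (B.bt.trans h1)
      ((h2.trans hxq).trans B.tqo))
  -- the labels of the sequence
  have hlab : ∀ r : ℕ, ∃ bp : (ℕ → ℝ) × (ℕ → ℝ), (r ≤ R → ∀ l ≤ f, bp.1 l ≤ z' (R - r) ∧
      sn (1 + l) (z' (R - r)) - κ ≤ bp.2 l ∧
      AffL S ((range (1 + l)).image c) (c (1 + l)) (bp.1 l) (bp.2 l)) ∧
      (r = 0 → bp = (bl, pl)) := by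
    intro r
    by_cases h0 : r = 0
    · refine ⟨(bl, pl), fun _ l hl => ?_, fun _ => rfl⟩
      rw [h0, Nat.sub_zero, hzR]
      exact B.la l hl
    · by_cases hr : r ≤ R
      · obtain ⟨h1, h2, h3⟩ := hzG (R - r) (Nat.sub_le _ _)
        obtain ⟨bl', pl', h4⟩ := B.lv _ h1 h2 (h3.trans hxq)
        exact ⟨(bl', pl'), fun _ => h4, fun h => absurd h h0⟩
      · exact ⟨(bl, pl), fun h => absurd h hr, fun _ => rfl⟩
  choose bp hbp hbp0 using hlab
  have hzz : ∀ r, R - (R - r) = r ∨ R < r := fun r => by omega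
  have hlin : ∀ l ≤ f, ∀ r ≤ R, |sn (1 + l) (z' r) - sn (1 + l) t - s * (z' r - t)| ≤ φ := by
    intro l hl r hr
    obtain ⟨h1, h2, h3⟩ := hzG r hr
    exact B.lin l hl _ h1 h2 (h3.trans hxq)
  have hlx : ∀ l ≤ f, |sn (1 + l) x - sn (1 + l) t - s * (x - t)| ≤ φ := fun l hl =>
    B.lin l hl x hx htx hxq
  -- own
  have hown : FewN S (fun J F => ptr F J) (vg x) (yQ ((range 1).image c) P lam)
      (qVel m c 1 (f + 1) 1 (bp R).1 (bp R).2 (dgV sn σ x)) 0 := by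
    refine fewN_qvel hpos fun l hl => fewN_own htm hx0 hx1 ?_ hσ₀ ?_
    · have h1 := (hbp R le_rfl l (by omega)).1
      rwa [Nat.sub_self, hz0] at h1
    · have h1 := (hbp R le_rfl l (by omega)).2.1
      rw [Nat.sub_self, hz0] at h1
      have hl0 : (0 : ℝ) ≤ l := Nat.cast_nonneg l
      have a2 : σ ≤ (l + 1) * σ := le_mul_of_one_le_left hσ (by linarith)
      have hκθ : κ ≤ θ := by rw [hθ]; linarith
      unfold dgV
      rw [Nat.cast_one]
      linarith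
  rcases Nat.eq_zero_or_pos R with hR | hR
  · rw [hR, hbp0 0 rfl] at hown
    exact hown
  have hex : Exs S (qVel m c 1 (f + 1) 1 (bp R).1 (bp R).2 (dgV sn σ x)) := by
    refine exs_velA (fun l hl => ?_) fun l hl => (hbp R le_rfl l (by omega)).2.2
    have h1 := (hbp R le_rfl l (by omega)).1
    rw [Nat.sub_self, hz0] at h1
    linarith
  have key := few_grid B.L (n := f + 1) le_rfl (R := R) (z := fun r => z' (R - r))
    (fun r _ => (hzG (R - r) (Nat.sub_le _ _)).1) (fun r hr => by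
      have h1 := (hzs (R - (r + 1)) (by omega)).1
      rwa [show R - (r + 1) + 1 = R - r by omega] at h1) (x := x) (by
      show z' (R - R) ≤ x
      rw [Nat.sub_self, hz0]) hx1.le (P := P) (lam := lam) (lv := s * q + σ) (σ₀ := σ₀) (θ := θ)
    (bl := fun r => (bp r).1) (pl := fun r => (bp r).2) (N := dgV sn σ x) hσ₀ hθ0 ?_
    (fun r hr l hl => ⟨(hbp r hr l (by omega)).1, (hbp r hr l (by omega)).2.2⟩) ?_ ?_ ?_ ?_ ?_ ?_ hR
  · have h1 := hown.tr hpos key.2 hex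
    rw [hbp0 0 rfl] at h1
    exact h1
  all_goals try (intro r hr)
  · have : 0 ≤ s * q := by positivity
    linarith
  · intro l hl
    have h1 := (hbp r hr.le l (by omega)).2.1
    have h2 := (hbp (r + 1) hr l (by omega)).2.1
    have h3 := abs_le.1 (hlin l (by omega) (R - r) (Nat.sub_le _ _))
    have h4 := abs_le.1 (hlin l (by omega) (R - (r + 1)) (Nat.sub_le _ _))
    have h5 := (hzs (R - (r + 1)) (by omega)).2
    rw [show R - (r + 1) + 1 = R - r by omega] at h5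
    have h6 : s * (z' (R - (r + 1)) - z' (R - r)) ≤ s * (3 * φ) :=
      mul_le_mul_of_nonneg_left (by linarith) hs
    show sn (1 + l) (z' (R - (r + 1))) ≤ min ((bp r).2 l) ((bp (r + 1)).2 l) + θ
    rw [← sub_le_iff_le_add]
    refine le_min ?_ ?_
    · rw [hθ]
      nlinarith [h3.1, h4.2]
    · rw [hθ]
      linarith
  · obtain ⟨h1, h2, h3⟩ := hzG (R - (r + 1)) (Nat.sub_le _ _)
    have h4 := B.sn0 h1 h2 (h3.trans hxq)
    have h5 := B.P1
    show sn 0 (z' (R - (r + 1))) + (s * q + σ) + σ₀ ≤ P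
    linarith
  · obtain ⟨h1, h2, h3⟩ := hzG (R - (r + 1)) (Nat.sub_le _ _)
    have h4 := B.sn0 h1 h2 (h3.trans hxq)
    have h5 := B.l1
    show sn 0 (z' (R - (r + 1))) - z' (R - (r + 1)) + (s * q + σ) + σ₀ ≤ lam
    linarith
  · obtain ⟨h1, h2, h3⟩ := hzG (R - (r + 1)) (Nat.sub_le _ _)
    have h5 := B.o1
    show (s * q + σ) + σ₀ ≤ 1 - z' (R - (r + 1))
    linarith
  · intro l hl
    obtain ⟨h1, h2, h3⟩ := hzG (R - (r + 1)) (Nat.sub_le _ _)
    obtain ⟨g1, g2, g3⟩ := hzG (R - r) (Nat.sub_le _ _)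
    have a1 := (hbp r hr.le l (by omega)).2.1
    have a2 := (hbp (r + 1) hr l (by omega)).2.1
    have a3 := abs_le.1 (hlin l (by omega) (R - r) (Nat.sub_le _ _))
    have a4 := abs_le.1 (hlin l (by omega) (R - (r + 1)) (Nat.sub_le _ _))
    have a5 := abs_le.1 (hlx l (by omega))
    have a6 : s * (x - t) ≤ s * q := mul_le_mul_of_nonneg_left (by linarith) hs
    have a7 : 0 ≤ s * (z' (R - r) - t) := mul_nonneg hs (by linarith)
    have a8 : 0 ≤ s * (z' (R - (r + 1)) - t) := mul_nonneg hs (by linarith)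
    have hl0 : (l : ℝ) ≤ f := by exact_mod_cast (by omega : l ≤ f)
    have a9 : (l : ℝ) * θ ≤ f * θ := mul_le_mul_of_nonneg_right hl0 hθ0
    have hκθ : κ ≤ θ := by rw [hθ]; linarith
    have b1 : 0 ≤ ((l : ℝ) + 1) * σ := by positivity
    have hmin : sn (1 + l) t - φ - κ ≤ min ((bp r).2 l) ((bp (r + 1)).2 l) := by
      refine le_min ?_ ?_
      · linarith [a3.1]
      · linarith [a4.1]
    show dgV sn σ x l + z' (R - (r + 1)) + l * θ + σ₀ ≤ min ((bp r).2 l) ((bp (r + 1)).2 l) +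
      (s * q + σ)
    unfold dgV
    linarith [a5.2]
  · intro l hl i hi
    obtain ⟨h1, h2, h3⟩ := hzG (R - (r + 1)) (Nat.sub_le _ _)
    obtain ⟨g1, g2, g3⟩ := hzG (R - r) (Nat.sub_le _ _)
    have a1 := (hbp r hr.le l (by omega)).2.1
    have a2 := (hbp (r + 1) hr l (by omega)).2.1
    have a3 := abs_le.1 (hlin l (by omega) (R - r) (Nat.sub_le _ _))
    have a4 := abs_le.1 (hlin l (by omega) (R - (r + 1)) (Nat.sub_le _ _))
    have a5 := abs_le.1 (hlx l (by omega))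
    have c4 := abs_le.1 (hlin i (by omega) (R - (r + 1)) (Nat.sub_le _ _))
    have c5 := abs_le.1 (hlx i (by omega))
    have h5 := (hzs (R - (r + 1)) (by omega)).2
    rw [show R - (r + 1) + 1 = R - r by omega] at h5
    have h5' := (hzs (R - (r + 1)) (by omega)).1
    rw [show R - (r + 1) + 1 = R - r by omega] at h5'
    have h6 : s * (z' (R - (r + 1)) - z' (R - r)) ≤ s * (3 * φ) :=
      mul_le_mul_of_nonneg_left (by linarith) hs
    have h7 : 0 ≤ s * (z' (R - (r + 1)) - z' (R - r)) := mul_nonneg hs (by linarith)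
    have hl0 : (l : ℝ) ≤ f := by exact_mod_cast (by omega : l ≤ f)
    have a9 : (l : ℝ) * θ ≤ f * θ := mul_le_mul_of_nonneg_right hl0 hθ0
    have hl1 : (i : ℝ) + 1 ≤ l := by exact_mod_cast hi
    have b1 : σ ≤ (l - i) * σ := le_mul_of_one_le_left hσ (by linarith)
    have b2 : ((l : ℝ) - i) * σ = (l + 1) * σ - (i + 1) * σ := by ring
    rw [b2] at b1
    have b3 : θ = κ + 3 * s * φ + 2 * φ := hθ
    have b4 : s * (z' (R - (r + 1)) - z' (R - r)) =
      s * (z' (R - (r + 1)) - t) - s * (z' (R - r) - t) := by ring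
    rw [b4] at h6 h7
    have b5 : s * (3 * φ) = 3 * s * φ := by ring
    rw [b5] at h6
    have hmin : sn (1 + l) t + s * (z' (R - r) - t) - φ - κ ≤
        min ((bp r).2 l) ((bp (r + 1)).2 l) := by
      refine le_min ?_ ?_
      · linarith [a3.1]
      · linarith [a4.1]
    show dgV sn σ x l + sn (1 + i) (z' (R - (r + 1))) + l * θ + σ₀ ≤
      min ((bp r).2 l) ((bp (r + 1)).2 l) + dgV sn σ x i
    unfold dgV
    linarith [a5.2, c5.1, c4.2]

end Pool.T462
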