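import Pool.Agent.H62.T4.Num4f

/-!
# `NumV` on a sub-box

`gfam_box`: the family of the numbers of the velocities in a box. `num4_box`: `NumV` on a sub-box, in a
subclass. `num4T`: the same with the constants of the tie.
-/

set_option autoImplicit false

namespace Pool.T462

open Finset Real MvPolynomial
open Pool.Agent.H49.Ent Pool.Agent.H32.Dense Pool.STK Pool.KA Pool.KSAT Pool.K2S Pool.PB Pool.S6C
open Pool.GEN Pool.RCD Pool.LA91 Pool.OWN83 Pool.FVL91
open Pool.GRD (LbP)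
open Pool.CDX (AffL)
open Pool.V0T (LadT)
open Pool.T4C72 (BoxT)
open Pool.PRC54 (yQ)
open Pool.T4D63 (few_velR few_grid exs_velA)
open Pool.T4N (AffAt dgV NumV)

variable {m : ℕ} {S : PCl m} {c : ℕ → Fin m} {f : ℕ} {sn : ℕ → ℝ → ℝ} {G : Set ℝ}
  {b o s t q φ κ σ σ₀ P lam : ℝ} {bl pl : ℕ → ℝ}

/-- **The family of the numbers.** -/
theorem gfam_box (B : BxA S c f sn G b o s t q φ κ σ σ₀ P lam bl pl) {N : ℕ} (hN : 1 ≤ N)
    (hG : ∀ i ≤ N, t + (i / N : ℝ) * q ∈ G) (h3 : 2 * φ ≤ (s - 1) * (q / N)) :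
    GFam S (fun J F => ptr F J) (yQ ((range 1).image c) P lam) N (fun i => t + (i / N : ℝ) * q)
      (fun i => qVel m c 1 (f + 1) 1 bl pl (dgV sn σ (t + (i / N : ℝ) * q)))
      ((f + 1) * (s - 1) * Real.log 2) (2 * (f + 1) * φ) := by
  have hpos := B.L.pos
  have hφ : 0 < φ := B.L.φ0
  have hs := B.s0
  have hκ := B.κ0
  have hσ₀ := B.σ₀0
  have hq := B.q0
  have hf0 : (0 : ℝ) ≤ f := Nat.cast_nonneg f
  have hN0 : (0 : ℝ) < N := by exact_mod_cast hN
  have hl2 : 0 < Real.log 2 := Real.log_pos one_lt_two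
  have hl21 : Real.log 2 ≤ 1 := by
    have := Real.log_two_lt_d9
    linarith
  have hsφ : 0 ≤ 3 * s * φ := by positivity
  obtain ⟨θ, hθ⟩ : ∃ θ : ℝ, θ = κ + 3 * s * φ + 2 * φ := ⟨_, rfl⟩
  have hθ0 : 0 ≤ θ := by rw [hθ]; positivity
  have hσ1 := B.σ1
  rw [← hθ] at hσ1
  have hfθ : 0 ≤ f * θ := by positivity
  have e3 : ((f : ℝ) + 1) * θ = f * θ + θ := by ring
  have hσ : 0 ≤ σ := by linarith
  have hκθ : κ ≤ θ := by rw [hθ]; linarith
  have hxm : ∀ i j : ℕ, i ≤ j → (i / N : ℝ) * q ≤ (j / N : ℝ) * q := fun i j hij =>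
    mul_le_mul_of_nonneg_right (div_le_div_of_nonneg_right (by exact_mod_cast hij) hN0.le) hq.le
  have hx0 : ∀ i : ℕ, 0 ≤ (i / N : ℝ) * q := fun i => by positivity
  have hxq : ∀ i ≤ N, (i / N : ℝ) * q ≤ q := fun i hi => by
    have a1 := hxm i N hi
    rwa [div_self hN0.ne', one_mul] at a1
  have ho1 := B.L.o1
  have hto := B.tqo
  have hx1 : ∀ i ≤ N, t + (i / N : ℝ) * q ≤ 1 := fun i hi => by linarith [hxq i hi]
  have hlin : ∀ l ≤ f, ∀ i ≤ N, |sn (1 + l) (t + (i / N : ℝ) * q) - sn (1 + l) t -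
      s * ((i / N : ℝ) * q)| ≤ φ := by
    intro l hl i hi
    have a1 := B.lin l hl _ (hG i hi) (by linarith [hx0 i]) (by linarith [hxq i hi])
    rwa [add_sub_cancel_left] at a1
  -- the levels
  have hlev : ∀ i j : ℕ, i ≤ j → j ≤ N → ∀ l ≤ f,
      |dgV sn σ (t + (j / N : ℝ) * q) l - dgV sn σ (t + (i / N : ℝ) * q) l -
        (s - 1) * ((j / N : ℝ) * q - (i / N : ℝ) * q)| ≤ 2 * φ := by
    intro i j hij hj l hl
    have a1 := abs_le.1 (hlin l hl i (hij.trans hj))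
    have a2 := abs_le.1 (hlin l hl j hj)
    unfold dgV
    rw [abs_le]
    constructor <;> nlinarith [a1.1, a1.2, a2.1, a2.2]
  have hmon : ∀ i j : ℕ, i ≤ j → j ≤ N → ∀ l ≤ f,
      dgV sn σ (t + (i / N : ℝ) * q) l ≤ dgV sn σ (t + (j / N : ℝ) * q) l := by
    intro i j hij hj l hl
    rcases Nat.eq_or_lt_of_le hij with e | hlt
    · rw [e]
    · have a1 := (abs_le.1 (hlev i j hij hj l hl)).1
      have hsj : 0 ≤ s - 1 := by
        by_contra hcon
        push Not at hcon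
        have : (s - 1) * (q / N) < 0 := mul_neg_of_neg_of_pos hcon (by positivity)
        linarith
      have a2 : q / N ≤ (j / N : ℝ) * q - (i / N : ℝ) * q := by
        have hij' : (i : ℝ) + 1 ≤ j := by exact_mod_cast hlt
        have e1 : (j / N : ℝ) * q - (i / N : ℝ) * q = (j - i) * (q / N) := by ring
        rw [e1]
        exact le_mul_of_one_le_left (by positivity) (by linarith)
      have a3 := mul_le_mul_of_nonneg_left a2 hsj
      linarith
  have hsq : 0 ≤ s * q := by positivity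
  have hfew : ∀ i j : ℕ, i ≤ j → j ≤ N → Few S (fun J F => ptr F J) (vg t)
      (yQ ((range 1).image c) P lam)
      (qVel m c 1 (f + 1) 1 bl pl (dgV sn σ (t + (j / N : ℝ) * q)))
      (qVel m c 1 (f + 1) 1 bl pl (dgV sn σ (t + (i / N : ℝ) * q))) := by
    intro i j hij hj
    refine few_velR B.L B.tG (n := f + 1) le_rfl (fun l hl => (B.la l (by omega)).1)
      (fun l hl => (B.la l (by omega)).1) hσ₀ hθ0 (fun l hl => ?_) (lv := s * q + σ) ?_ ?_ ?_ ?_
      (fun l hl => hmon i j hij hj l (by omega)) (fun l hl => ?_) (fun l hl i₀ hi₀ => ?_)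
    · linarith [(B.la l (by omega)).2.1]
    · by_contra hcon
      linarith
    · have h5 := B.P1
      linarith
    · have h5 := B.l1
      linarith
    · have h5 := B.o1
      linarith
    · have a1 := abs_le.1 (hlin l (by omega) i (hij.trans hj))
      have a2 := (B.la l (by omega)).2.1
      have hl0 : (l : ℝ) ≤ f := by exact_mod_cast (by omega : l ≤ f)
      have a9 : (l : ℝ) * θ ≤ f * θ := mul_le_mul_of_nonneg_right hl0 hθ0
      have a6 : s * ((i / N : ℝ) * q) ≤ s * q :=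
        mul_le_mul_of_nonneg_left (hxq i (hij.trans hj)) hs
      have b1 : 0 ≤ ((l : ℝ) + 1) * σ := by positivity
      rw [min_self]
      unfold dgV
      linarith [a1.2, hx0 i]
    · have a1 := abs_le.1 (hlin l (by omega) i (hij.trans hj))
      have a2 := (B.la l (by omega)).2.1
      have a3 := abs_le.1 (hlin i₀ (by omega) i (hij.trans hj))
      have a4 := hmon i j hij hj i₀ (by omega)
      have hl0 : (l : ℝ) ≤ f := by exact_mod_cast (by omega : l ≤ f)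
      have a9 : (l : ℝ) * θ ≤ f * θ := mul_le_mul_of_nonneg_right hl0 hθ0
      have hl1 : (i₀ : ℝ) + 1 ≤ l := by exact_mod_cast hi₀
      have b1 : σ ≤ (l - i₀) * σ := le_mul_of_one_le_left hσ (by linarith)
      have b2 : ((l : ℝ) - i₀) * σ = (l + 1) * σ - (i₀ + 1) * σ := by ring
      rw [b2] at b1
      rw [min_self]
      unfold dgV at a4 ⊢
      linarith [a1.2, a3.1]
  refine ⟨fun i j hij _ => by linarith [hxm i j hij], ?_, fun j hj => ?_,
    fun i j hij hj => Few.late hpos (by linarith [hx0 i]) (hx1 i (hij.trans hj))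
      (hfew j j le_rfl hj), fun i j k hij hjk hk => Few.late hpos (by linarith [hx0 i])
      (hx1 i ((hij.trans hjk).trans hk)) (hfew j k hjk hk), fun i j hij hj => ?_⟩
  · show t + (N / N : ℝ) * q ≤ 1
    exact hx1 N le_rfl
  · exact exs_velA (fun l hl => by linarith [(B.la l (by omega)).1, hx1 0 (Nat.zero_le _), hx0 0])
      fun l hl => (B.la l (by omega)).2.2
  · have a1 := own_box B (hG i (hij.trans hj)) (by linarith [hx0 i])
      (by linarith [hxq i (hij.trans hj)])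
    have a2 := fewN_dig hpos a1 (N' := dgV sn σ (t + (j / N : ℝ) * q))
      (fun l hl => hmon i j hij hj l (by omega))
    refine a2.le ?_
    rw [zero_add]
    have a3 : ∀ l ∈ range (f + 1), (dgV sn σ (t + (j / N : ℝ) * q) l -
        dgV sn σ (t + (i / N : ℝ) * q) l) * Real.log 2 ≤
        (s - 1) * ((j / N : ℝ) * q - (i / N : ℝ) * q) * Real.log 2 + 2 * φ := by
      intro l hl
      rw [mem_range] at hl
      have a4 := (abs_le.1 (hlev i j hij hj l (by omega))).2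
      have a5 : (dgV sn σ (t + (j / N : ℝ) * q) l -
        dgV sn σ (t + (i / N : ℝ) * q) l) * Real.log 2 ≤
        ((s - 1) * ((j / N : ℝ) * q - (i / N : ℝ) * q) + 2 * φ) * Real.log 2 :=
        mul_le_mul_of_nonneg_right (by linarith) hl2.le
      have a6 : 2 * φ * Real.log 2 ≤ 2 * φ * 1 := mul_le_mul_of_nonneg_left hl21 (by linarith)
      linarith
    refine (sum_le_sum a3).trans (le_of_eq ?_)
    rw [sum_const, card_range, nsmul_eq_mul]
    push_cast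
    ring

/-- **`NumV` on a sub-box**, in a subclass. -/
theorem num4_box (B : BxA S c 2 sn G b o s t q φ κ σ σ₀ P lam bl pl) (hS : S.Ne)
    {M : ℝ} (hM : Bas S (fun J F A => (cnt F.p (ptr F J) A : ℝ) ≤ Real.exp (M * J)))
    {L n : ℕ} {κ₀ : ℝ} (hL : 1 ≤ L) (hn : 1 ≤ n) (hκ₀ : 0 < κ₀)
    (hG : ∀ i ≤ L ^ n, t + (i / (L : ℝ) ^ n) * q ∈ G)
    (h3 : 2 * φ ≤ (s - 1) * (q / (L : ℝ) ^ n))
    (h4 : 2 * (3 * (s - 1) * Real.log 2 + 1) * L ≤ κ₀ * n)
    (h5 : 2 * (L + 2) * (6 * φ * (L : ℝ) ^ n) ≤ κ₀ * q) (h6 : 6 * φ ≤ q) :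
    ∃ S' : PCl m, S'.Ne ∧
      (∀ (τ : ℝ) (J : ℕ) (F : Fam m J) (A : F.Ω → Prop), S'.St τ J F A → S.St τ J F A) ∧
      ∃ (N : ℕ → ℕ → ℝ) (k p : ℕ), 1 ≤ k ∧ k ≤ n ∧ L ∣ p ∧ p + L ≤ L ^ k ∧
        (∀ i ≤ L, t + (p / (L : ℝ) ^ k) * q + i * (q / (L : ℝ) ^ k) ∈ G) ∧
        NumV S' c sn bl pl P lam σ (3 * s * Real.log 2) (κ₀ * (q / (L : ℝ) ^ k)) L
          (fun i => t + (p / (L : ℝ) ^ k) * q + i * (q / (L : ℝ) ^ k)) N := by
  have hL0 : (0 : ℝ) < L := by exact_mod_cast hL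
  have hq := B.q0
  have hpos := B.L.pos
  have hφ : 0 < φ := B.L.φ0
  have hl2 : 0 < Real.log 2 := Real.log_pos one_lt_two
  have hLn : (0 : ℝ) < (L : ℝ) ^ n := by positivity
  have hs1 : 0 < s - 1 := by
    by_contra hcon
    push Not at hcon
    have : (s - 1) * (q / (L : ℝ) ^ n) ≤ 0 := mul_nonpos_of_nonpos_of_nonneg hcon (by positivity)
    linarith
  have hg := gfam_box B (N := L ^ n) (Nat.one_le_pow _ _ hL)
    (fun i hi => by push_cast; exact hG i hi) (by push_cast; exact h3)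
  simp only [Nat.cast_pow] at hg
  obtain ⟨S', s1, s2, θ, k, p, g1, g2, g3, g4, g5, g6, g7, g8⟩ := num_g hS hpos hM hL hn hq
    (by push_cast; positivity) (by push_cast; positivity) hκ₀ (fun i _ => rfl) hg
    (by push_cast; norm_num; exact h4) (by push_cast; norm_num; exact h5)
    (by push_cast; norm_num; exact h6)
  have hLk : (0 : ℝ) < (L : ℝ) ^ k := by positivity
  have hρ : 0 < q / (L : ℝ) ^ k := by positivity
  have hwin : ∀ i ≤ L, t + (((p + i) * L ^ (n - k) : ℕ) / (L : ℝ) ^ n) * q =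
      t + (p / (L : ℝ) ^ k) * q + i * (q / (L : ℝ) ^ k) := by
    intro i hi
    rw [(g6 i hi).2]
    push_cast
    field_simp
    ring
  refine ⟨S', s1, s2, fun i j => θ ((p + i) * L ^ (n - k)) ((p + j) * L ^ (n - k)), k, p, g2, g3,
    g5, g4, fun i hi => ?_, ⟨fun i j hij hj => (g7 i j hij hj).1, fun i j hij hj => ?_,
    fun i j l hij hjl hl => (g8 i j l hij hjl hl).2, fun i j l hij hjl hl =>
      (g8 i j l hij hjl hl).1, fun i j hij hj => ?_, fun i hi => ?_⟩⟩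
  · rw [← hwin i hi]
    exact hG _ (g6 i hi).1
  · have h1 := (g7 i j hij hj).2
    refine h1.trans (add_le_add ?_ le_rfl)
    have hij' : (i : ℝ) ≤ j := by exact_mod_cast hij
    have e1 : t + (p / (L : ℝ) ^ k) * q + j * (q / (L : ℝ) ^ k) -
        (t + (p / (L : ℝ) ^ k) * q + i * (q / (L : ℝ) ^ k)) = (j - i) * (q / (L : ℝ) ^ k) := by
      ring
    show _ ≤ 3 * s * Real.log 2 * (t + (p / (L : ℝ) ^ k) * q + j * (q / (L : ℝ) ^ k) -
      (t + (p / (L : ℝ) ^ k) * q + i * (q / (L : ℝ) ^ k)))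
    rw [e1]
    refine mul_le_mul_of_nonneg_right ?_ (mul_nonneg (by linarith) hρ.le)
    push_cast
    nlinarith
  · have h1 := g1.nn _ _ (Nat.mul_le_mul_right _ (Nat.add_le_add_left hij p)) (g6 j hj).1
    simp only [hwin i (hij.trans hj), hwin j hj] at h1
    exact h1
  · obtain ⟨η, hη⟩ := g1.rn _ (g6 i hi).1
    simp only [hwin i hi] at hη
    exact ⟨η, hη⟩

/-- **`num4`** with the constants of the tie. `L`: the steps of the sub-box; `κ₀`: the error; `σ₁`: the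
margin of the digits in units `q`; the path of the first place is known to `T q` digits behind natural. -/
theorem num4T (s : ℝ) (hs : 1 < s) (L : ℕ) (hL : 1 ≤ L) (κ₀ : ℝ) (hκ₀ : 0 < κ₀) :
    ∃ n : ℕ, 1 ≤ n ∧ ∀ T σ₁ : ℝ, s + 3 ≤ T → 0 < σ₁ → σ₁ ≤ 1 → ∃ Λ e : ℝ, 1 ≤ Λ ∧ 0 < e ∧
    ∀ {m : ℕ} {D : ℕ} {S : PCl m} {c : ℕ → Fin m} {sn sp : ℕ → ℝ → ℝ} {G : Set ℝ}
      {hr b o t q φ' e' P lam M : ℝ} {lm : ℝ → ℝ} {bl pl : ℕ → ℝ},
      S.Ne → Bas S (fun J F A => (cnt F.p (ptr F J) A : ℝ) ≤ Real.exp (M * J)) →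
      BoxT S c 1 2 D sn sp G s hr b o t q Λ φ' e' lm → φ' ≤ e * q →
      AffAt S c sn t (e * q) bl pl →
      (∀ v ∈ G, t ≤ v → v ≤ t + q → ∃ bl' pl' : ℕ → ℝ, AffAt S c sn v (e * q) bl' pl') →
      (∀ i ≤ L ^ n, t + (i / (L : ℝ) ^ n) * q ∈ G) → sn 0 t + T * q ≤ P →
      sn 0 t - t + T * q ≤ lam →
      ∃ S' : PCl m, S'.Ne ∧
      (∀ (τ : ℝ) (J : ℕ) (F : Fam m J) (A : F.Ω → Prop), S'.St τ J F A → S.St τ J F A) ∧
      ∃ (N : ℕ → ℕ → ℝ) (k p : ℕ), 1 ≤ k ∧ k ≤ n ∧ L ∣ p ∧ p + L ≤ L ^ k ∧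
        (∀ i ≤ L, t + (p / (L : ℝ) ^ k) * q + i * (q / (L : ℝ) ^ k) ∈ G) ∧
        NumV S' c sn bl pl P lam (σ₁ * q) (3 * s * Real.log 2) (κ₀ * (q / (L : ℝ) ^ k)) L
          (fun i => t + (p / (L : ℝ) ^ k) * q + i * (q / (L : ℝ) ^ k)) N := by
  have hL0 : (0 : ℝ) < L := by exact_mod_cast hL
  obtain ⟨n₀, hn₀⟩ := exists_nat_ge (2 * (3 * (s - 1) * Real.log 2 + 1) * L / κ₀)
  obtain ⟨n, hn⟩ : ∃ n : ℕ, n = n₀ + 1 := ⟨_, rfl⟩
  have hn1 : 1 ≤ n := by omega
  have h4 : 2 * (3 * (s - 1) * Real.log 2 + 1) * L ≤ κ₀ * n := by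
    rw [div_le_iff₀ hκ₀] at hn₀
    have : (n₀ : ℝ) ≤ n := by rw [hn]; push_cast; linarith
    nlinarith
  have hLn : (0 : ℝ) < (L : ℝ) ^ n := by positivity
  refine ⟨n, hn1, fun T σ₁ hT hσ₁ hσ₁1 => ?_⟩
  obtain ⟨e, he, e1, e2, e3, e4⟩ : ∃ e : ℝ, 0 < e ∧ e ≤ σ₁ / (40 * (s + 1)) ∧
      2 * e ≤ (s - 1) / (L : ℝ) ^ n ∧ 2 * (L + 2) * (6 * e * (L : ℝ) ^ n) ≤ κ₀ ∧ 6 * e ≤ 1 := by
    refine ⟨min (σ₁ / (40 * (s + 1))) (min ((s - 1) / (L : ℝ) ^ n / 2)
      (min (κ₀ / (12 * (L + 2) * (L : ℝ) ^ n)) (1 / 6))), ?_, min_le_left _ _, ?_, ?_, ?_⟩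
    · have hs1 : 0 < s - 1 := by linarith
      positivity
    · have := (min_le_right (σ₁ / (40 * (s + 1))) (min ((s - 1) / (L : ℝ) ^ n / 2)
        (min (κ₀ / (12 * (L + 2) * (L : ℝ) ^ n)) (1 / 6)))).trans (min_le_left _ _)
      linarith
    · have := (min_le_right (σ₁ / (40 * (s + 1))) (min ((s - 1) / (L : ℝ) ^ n / 2)
        (min (κ₀ / (12 * (L + 2) * (L : ℝ) ^ n)) (1 / 6)))).trans ((min_le_right _ _).trans
        (min_le_left _ _))
      rw [le_div_iff₀ (by positivity)] at this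
      linarith
    · have := (min_le_right (σ₁ / (40 * (s + 1))) (min ((s - 1) / (L : ℝ) ^ n / 2)
        (min (κ₀ / (12 * (L + 2) * (L : ℝ) ^ n)) (1 / 6)))).trans ((min_le_right _ _).trans
        (min_le_right _ _))
      linarith
  have e1' : 40 * (s + 1) * e ≤ σ₁ := by
    rw [le_div_iff₀ (by positivity)] at e1
    linarith
  refine ⟨s + 4, e, by linarith, he, ?_⟩
  intro m D S c sn sp G hr b o t q φ' e' P lam M lm bl pl hS hM Bx hφ hA hAll hG hP hlam
  have hq := Bx.u0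
  have hφ0 := Bx.lad.φ0
  have a1 := Bx.bw
  have a2 := Bx.wo
  have a3 := Bx.o1
  have hΛq : (s + 4) * q = s * q + 4 * q := by ring
  have hsq : 0 < s * q := by positivity
  rw [hΛq] at a1 a2 a3
  have heq : 0 < e * q := mul_pos he hq
  have b1 : 40 * (s + 1) * (e * q) ≤ σ₁ * q := by
    have := mul_le_mul_of_nonneg_right e1' hq.le
    linarith
  have b2 : 0 < s * (e * q) := by positivity
  have b3 : σ₁ * q ≤ q := mul_le_of_le_one_left hq.le hσ₁1
  have b4 : 3 * s * φ' ≤ 3 * s * (e * q) := mul_le_mul_of_nonneg_left hφ (by linarith)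
  have b5 : (s + 3) * q ≤ T * q := mul_le_mul_of_nonneg_right hT hq.le
  have B : BxA S c 2 sn G b o s t q φ' (e * q) (σ₁ * q) (e * q) P lam bl pl := {
    L := Bx.lad
    tG := Bx.wG
    bt := by linarith
    q0 := hq
    tqo := by linarith
    s0 := by linarith
    κ0 := heq.le
    σ₀0 := heq
    lin := fun l hl v hv h1 h2 => Bx.lin (1 + l) (by omega) (by omega) v hv (by linarith)
      (by linarith)
    σ1 := by
      push_cast
      linarith
    P1 := by linarith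
    l1 := by linarith
    o1 := by linarith
    la := fun l hl => hA l (by omega)
    lv := fun v hv h1 h2 => by
      obtain ⟨bl', pl', h3⟩ := hAll v hv h1 h2
      exact ⟨bl', pl', fun l hl => h3 l (by omega)⟩ }
  refine num4_box B hS hM hL hn1 hκ₀ hG ?_ h4 ?_ ?_
  · have c1 : 2 * (e * q) ≤ (s - 1) / (L : ℝ) ^ n * q := by
      have := mul_le_mul_of_nonneg_right e2 hq.le
      linarith
    have c2 : (s - 1) * (q / (L : ℝ) ^ n) = (s - 1) / (L : ℝ) ^ n * q := by ring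
    rw [c2]
    linarith
  · have c1 : 2 * (L + 2) * (6 * φ' * (L : ℝ) ^ n) ≤ 2 * (L + 2) * (6 * (e * q) * (L : ℝ) ^ n) :=
      mul_le_mul_of_nonneg_left (mul_le_mul_of_nonneg_right (by linarith) hLn.le) (by positivity)
    have c2 := mul_le_mul_of_nonneg_right e3 hq.le
    linarith
  · have c2 := mul_le_mul_of_nonneg_right e4 hq.le
    linarith

end Pool.T462
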