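import Pool.Agent.H62.T4.Num4g

/-!
# The numbers of the velocities of any number of targets on a sub-box

`NumK`: the numbers of the velocities of the targets `c 1, …, c (1 + f)`, as `NumV`. `numK_box`,
`numKT`: as `num4_box`, `num4T` for any number of targets, from the ladder of these targets.
-/

set_option autoImplicit false

namespace Pool.T462

open Finset Real MvPolynomial
open Pool.Agent.H49.Ent Pool.Agent.H32.Dense Pool.STK Pool.KA Pool.KSAT Pool.K2S Pool.PB Pool.S6C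
open Pool.GEN Pool.RCD Pool.LA91 Pool.OWN83 Pool.FVL91
open Pool.GRD (LbP)
open Pool.CDX (AffL)
open Pool.V0T (LadT)
open Pool.PRC54 (yQ)
open Pool.T4N (dgV)

variable {m : ℕ} {S : PCl m} {c : ℕ → Fin m} {f : ℕ} {sn : ℕ → ℝ → ℝ} {G : Set ℝ}
  {b o s t q φ κ σ σ₀ P lam : ℝ} {bl pl : ℕ → ℝ}

/-- **The numbers of the velocities** of the targets `c 1, …, c (1 + f)`. -/
structure NumK {m : ℕ} (S : PCl m) (c : ℕ → Fin m) (f : ℕ) (sn : ℕ → ℝ → ℝ) (bl pl : ℕ → ℝ)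
    (P₀ lam σ C κ : ℝ) (L : ℕ) (x : ℕ → ℝ) (N : ℕ → ℕ → ℝ) : Prop where
  nn : ∀ i j, i ≤ j → j ≤ L → 0 ≤ N i j
  up : ∀ i j, i ≤ j → j ≤ L → N i j ≤ C * (x j - x i) + κ
  sub : ∀ i j l, i ≤ j → j ≤ l → l ≤ L → N i l ≤ N i j + N j l + κ
  sup : ∀ i j l, i ≤ j → j ≤ l → l ≤ L → N i j + N j l ≤ N i l + κ
  ev : ∀ i j, i ≤ j → j ≤ L → NN S (fun J F => ptr F J) (vg (x i))
    (yQ ((range 1).image c) P₀ lam) (qVel m c 1 (f + 1) 1 bl pl (dgV sn σ (x j))) (N i j)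
  rn : ∀ i ≤ L, ∃ η : ℝ, RNum S (fun J F => ptr F J) (vg (x i)) η

/-- **Affine closed labels of the targets** `c 1, …, c (1 + f)` at the window `w`. -/
def AffK {m : ℕ} (S : PCl m) (c : ℕ → Fin m) (f : ℕ) (sn : ℕ → ℝ → ℝ) (w φ : ℝ)
    (bl pl : ℕ → ℝ) : Prop :=
  ∀ l ≤ f, bl l ≤ w ∧ sn (1 + l) w - φ ≤ pl l ∧
    AffL S ((range (1 + l)).image c) (c (1 + l)) (bl l) (pl l)

/-- **`NumK` on a sub-box**, in a subclass. -/
theorem numK_box (B : BxA S c f sn G b o s t q φ κ σ σ₀ P lam bl pl) (hS : S.Ne)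
    {M : ℝ} (hM : Bas S (fun J F A => (cnt F.p (ptr F J) A : ℝ) ≤ Real.exp (M * J)))
    {L n : ℕ} {κ₀ : ℝ} (hL : 1 ≤ L) (hn : 1 ≤ n) (hκ₀ : 0 < κ₀)
    (hG : ∀ i ≤ L ^ n, t + (i / (L : ℝ) ^ n) * q ∈ G)
    (h3 : 2 * φ ≤ (s - 1) * (q / (L : ℝ) ^ n))
    (h4 : 2 * ((f + 1) * (s - 1) * Real.log 2 + 1) * L ≤ κ₀ * n)
    (h5 : 2 * (L + 2) * (2 * (f + 1) * φ * (L : ℝ) ^ n) ≤ κ₀ * q) (h6 : 2 * (f + 1) * φ ≤ q) :
    ∃ S' : PCl m, S'.Ne ∧
      (∀ (τ : ℝ) (J : ℕ) (F : Fam m J) (A : F.Ω → Prop), S'.St τ J F A → S.St τ J F A) ∧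
      ∃ (N : ℕ → ℕ → ℝ) (k p : ℕ), 1 ≤ k ∧ k ≤ n ∧ L ∣ p ∧ p + L ≤ L ^ k ∧
        (∀ i ≤ L, t + (p / (L : ℝ) ^ k) * q + i * (q / (L : ℝ) ^ k) ∈ G) ∧
        NumK S' c f sn bl pl P lam σ ((f + 1) * s * Real.log 2) (κ₀ * (q / (L : ℝ) ^ k)) L
          (fun i => t + (p / (L : ℝ) ^ k) * q + i * (q / (L : ℝ) ^ k)) N := by
  have hL0 : (0 : ℝ) < L := by exact_mod_cast hL
  have hq := B.q0
  have hpos := B.L.pos
  have hφ : 0 < φ := B.L.φ0
  have hl2 : 0 < Real.log 2 := Real.log_pos one_lt_two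
  have hLn : (0 : ℝ) < (L : ℝ) ^ n := by positivity
  have hs1 : 0 < s - 1 := by
    by_contra hcon
    push Not at hcon
    have : (s - 1) * (q / (L : ℝ) ^ n) ≤ 0 := mul_nonpos_of_nonpos_of_nonneg hcon (by positivity)
    linarith
  have hg := gfam_box B (N := L ^ n) (Nat.one_le_pow _ _ hL)
    (fun i hi => by push_cast; exact hG i hi) (by push_cast; exact h3)
  simp only [Nat.cast_pow] at hg
  obtain ⟨S', s1, s2, θ, k, p, g1, g2, g3, g4, g5, g6, g7, g8⟩ := num_g hS hpos hM hL hn hq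
    (by push_cast; positivity) (by push_cast; positivity) hκ₀ (fun i _ => rfl) hg
    (by push_cast; exact h4) (by push_cast; exact h5)
    (by push_cast; exact h6)
  have hLk : (0 : ℝ) < (L : ℝ) ^ k := by positivity
  have hρ : 0 < q / (L : ℝ) ^ k := by positivity
  have hwin : ∀ i ≤ L, t + (((p + i) * L ^ (n - k) : ℕ) / (L : ℝ) ^ n) * q =
      t + (p / (L : ℝ) ^ k) * q + i * (q / (L : ℝ) ^ k) := by
    intro i hi
    rw [(g6 i hi).2]
    push_cast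
    field_simp
    ring
  refine ⟨S', s1, s2, fun i j => θ ((p + i) * L ^ (n - k)) ((p + j) * L ^ (n - k)), k, p, g2, g3,
    g5, g4, fun i hi => ?_, ⟨fun i j hij hj => (g7 i j hij hj).1, fun i j hij hj => ?_,
    fun i j l hij hjl hl => (g8 i j l hij hjl hl).2, fun i j l hij hjl hl =>
      (g8 i j l hij hjl hl).1, fun i j hij hj => ?_, fun i hi => ?_⟩⟩
  · rw [← hwin i hi]
    exact hG _ (g6 i hi).1
  · have h1 := (g7 i j hij hj).2
    refine h1.trans (add_le_add ?_ le_rfl)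
    have hij' : (i : ℝ) ≤ j := by exact_mod_cast hij
    have e1 : t + (p / (L : ℝ) ^ k) * q + j * (q / (L : ℝ) ^ k) -
        (t + (p / (L : ℝ) ^ k) * q + i * (q / (L : ℝ) ^ k)) = (j - i) * (q / (L : ℝ) ^ k) := by
      ring
    show _ ≤ (f + 1) * s * Real.log 2 * (t + (p / (L : ℝ) ^ k) * q + j * (q / (L : ℝ) ^ k) -
      (t + (p / (L : ℝ) ^ k) * q + i * (q / (L : ℝ) ^ k)))
    rw [e1]
    refine mul_le_mul_of_nonneg_right ?_ (mul_nonneg (by linarith) hρ.le)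
    push_cast
    nlinarith
  · have h1 := g1.nn _ _ (Nat.mul_le_mul_right _ (Nat.add_le_add_left hij p)) (g6 j hj).1
    simp only [hwin i (hij.trans hj), hwin j hj] at h1
    exact h1
  · obtain ⟨η, hη⟩ := g1.rn _ (g6 i hi).1
    simp only [hwin i hi] at hη
    exact ⟨η, hη⟩

/-- **`numK`** with the constants of the tie. `L`: the steps of the sub-box; `κ₀`: the error; `σ₁`: the
margin of the digits in units `q`; the path of the first place is known to `T q` digits behind natural. -/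
theorem numKT (f : ℕ) (s : ℝ) (hs : 1 < s) (L : ℕ) (hL : 1 ≤ L) (κ₀ : ℝ) (hκ₀ : 0 < κ₀) :
    ∃ n : ℕ, 1 ≤ n ∧ ∀ T σ₁ : ℝ, s + 3 ≤ T → 0 < σ₁ → σ₁ ≤ 1 → ∃ Λ e : ℝ, 1 ≤ Λ ∧ 0 < e ∧
    ∀ {m : ℕ} {S : PCl m} {c : ℕ → Fin m} {sn : ℕ → ℝ → ℝ} {G : Set ℝ}
      {b o t q φ' P lam M : ℝ} {bl pl : ℕ → ℝ},
      S.Ne → Bas S (fun J F A => (cnt F.p (ptr F J) A : ℝ) ≤ Real.exp (M * J)) →
      LadT S c 1 f sn G b o φ' → 0 < q → φ' ≤ e * q → t ∈ G → b ≤ t → t + Λ * q ≤ o →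
      (∀ l, 1 ≤ l → l ≤ 1 + f → ∀ v ∈ G, b ≤ v → v ≤ o → |sn l v - sn l t - s * (v - t)| ≤ φ') →
      AffK S c f sn t (e * q) bl pl →
      (∀ v ∈ G, t ≤ v → v ≤ t + q → ∃ bl' pl' : ℕ → ℝ, AffK S c f sn v (e * q) bl' pl') →
      (∀ i ≤ L ^ n, t + (i / (L : ℝ) ^ n) * q ∈ G) → sn 0 t + T * q ≤ P →
      sn 0 t - t + T * q ≤ lam →
      ∃ S' : PCl m, S'.Ne ∧
      (∀ (τ : ℝ) (J : ℕ) (F : Fam m J) (A : F.Ω → Prop), S'.St τ J F A → S.St τ J F A) ∧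
      ∃ (N : ℕ → ℕ → ℝ) (k p : ℕ), 1 ≤ k ∧ k ≤ n ∧ L ∣ p ∧ p + L ≤ L ^ k ∧
        (∀ i ≤ L, t + (p / (L : ℝ) ^ k) * q + i * (q / (L : ℝ) ^ k) ∈ G) ∧
        NumK S' c f sn bl pl P lam (σ₁ * q) ((f + 1) * s * Real.log 2)
          (κ₀ * (q / (L : ℝ) ^ k)) L
          (fun i => t + (p / (L : ℝ) ^ k) * q + i * (q / (L : ℝ) ^ k)) N := by
  have hL0 : (0 : ℝ) < L := by exact_mod_cast hL
  have hf0 : (0 : ℝ) ≤ f := Nat.cast_nonneg f
  obtain ⟨n₀, hn₀⟩ := exists_nat_ge (2 * ((f + 1) * (s - 1) * Real.log 2 + 1) * L / κ₀)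
  obtain ⟨n, hn⟩ : ∃ n : ℕ, n = n₀ + 1 := ⟨_, rfl⟩
  have hn1 : 1 ≤ n := by omega
  have h4 : 2 * ((f + 1) * (s - 1) * Real.log 2 + 1) * L ≤ κ₀ * n := by
    rw [div_le_iff₀ hκ₀] at hn₀
    have : (n₀ : ℝ) ≤ n := by rw [hn]; push_cast; linarith
    nlinarith
  have hLn : (0 : ℝ) < (L : ℝ) ^ n := by positivity
  refine ⟨n, hn1, fun T σ₁ hT hσ₁ hσ₁1 => ?_⟩
  obtain ⟨e, he, e1, e2, e3, e4⟩ : ∃ e : ℝ, 0 < e ∧ e ≤ σ₁ / ((f + 1) * (40 * (s + 1))) ∧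
      2 * e ≤ (s - 1) / (L : ℝ) ^ n ∧ 2 * (L + 2) * (2 * (f + 1) * e * (L : ℝ) ^ n) ≤ κ₀ ∧
      2 * (f + 1) * e ≤ 1 := by
    have hs1 : 0 < s - 1 := by linarith
    have key : ∀ a b c d : ℝ, 0 < a → 0 < b → 0 < c → 0 < d → ∃ e : ℝ, 0 < e ∧ e ≤ a ∧ e ≤ b ∧
        e ≤ c ∧ e ≤ d := fun a b c d ha hb hc hd =>
      ⟨min (min a b) (min c d), lt_min (lt_min ha hb) (lt_min hc hd),
        (min_le_left _ _).trans (min_le_left _ _), (min_le_left _ _).trans (min_le_right _ _),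
        (min_le_right _ _).trans (min_le_left _ _), (min_le_right _ _).trans (min_le_right _ _)⟩
    obtain ⟨e, he, k1, k2, k3, k4⟩ := key (σ₁ / ((f + 1) * (40 * (s + 1))))
      ((s - 1) / (L : ℝ) ^ n / 2) (κ₀ / (4 * (f + 1) * (L + 2) * (L : ℝ) ^ n))
      (1 / (2 * (f + 1))) (by positivity) (by positivity) (by positivity) (by positivity)
    refine ⟨e, he, k1, by linarith, ?_, ?_⟩
    · rw [le_div_iff₀ (by positivity)] at k3
      linarith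
    · rw [le_div_iff₀ (by positivity)] at k4
      linarith
  have e1' : (f + 1) * (40 * (s + 1)) * e ≤ σ₁ := by
    rw [le_div_iff₀ (by positivity)] at e1
    linarith
  refine ⟨s + 4, e, by linarith, he, ?_⟩
  intro m S c sn G b o t q φ' P lam M bl pl hS hM Lt hq hφ htG hbt hto hlin hA hAll hG hP hlam
  have hφ0 := Lt.φ0
  have a3 := Lt.o1
  have hΛq : (s + 4) * q = s * q + 4 * q := by ring
  have hsq : 0 < s * q := by positivity
  rw [hΛq] at hto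
  have heq : 0 < e * q := mul_pos he hq
  have b1 : (f + 1) * (40 * (s + 1)) * (e * q) ≤ σ₁ * q := by
    have := mul_le_mul_of_nonneg_right e1' hq.le
    linarith
  have b2 : 0 < s * (e * q) := by positivity
  have b3 : σ₁ * q ≤ q := mul_le_of_le_one_left hq.le hσ₁1
  have b4 : 3 * s * φ' ≤ 3 * s * (e * q) := mul_le_mul_of_nonneg_left hφ (by linarith)
  have b5 : (s + 3) * q ≤ T * q := mul_le_mul_of_nonneg_right hT hq.le
  have B : BxA S c f sn G b o s t q φ' (e * q) (σ₁ * q) (e * q) P lam bl pl := {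
    L := Lt
    tG := htG
    bt := hbt
    q0 := hq
    tqo := by linarith
    s0 := by linarith
    κ0 := heq.le
    σ₀0 := heq
    lin := fun l hl v hv h1 h2 => hlin (1 + l) (by omega) (by omega) v hv (by linarith)
      (by linarith)
    σ1 := by
      have c1 : (f + 1) * (e * q + 3 * s * φ' + 2 * φ') ≤
          (f + 1) * (e * q + 3 * s * (e * q) + 2 * (e * q)) :=
        mul_le_mul_of_nonneg_left (by linarith) (by linarith)
      have c2 : (f + 1) * (e * q + 3 * s * (e * q) + 2 * (e * q)) + 5 * (e * q) ≤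
          (f + 1) * (40 * (s + 1)) * (e * q) := by
        have c3 : 0 ≤ f * (e * q) := by positivity
        have c4 : 0 ≤ f * (s * (e * q)) := by positivity
        nlinarith
      linarith
    P1 := by linarith
    l1 := by linarith
    o1 := by linarith
    la := hA
    lv := fun v hv h1 h2 => hAll v hv h1 h2 }
  refine numK_box B hS hM hL hn1 hκ₀ hG ?_ h4 ?_ ?_
  · have c1 : 2 * (e * q) ≤ (s - 1) / (L : ℝ) ^ n * q := by
      have := mul_le_mul_of_nonneg_right e2 hq.le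
      linarith
    have c2 : (s - 1) * (q / (L : ℝ) ^ n) = (s - 1) / (L : ℝ) ^ n * q := by ring
    rw [c2]
    linarith
  · have c1 : 2 * (L + 2) * (2 * (f + 1) * φ' * (L : ℝ) ^ n) ≤
        2 * (L + 2) * (2 * (f + 1) * (e * q) * (L : ℝ) ^ n) :=
      mul_le_mul_of_nonneg_left (mul_le_mul_of_nonneg_right (mul_le_mul_of_nonneg_left hφ
        (by positivity)) hLn.le) (by positivity)
    have c2 := mul_le_mul_of_nonneg_right e3 hq.le
    linarith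
  · have c1 : 2 * (f + 1) * φ' ≤ 2 * (f + 1) * (e * q) :=
      mul_le_mul_of_nonneg_left hφ (by positivity)
    have c2 := mul_le_mul_of_nonneg_right e4 hq.le
    linarith

end Pool.T462
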