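import Pool.Agent.H62.T4.Num4h
import Pool.Agent.H64.D1.S

/-!
# The numbers of the velocities of two targets below a faster one

`numD_T`: `numKT` for the places `1`, `2` of the box `BoxD`.
-/

set_option autoImplicit false

namespace Pool.T462

open Finset Real MvPolynomial
open Pool.Agent.H49.Ent Pool.Agent.H32.Dense Pool.STK Pool.KA Pool.KSAT Pool.K2S Pool.PB Pool.S6C
open Pool.GEN Pool.RCD Pool.LA91 Pool.OWN83 Pool.FVL91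
open Pool.V0T (LadT)
open Pool.V0R (LadR)
open Pool.D164 (BoxD AffD NumD)

/-- The ladder of the two targets of one slope. -/
theorem ladT_of_boxD {m : ℕ} {S : PCl m} {c : ℕ → Fin m} {D : ℕ} {sn : ℕ → ℝ → ℝ} {G : Set ℝ}
    {s σ h b o w u Λ φ : ℝ} (B : BoxD S c D sn G s σ h b o w u Λ φ) : LadT S c 1 1 sn G b o φ where
  toLadR := B.lad.take (by norm_num)
  et := B.lad.eq 2 (by norm_num) (by norm_num)

/-- **The numbers** of the velocities of the places `1`, `2` on a sub-box, in a subclass; the order of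
the constants as in `num4T`. -/
theorem numD_T (s : ℝ) (hs : 1 < s) (L : ℕ) (hL : 1 ≤ L) (κ₀ : ℝ) (hκ₀ : 0 < κ₀) :
    ∃ n : ℕ, 1 ≤ n ∧ ∀ T σ₁ : ℝ, s + 3 ≤ T → 0 < σ₁ → σ₁ ≤ 1 → ∃ Λ e : ℝ, 1 ≤ Λ ∧ 0 < e ∧
    ∀ {m : ℕ} {D : ℕ} {S : PCl m} {c : ℕ → Fin m} {sn : ℕ → ℝ → ℝ} {G : Set ℝ}
      {σ hr b o t q φ' P lam M : ℝ} {bl pl : ℕ → ℝ},
      S.Ne → Bas S (fun J F A => (cnt F.p (ptr F J) A : ℝ) ≤ Real.exp (M * J)) →
      BoxD S c D sn G s σ hr b o t q Λ φ' → φ' ≤ e * q →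
      AffD S c sn t (e * q) bl pl →
      (∀ v ∈ G, t ≤ v → v ≤ t + q → ∃ bl' pl' : ℕ → ℝ, AffD S c sn v (e * q) bl' pl') →
      (∀ i ≤ L ^ n, t + (i / (L : ℝ) ^ n) * q ∈ G) → sn 0 t + T * q ≤ P →
      sn 0 t - t + T * q ≤ lam →
      ∃ S' : PCl m, S'.Ne ∧
      (∀ (τ : ℝ) (J : ℕ) (F : Fam m J) (A : F.Ω → Prop), S'.St τ J F A → S.St τ J F A) ∧
      ∃ (N : ℕ → ℕ → ℝ) (k p : ℕ), 1 ≤ k ∧ k ≤ n ∧ L ∣ p ∧ p + L ≤ L ^ k ∧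
        (∀ i ≤ L, t + (p / (L : ℝ) ^ k) * q + i * (q / (L : ℝ) ^ k) ∈ G) ∧
        NumD S' c sn bl pl P lam (σ₁ * q) (2 * s * Real.log 2) (κ₀ * (q / (L : ℝ) ^ k)) L
          (fun i => t + (p / (L : ℝ) ^ k) * q + i * (q / (L : ℝ) ^ k)) N := by
  obtain ⟨n, hn, hk⟩ := numKT 1 s hs L hL κ₀ hκ₀
  refine ⟨n, hn, fun T σ₁ hT h0 h1 => ?_⟩
  obtain ⟨Λ, e, hΛ, he, hk⟩ := hk T σ₁ hT h0 h1
  refine ⟨Λ, e, hΛ, he, ?_⟩
  intro m D S c sn G σ hr b o t q φ' P lam M bl pl hS hM Bx hφ hA hAll hG hP hlam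
  have hΛq : 0 ≤ Λ * q := mul_nonneg (by linarith) Bx.u0.le
  obtain ⟨S', s1, s2, N, k, p, h2, h3, h4, h5, h6, h7⟩ := hk hS hM (ladT_of_boxD Bx) Bx.u0 hφ Bx.wG
    (by linarith [Bx.bw]) Bx.wo (fun l hl1 hl2 v hv hb ho => Bx.lin l hl1 (by omega) v hv hb ho)
    (fun l hl => hA l (by omega))
    (fun v hv hv1 hv2 => by
      obtain ⟨bl', pl', h8⟩ := hAll v hv hv1 hv2
      exact ⟨bl', pl', fun l hl => h8 l (by omega)⟩) hG hP hlam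
  refine ⟨S', s1, s2, N, k, p, h2, h3, h4, h5, h6, h7.nn, ?_, h7.sub, h7.sup, h7.ev, h7.rn⟩
  intro i j hij hj
  have h9 := h7.up i j hij hj
  have e1 : (((1 : ℕ) : ℝ) + 1) * s * Real.log 2 = 2 * s * Real.log 2 := by
    push_cast
    ring
  rwa [e1] at h9

end Pool.T462
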