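import Pool.Agent.H4.T4.Lbx
import Pool.Agent.H91.NVA.Aff

/-!
# The slopes of one affine label

`slo_one`: the slopes of a closed affine label of one place at a window are bounded by the gradients of
other closed labels of any degree at the window.
-/

set_option autoImplicit false

namespace Pool.T462

open Finset Real MvPolynomial
open Pool.Agent.H49.Ent Pool.Agent.H32.Dense
open Pool.STK hiding pr2
open Pool.KA Pool.KSAT Pool.K2S Pool.PB Pool.S6C
open Pool.GEN Pool.CHT Pool.CHX Pool.ISO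
open Pool.D2R Pool.GF64
open Pool.D2F2 (hgp vlp ojet_vlp)
open Pool.RCD Pool.LA91
open Pool.GRD (LbP)
open Pool.BFL (Pb)
open Pool.LIV (Pb_mono25 Pb_or25 Pb_ex25)
open Pool.GRW (tmc_bas)
open Pool.V0F (LbE)
open Pool.T4J

variable {m : ℕ}

/-- **The slopes of one affine label.** `R`: the room; `θ`: the defect of the precision. -/
theorem slo_one {S : PCl m} {C₀ : ℝ} (htm : TmC S C₀) {c : ℕ → Fin m} {l D n : ℕ} {v u₁ : ℝ}
    {s rd : ℕ → ℝ} (hch : Chn S c 0 l v v u₁ s rd) (hl1 : 1 ≤ l) (hln : l < n) {E rd' : ℕ → ℝ}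
    {R : ℝ} (hE : ∀ j ≤ l, 0 ≤ E j ∧ s j + E j + R ≤ 1) (hvR : v + R ≤ 1)
    (hlab : ∀ e : ℝ, 0 < e → Bas S (fun J F A => ∃ (V : Type) (z : PtT F → V) (z' : LnT F → V)
      (g : V → ℕ → MvPolynomial (Option (Fin m)) ℝ), LbE F c n D E e v rd' s A z z' g))
    {θ : ℝ} (hθ : 0 ≤ θ) {ε : ℝ} (hε : 0 < ε) {η : ℝ} (hη : 0 < η) :
    Bas S (fun J F A => ∀ (P : ℕ) (V : Type) (z : PtT F → V) (z' : LnT F → V)
      (G : V → MvPolynomial (Option (Fin m)) ℝ), ⌊(s l - θ) * J⌋₊ ≤ P →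
      LbP F ((range l).image c) (c l) 1 J ⌊v * J⌋₊ P A z z' G →
      Pb (Pool.Agent.H49.Ent.cond F.p A True) (fun ω =>
        ¬ ∀ o, |coeff (Finsupp.single o 1) (G (z' (slam F ⌊v * J⌋₊ ω)))| ≤
          2 ^ ((1 - R - s l + θ + ε) * J)) ≤ η) := by
  classical
  have hl0 : (0 : ℝ) ≤ l := Nat.cast_nonneg l
  have hm0 : (0 : ℝ) ≤ m := Nat.cast_nonneg m
  obtain ⟨ε₁, hε₁⟩ : ∃ ε₁ : ℝ, ε₁ = ε / (2 * (l + 3)) := ⟨_, rfl⟩
  have hε10 : 0 < ε₁ := by rw [hε₁]; positivity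
  have hε11 : ((l : ℝ) + 3) * ε₁ = ε / 2 := by
    rw [hε₁]
    field_simp
  obtain ⟨D', hD'⟩ : ∃ D' : ℕ, D' = max 1 D := ⟨_, rfl⟩
  have hD1 : 1 ≤ D' := by rw [hD']; exact le_max_left _ _
  have hDD : D ≤ D' := by rw [hD']; exact le_max_right _ _
  have hw0 := hch.w0
  have hw1 : v < 1 := hch.u0
  obtain ⟨J₁, hJ₁⟩ := E_big (a := ε / 2) (C := (m + 3) * (1 + 8 * l)) (by linarith)
  refine Bas.mono (J₁ + 1) ((((dd_cls htm hch hl1 hε10.le hε10 D' (half_pos hη)).and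
    (own_cls htm ((range l).image c) (c l) 1 1 hw0 hw1 (half_pos hη) hε10)).and
    (hlab ε₁ hε10)).and (tmc_bas htm one_pos)) ?_
  rintro J hJ F A ⟨⟨⟨hdd, how⟩, V', y, y', g, hg⟩, hA, -⟩ P V z z' G hP hG
  have hJ0 : (0 : ℝ) ≤ J := Nat.cast_nonneg J
  have f1 := hJ₁ J (by omega)
  have hq := isLaw_cond F.isLaw hA
  have h0 := hq.nonneg
  have k1 := hdd (c l) ⌊(s l - ε₁) * J⌋₊ P (fun j => ⌊(s j - ε₁) * J⌋₊) (fun _ => V') V' V
    (fun _ => y) (fun _ => y') (fun j a => g a j) y y' (fun a => g a l) z z' G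
    (fun j g1 g2 => (LbP.of (hg j (by omega))).mono (Finset.Subset.refl _) hDD le_rfl)
    (fun j g1 g2 => E_inv_floor J (s j - ε₁))
    ((LbP.of (hg l hln)).mono (Finset.Subset.refl _) hDD le_rfl)
    (hG.mono (Finset.Subset.refl _) hD1 le_rfl)
  have k2 := how P V z z' G hG
  have k3 := Pb_or25 h0 (fun ω => ¬ ∀ W : Option (Fin m) → ℝ, W none = 0 →
      |dd (g (y' (slam F ⌊v * J⌋₊ ω)) l - G (z' (slam F ⌊v * J⌋₊ ω))) (bt F ω) W| ≤
        2 ^ ((ε₁ + l * ε₁) * J) * (1 / 2 ^ ⌊(s l - ε₁) * J⌋₊ + 1 / 2 ^ P) *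
          ∑ j ∈ range l, 2 ^ (s j * J) *
            |Pool.T4J.cmp c (fun j => g (y' (slam F ⌊v * J⌋₊ ω)) j) (bt F ω) W j|)
    (fun ω => ¬ |ojet F (c l) 1 (G (z' (slam F ⌊v * J⌋₊ ω))) ω| ≤
      2 ^ ((ε₁ + (1 : ℕ) * v) * J) * (1 / 2 ^ P))
  refine le_trans (Pb_mono25 h0 fun ω hω hb => ?_) (k3.trans (by linarith))
  have hAω : A ω := by
    have h1 := ((cond_pos_iff F.isLaw.nonneg A True ω).1 hω).2
    rw [h1]
    trivial
  by_contra hno
  rw [not_or, not_not, not_not] at hno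
  obtain ⟨hdω, hvω⟩ := hno
  refine hb fun o => ?_
  obtain ⟨L, hL⟩ : ∃ L, L = G (z' (slam F ⌊v * J⌋₊ ω)) := ⟨_, rfl⟩
  obtain ⟨gω, hgω⟩ : ∃ gω, gω = g (y' (slam F ⌊v * J⌋₊ ω)) := ⟨_, rfl⟩
  have hLd : L.totalDegree ≤ 1 := by
    rw [hL]
    exact hG.deg _
  rw [← hL, ← hgω] at hdω
  rw [← hL] at hvω
  rw [← hL]
  -- the gradients of the charts
  have hgr : ∀ j ≤ l, ∀ o, |eval (bt F ω) (pderiv o (gω j))| ≤ 2 ^ ((E j + ε₁) * J) := by
    intro j hj o
    have h3 := (hg j (by omega)).lip ω hAω (bt F ω) (fun o' => by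
      rw [sub_self, abs_zero]
      positivity) o
    rw [hgω]
    exact h3.trans (E_floor_le (by linarith [(hE j hj).1]))
  -- the precisions
  have hPP : (1 : ℝ) / 2 ^ P ≤ 2 * 2 ^ (-(s l - θ) * J) :=
    (one_div_le_one_div_of_le (by positivity) (pow_le_pow_right₀ (by norm_num) hP)).trans
      (E_inv_floor J (s l - θ))
  obtain ⟨X, hX⟩ : ∃ X : ℝ, X = 2 ^ (((l + 3) * ε₁ + θ + 1 - R - s l) * J) := ⟨_, rfl⟩
  have hX1 : 1 ≤ X := by
    rw [hX]
    refine E_one ?_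
    have := mul_nonneg (show (0 : ℝ) ≤ l + 3 by linarith) hε10.le
    linarith [(hE l le_rfl).1, (hE l le_rfl).2]
  obtain ⟨M, hM⟩ : ∃ M : ℝ, M = (1 + 8 * l) * X := ⟨_, rfl⟩
  have hXM : X ≤ M := by
    rw [hM]
    nlinarith
  have hM0 : 0 ≤ M := by linarith
  -- the space directions
  have hsp : ∀ k : Fin m, |coeff (Finsupp.single (some k) 1) L| ≤ M := by
    intro k
    obtain ⟨W, hW⟩ : ∃ W : Option (Fin m) → ℝ, W = fun o => if o = some k then 1 else 0 := ⟨_, rfl⟩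
    have hW0 : W none = 0 := by
      rw [hW]
      simp
    have hW1 : ∀ o, |W o| ≤ 1 := fun o => by
      rw [hW]
      show |(if o = some k then (1 : ℝ) else 0)| ≤ 1
      split_ifs
      · rw [abs_one]
      · rw [abs_zero]
        exact zero_le_one
    have hdW : ∀ (Q : MvPolynomial (Option (Fin m)) ℝ), dd Q (bt F ω) W =
        eval (bt F ω) (pderiv (some k) Q) := fun Q => by
      unfold dd
      rw [hW, Finset.sum_eq_single (some k)]
      · show eval (bt F ω) (pderiv (some k) Q) * (if (some k) = some k then (1 : ℝ) else 0) = _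
        rw [if_pos rfl, mul_one]
      · intro o _ ho
        show eval (bt F ω) (pderiv o Q) * (if o = some k then (1 : ℝ) else 0) = 0
        rw [if_neg ho, mul_zero]
      · intro h
        exact absurd (Finset.mem_univ _) h
    have hcm : ∀ j ∈ range l, (2 : ℝ) ^ (s j * J) * |Pool.T4J.cmp c (fun j => gω j) (bt F ω) W j| ≤
        2 * 2 ^ ((1 - R + ε₁) * J) := by
      intro j hj
      have hjl := Finset.mem_range.1 hj
      have g1 := hgr j hjl.le (some k)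
      have g2 : (1 : ℝ) ≤ 2 ^ ((E j + ε₁) * J) := E_one (by linarith [(hE j hjl.le).1])
      have g3 : |Pool.T4J.cmp c (fun j => gω j) (bt F ω) W j| ≤ 2 * 2 ^ ((E j + ε₁) * J) := by
        unfold Pool.T4J.cmp
        split_ifs with h3
        · have := hW1 (some (c 0))
          linarith
        · rw [hdW]
          have h4 := abs_sub (W (some (c j))) (eval (bt F ω) (pderiv (some k) (gω j)))
          have := hW1 (some (c j))
          linarith
      have g4 := mul_le_mul_of_nonneg_left g3 (E_pos J (s j)).le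
      refine g4.trans ?_
      have e1 : (2 : ℝ) ^ (s j * J) * (2 * 2 ^ ((E j + ε₁) * J)) =
          2 * (2 ^ (s j * J) * 2 ^ ((E j + ε₁) * J)) := by ring
      rw [e1, E_add]
      exact mul_le_mul_of_nonneg_left (E_mono J (by linarith [(hE j hjl.le).2])) (by norm_num)
    have hS : ∑ j ∈ range l, (2 : ℝ) ^ (s j * J) * |Pool.T4J.cmp c (fun j => gω j) (bt F ω) W j| ≤
        l * (2 * 2 ^ ((1 - R + ε₁) * J)) := by
      refine (Finset.sum_le_sum hcm).trans (le_of_eq ?_)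
      rw [Finset.sum_const, Finset.card_range, nsmul_eq_mul]
    have hB : (1 : ℝ) / 2 ^ ⌊(s l - ε₁) * J⌋₊ + 1 / 2 ^ P ≤ 4 * 2 ^ ((ε₁ + θ - s l) * J) := by
      have g1 := E_inv_floor J (s l - ε₁)
      have g2 := E_mono J (show -(s l - ε₁) ≤ ε₁ + θ - s l by linarith)
      have g3 := E_mono J (show -(s l - θ) ≤ ε₁ + θ - s l by linarith)
      linarith
    have h3 := hdω W hW0
    have h4 : |dd (gω l - L) (bt F ω) W| ≤ 8 * l * X := by
      refine h3.trans ?_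
      have g1 : (2 : ℝ) ^ ((ε₁ + l * ε₁) * J) * (1 / 2 ^ ⌊(s l - ε₁) * J⌋₊ + 1 / 2 ^ P) ≤
          2 ^ ((ε₁ + l * ε₁) * J) * (4 * 2 ^ ((ε₁ + θ - s l) * J)) :=
        mul_le_mul_of_nonneg_left hB (E_pos J _).le
      have g2 := mul_le_mul g1 hS (Finset.sum_nonneg fun j _ =>
        mul_nonneg (E_pos J _).le (abs_nonneg _)) (by
          have := E_pos J (ε₁ + l * ε₁)
          have := E_pos J (ε₁ + θ - s l)
          positivity)
      refine g2.trans (le_of_eq ?_)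
      have e1 : (2 : ℝ) ^ ((ε₁ + l * ε₁) * J) * (4 * 2 ^ ((ε₁ + θ - s l) * J)) *
          (l * (2 * 2 ^ ((1 - R + ε₁) * J))) = 8 * l * (2 ^ ((ε₁ + l * ε₁) * J) *
            2 ^ ((ε₁ + θ - s l) * J) * 2 ^ ((1 - R + ε₁) * J)) := by ring
      rw [e1, E_add, E_add, hX]
      congr 3
      ring
    have h5 := hgr l le_rfl (some k)
    have h6 : (2 : ℝ) ^ ((E l + ε₁) * J) ≤ X := by
      rw [hX]
      refine E_mono J ?_
      have := mul_nonneg (show (0 : ℝ) ≤ l + 2 by linarith) hε10.le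
      linarith [(hE l le_rfl).2]
    rw [dd_sub, hdW, hdW] at h4
    rw [← Pool.NVA91.aff_pd hLd (some k) (bt F ω)]
    have h7 := abs_sub_abs_le_abs_sub (eval (bt F ω) (pderiv (some k) L))
      (eval (bt F ω) (pderiv (some k) (gω l)))
    rw [abs_sub_comm] at h7
    have h8 : M = X + 8 * l * X := by
      rw [hM]
      ring
    linarith
  have hfin : (m + 3) * M ≤ 2 ^ ((1 - R - s l + θ + ε) * J) := by
    have h3 := mul_le_mul_of_nonneg_right f1 (show 0 ≤ X by linarith)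
    have h4 : (m + 3) * M = (m + 3) * (1 + 8 * l) * X := by
      rw [hM]
      ring
    rw [h4]
    refine h3.trans (le_of_eq ?_)
    rw [hX, E_add]
    congr 2
    rw [hε11]
    ring
  refine le_trans ?_ hfin
  cases o with
  | some k =>
    have h3 := hsp k
    nlinarith
  | none =>
    have h3 : |vlp F (c l) L ω| ≤ 2 * X := by
      rw [ojet_vlp] at hvω
      refine hvω.trans ?_
      have h4 := mul_le_mul_of_nonneg_left hPP (E_pos J (ε₁ + (1 : ℕ) * v)).le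
      refine h4.trans ?_
      have e1 : (2 : ℝ) ^ ((ε₁ + (1 : ℕ) * v) * J) * (2 * 2 ^ (-(s l - θ) * J)) =
          2 * (2 ^ ((ε₁ + (1 : ℕ) * v) * J) * 2 ^ (-(s l - θ) * J)) := by ring
      rw [e1, E_add, hX]
      refine mul_le_mul_of_nonneg_left (E_mono J ?_) (by norm_num)
      have := mul_nonneg (show (0 : ℝ) ≤ l + 2 by linarith) hε10.le
      push_cast
      linarith
    unfold vlp at h3
    have e1 : dd L (bt F ω) (bd F ω) = coeff (Finsupp.single none 1) L +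
        ∑ k : Fin m, coeff (Finsupp.single (some k) 1) L * F.d ω k := by
      unfold dd
      rw [Fintype.sum_option]
      have e2 : bd F ω none = 1 := rfl
      rw [Pool.NVA91.aff_pd hLd, e2, mul_one]
      congr 1
      exact Finset.sum_congr rfl fun k _ => by
        rw [Pool.NVA91.aff_pd hLd]
        rfl
    have e3 : |∑ k : Fin m, coeff (Finsupp.single (some k) 1) L * F.d ω k| ≤ m * M := by
      refine (Finset.abs_sum_le_sum_abs _ _).trans ?_
      have e4 : ∀ k ∈ (univ : Finset (Fin m)),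
          |coeff (Finsupp.single (some k) 1) L * F.d ω k| ≤ M := fun k _ => by
        rw [abs_mul]
        have g1 := hsp k
        have g4 : |coeff (Finsupp.single (some k) 1) L| * |F.d ω k| ≤
            |coeff (Finsupp.single (some k) 1) L| * 1 :=
          mul_le_mul_of_nonneg_left (F.dir ω k) (abs_nonneg _)
        linarith
      refine (Finset.sum_le_sum e4).trans (le_of_eq ?_)
      rw [Finset.sum_const, Finset.card_univ, Fintype.card_fin, nsmul_eq_mul]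
    have e5 : |F.d ω (c l)| ≤ 1 := F.dir ω (c l)
    have g1 : coeff (Finsupp.single none 1) L = F.d ω (c l) -
        (F.d ω (c l) - dd L (bt F ω) (bd F ω)) -
          ∑ k : Fin m, coeff (Finsupp.single (some k) 1) L * F.d ω k := by
      rw [e1]
      ring
    rw [g1]
    have g2 := abs_sub (F.d ω (c l) - (F.d ω (c l) - dd L (bt F ω) (bd F ω)))
      (∑ k : Fin m, coeff (Finsupp.single (some k) 1) L * F.d ω k)
    have g3 := abs_sub (F.d ω (c l)) (F.d ω (c l) - dd L (bt F ω) (bd F ω))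
    linarith

/-- **The slopes of one affine label**, on a part of every large event, from the box. -/
theorem slo_one' {S : PCl m} {C₀ : ℝ} (htm : TmC S C₀) {c : ℕ → Fin m} {l D n d : ℕ}
    {sn : ℕ → ℝ → ℝ} {Gs : Set ℝ} (hch : ChG S c d sn Gs) (hld : l ≤ d) (hl1 : 1 ≤ l) (hln : l < n)
    {v : ℝ} (hv : v ∈ Gs) {E rd' : ℕ → ℝ} {R : ℝ}
    (hE : ∀ j ≤ l, 0 ≤ E j ∧ sn j v + E j + R ≤ 1) (hvR : v + R ≤ 1)
    (hlab : ∀ e : ℝ, 0 < e → Bas S (fun J F A => ∃ (V : Type) (z : PtT F → V) (z' : LnT F → V)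
      (g : V → ℕ → MvPolynomial (Option (Fin m)) ℝ),
      LbE F c n D E e v rd' (fun l => sn l v) A z z' g))
    {θ : ℝ} (hθ : 0 ≤ θ) {ε : ℝ} (hε : 0 < ε) {η : ℝ} (hη : 0 < η) :
    Bas S (fun J F A => ∀ (P : ℕ) (V : Type) (z : PtT F → V) (z' : LnT F → V)
      (G : V → MvPolynomial (Option (Fin m)) ℝ), ⌊(sn l v - θ) * J⌋₊ ≤ P →
      LbP F ((range l).image c) (c l) 1 J ⌊v * J⌋₊ P A z z' G →
      ∃ B : F.Ω → Prop, Sub B A ∧ (1 - η) * Pe F.p A ≤ Pe F.p B ∧
        ∀ ω, B ω → ∀ o, |coeff (Finsupp.single o 1) (G (z' (slam F ⌊v * J⌋₊ ω)))| ≤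
          2 ^ ((1 - R - sn l v + θ + ε) * J)) := by
  obtain ⟨u₁, rd, -, hC⟩ := hch.ch v hv
  refine Bas.mono 0 ((slo_one htm (hC.take (Nat.zero_le l) hld) hl1 hln hE hvR hlab hθ hε hη).and
    (tmc_bas htm one_pos)) ?_
  rintro J - F A ⟨h, hA, -⟩ P V z z' G hP hG
  have h1 := pe_big hA (h P V z z' G hP hG)
  exact ⟨_, fun ω hω => hω.1, h1, fun ω hω => not_not.1 hω.2⟩

end Pool.T462
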